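import Pool.Agent.Lib_helper22.Vec

open Set Filter Complex
open scoped Topology ComplexConjugate Real

noncomputable section

namespace Pool.Agent.MinSurf

lemma fourier_natCast (k : ℕ) (x : AddCircle (1 : ℝ)) :
    (fourier (k : ℤ) x : ℂ) = (fourier 1 x : ℂ) ^ k := by
  induction k with
  | zero => simp
  | succ k ih =>
    rw [pow_succ, ← ih, Nat.cast_succ, fourier_add]

lemma span_fourier_poly (g : C(AddCircle (1 : ℝ), ℂ))
    (hg : g ∈ Submodule.span ℂ (range (@fourier (1 : ℝ)))) :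
    ∃ m : ℕ, ∃ P : ℂ → ℂ, Differentiable ℂ P ∧
      ∀ x, P (fourier 1 x) = (fourier 1 x : ℂ) ^ m * g x := by
  induction hg using Submodule.span_induction with
  | mem g hg =>
    obtain ⟨n, rfl⟩ := hg
    obtain ⟨k, rfl | rfl⟩ := n.eq_nat_or_neg
    · refine ⟨0, fun z => z ^ k, by fun_prop, ?_⟩
      intro x
      rw [pow_zero, one_mul, fourier_natCast]
    · refine ⟨k, fun _ => 1, by fun_prop, ?_⟩
      intro x
      rw [← fourier_natCast, ← fourier_add, add_neg_cancel, fourier_zero]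
  | zero => exact ⟨0, fun _ => 0, by fun_prop, by intro x; simp⟩
  | add g1 g2 _ _ h1 h2 =>
    obtain ⟨m1, P1, hP1, h1⟩ := h1
    obtain ⟨m2, P2, hP2, h2⟩ := h2
    refine ⟨m1 + m2, fun z => z ^ m2 * P1 z + z ^ m1 * P2 z, by fun_prop, ?_⟩
    intro x
    simp only [h1, h2, ContinuousMap.add_apply]
    ring
  | smul c g _ h =>
    obtain ⟨m, P, hP, h⟩ := h
    refine ⟨m, fun z => c * P z, by fun_prop, ?_⟩
    intro x
    simp only [h, ContinuousMap.smul_apply, smul_eq_mul]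
    ring

lemma exists_fourier_one_eq {z : ℂ} (hz : ‖z‖ = 1) :
    ∃ x : AddCircle (1 : ℝ), (fourier 1 x : ℂ) = z := by
  refine ⟨((arg z / (2 * π) : ℝ) : AddCircle (1 : ℝ)), ?_⟩
  rw [fourier_coe_apply]
  have h1 : (2 * (π : ℂ) * I * ((1 : ℤ) : ℂ) * ((arg z / (2 * π) : ℝ) : ℂ) / ((1 : ℝ) : ℂ)) = arg z * I := by
    have : (π : ℂ) ≠ 0 := by exact_mod_cast Real.pi_ne_zero
    push_cast
    field_simp
  rw [h1]
  have := Complex.norm_mul_exp_arg_mul_I z
  rw [hz] at this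
  simpa using this

lemma norm_fourier_one (x : AddCircle (1 : ℝ)) : ‖(fourier 1 x : ℂ)‖ = 1 := by
  rw [fourier_apply]; exact Circle.norm_coe _

/-- Approximation on the unit circle by (entire function) / `z ^ m`. -/
lemma circle_approx {f : ℂ → ℂ} (hf : ContinuousOn f (Metric.sphere 0 1)) {ε : ℝ}
    (hε : 0 < ε) :
    ∃ m : ℕ, ∃ P : ℂ → ℂ, Differentiable ℂ P ∧ ∀ z, ‖z‖ = 1 → ‖P z - z ^ m * f z‖ < ε := by
  let F : C(AddCircle (1 : ℝ), ℂ) := ⟨fun x => f (fourier 1 x), by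
    apply hf.comp_continuous (fourier 1).continuous
    intro x
    simp⟩
  have hF : F ∈ (Submodule.span ℂ (range (@fourier (1 : ℝ)))).topologicalClosure := by
    rw [span_fourier_closure_eq_top]; trivial
  rw [← SetLike.mem_coe, Submodule.topologicalClosure_coe, Metric.mem_closure_iff] at hF
  obtain ⟨g, hg, hFg⟩ := hF ε hε
  obtain ⟨m, P, hP, h⟩ := span_fourier_poly g hg
  refine ⟨m, P, hP, ?_⟩
  intro z hz
  obtain ⟨x, rfl⟩ := exists_fourier_one_eq hz
  rw [h, ← mul_sub, norm_mul, norm_pow, norm_fourier_one, one_pow, one_mul]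
  have h1 : dist (F x) (g x) ≤ dist F g := ContinuousMap.dist_apply_le_dist x
  rw [dist_eq_norm, norm_sub_rev] at h1
  exact lt_of_le_of_lt h1 hFg

/-- Simultaneous approximation of two functions. -/
lemma circle_approx₂ {f g : ℂ → ℂ} (hf : ContinuousOn f (Metric.sphere 0 1))
    (hg : ContinuousOn g (Metric.sphere 0 1)) {ε : ℝ} (hε : 0 < ε) :
    ∃ m : ℕ, ∃ P Q : ℂ → ℂ, Differentiable ℂ P ∧ Differentiable ℂ Q ∧
      ∀ z, ‖z‖ = 1 → ‖P z - z ^ m * f z‖ < ε ∧ ‖Q z - z ^ m * g z‖ < ε := by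
  obtain ⟨m1, P, hP, h1⟩ := circle_approx hf hε
  obtain ⟨m2, Q, hQ, h2⟩ := circle_approx hg hε
  refine ⟨m1 + m2, fun z => z ^ m2 * P z, fun z => z ^ m1 * Q z, by fun_prop, by fun_prop, ?_⟩
  intro z hz
  constructor
  · have e : z ^ m2 * P z - z ^ (m1 + m2) * f z = z ^ m2 * (P z - z ^ m1 * f z) := by ring
    rw [e, norm_mul, norm_pow, hz, one_pow, one_mul]
    exact h1 z hz
  · have e : z ^ m1 * Q z - z ^ (m1 + m2) * g z = z ^ m1 * (Q z - z ^ m2 * g z) := by ring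
    rw [e, norm_mul, norm_pow, hz, one_pow, one_mul]
    exact h2 z hz

end Pool.Agent.MinSurf
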