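import Pool.Agent.Lib_helper22.Geometry

open Set Filter Complex MeasureTheory
open scoped Topology ComplexConjugate Real ContDiff ENNReal

noncomputable section

namespace Pool.Agent.MinSurf

namespace WData

variable {u v A B C : ℂ → ℂ}

lemma diff_phi (W : WData u v A B C) {z : ℂ} (hz : z ∈ Metric.ball (0 : ℂ) 1) :
    DifferentiableAt ℝ (phi A B C) z :=
  (hasFDerivAt_phi (W.hA z hz) (W.hB z hz) (W.hC z hz)).differentiableAt

/-- The speed of a path in the induced metric. -/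
lemma enorm_derivWithin (W : WData u v A B C) {γ : ℝ → ℂ}
    (hγ : ContDiffOn ℝ 1 γ (Icc (0 : ℝ) 1)) (hm : ∀ t ∈ Icc (0 : ℝ) 1, γ t ∈ Metric.ball (0 : ℂ) 1)
    {t : ℝ} (ht : t ∈ Icc (0 : ℝ) 1) :
    ‖derivWithin (phi A B C ∘ γ) (Icc (0 : ℝ) 1) t‖ =
      lam u v (γ t) * ‖derivWithin γ (Icc (0 : ℝ) 1) t‖ := by
  have h1 : HasDerivWithinAt γ (derivWithin γ (Icc (0 : ℝ) 1) t) (Icc 0 1) t :=
    ((hγ.differentiableOn one_ne_zero) t ht).hasDerivWithinAt
  have h2 := (W.diff_phi (hm t ht)).hasFDerivAt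
  have h3 := h2.comp_hasDerivWithinAt t h1
  rw [h3.derivWithin (uniqueDiffOn_Icc zero_lt_one t ht), W.norm_fderiv (hm t ht)]

lemma dist_lower (W : WData u v A B C) {F : Type*} [NormedAddCommGroup F] [NormedSpace ℝ F]
    {V : ℂ → F} (hV : ContDiff ℝ 1 V)
    (hVl : ∀ z ∈ Metric.ball (0 : ℂ) 1, ‖fderiv ℝ V z‖ ≤ lam u v z) (x y : ℂ) :
    ‖V y - V x‖ₑ ≤ inducedDist (phi A B C) (Metric.ball 0 1) x y := by
  unfold inducedDist
  refine le_iInf₂ ?_
  rintro γ ⟨hγ, hm, rfl, rfl⟩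
  unfold inducedLength
  have h1 : ContDiffOn ℝ 1 (V ∘ γ) (Icc (0 : ℝ) 1) := hV.comp_contDiffOn hγ
  refine (enorm_sub_le_lintegral_derivWithin_Icc_of_contDiffOn_Icc h1 zero_le_one).trans ?_
  apply setLIntegral_mono' measurableSet_Icc
  intro t ht
  have h2 : HasDerivWithinAt γ (derivWithin γ (Icc (0 : ℝ) 1) t) (Icc 0 1) t :=
    ((hγ.differentiableOn one_ne_zero) t ht).hasDerivWithinAt
  have h3 := (hV.differentiable one_ne_zero (γ t)).hasFDerivAt
  have h4 := h3.comp_hasDerivWithinAt t h2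
  rw [h4.derivWithin (uniqueDiffOn_Icc zero_lt_one t ht)]
  rw [← ofReal_norm, ← ofReal_norm, W.enorm_derivWithin hγ hm ht]
  apply ENNReal.ofReal_le_ofReal
  refine (ContinuousLinearMap.le_opNorm _ _).trans ?_
  have := hVl (γ t) (hm t ht)
  gcongr

lemma continuousOn_lam (W : WData u v A B C) : ContinuousOn (lam u v) (Metric.ball 0 1) := by
  unfold lam
  exact (W.hu.continuousOn.norm.pow 2).add (W.hv.continuousOn.norm.pow 2)

lemma dist_upper (W : WData u v A B C) {R L : ℝ} (hR : R < 1)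
    (hL : ∀ z ∈ Metric.closedBall (0 : ℂ) R, lam u v z ≤ L) {x y : ℂ}
    (hx : x ∈ Metric.closedBall (0 : ℂ) R) (hy : y ∈ Metric.closedBall (0 : ℂ) R) :
    inducedDist (phi A B C) (Metric.ball 0 1) x y ≤ ENNReal.ofReal (L * ‖y - x‖) := by
  set γ : ℝ → ℂ := fun t => x + t • (y - x) with hγdef
  have hγ : ContDiff ℝ 1 γ := by
    apply contDiff_const.add
    exact contDiff_id.smul contDiff_const
  have hmem : ∀ t ∈ Icc (0 : ℝ) 1, γ t ∈ Metric.closedBall (0 : ℂ) R := by
    intro t ht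
    exact (convex_closedBall (0 : ℂ) R).add_smul_sub_mem hx hy ht
  have hsub : Metric.closedBall (0 : ℂ) R ⊆ Metric.ball 0 1 := Metric.closedBall_subset_ball hR
  have hder : ∀ t, HasDerivAt γ (y - x) t := by
    intro t
    have := ((hasDerivAt_id t).smul_const (y - x)).const_add x
    rw [one_smul] at this
    exact this
  have h0 : γ 0 = x := by simp [hγdef]
  have h1 : γ 1 = y := by simp [hγdef]
  have hle : inducedDist (phi A B C) (Metric.ball 0 1) x y ≤ inducedLength (phi A B C) γ :=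
    iInf₂_le γ ⟨hγ.contDiffOn, fun t ht => hsub (hmem t ht), h0, h1⟩
  refine hle.trans ?_
  unfold inducedLength
  calc ∫⁻ t in Icc (0 : ℝ) 1, ‖derivWithin (phi A B C ∘ γ) (Icc (0 : ℝ) 1) t‖ₑ
      ≤ ∫⁻ t in Icc (0 : ℝ) 1, ENNReal.ofReal (L * ‖y - x‖) := by
        apply setLIntegral_mono' measurableSet_Icc
        intro t ht
        rw [← ofReal_norm, W.enorm_derivWithin hγ.contDiffOn (fun t ht => hsub (hmem t ht)) ht]
        apply ENNReal.ofReal_le_ofReal
        rw [(hder t).hasDerivWithinAt.derivWithin (uniqueDiffOn_Icc zero_lt_one t ht)]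
        have := hL (γ t) (hmem t ht)
        gcongr
    _ = ENNReal.ofReal (L * ‖y - x‖) := by
        rw [setLIntegral_const, Real.volume_Icc]
        simp

end WData

/-- A bound for the derivative of the smooth transition. -/
lemma exists_smoothTransition_bound : ∃ M : ℝ, 0 < M ∧ ∀ x, ‖deriv Real.smoothTransition x‖ ≤ M := by
  have hc : Continuous (deriv Real.smoothTransition) :=
    (Real.smoothTransition.contDiff (n := 1)).continuous_deriv le_rfl
  obtain ⟨M, hM⟩ := (isCompact_Icc (a := (-1 : ℝ)) (b := 2)).exists_bound_of_continuousOn hc.continuousOn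
  refine ⟨max M 1, by positivity, ?_⟩
  intro x
  by_cases hx : x ∈ Icc (-1 : ℝ) 2
  · exact (hM x hx).trans (le_max_left _ _)
  · have h0 : deriv Real.smoothTransition x = 0 := by
      rw [mem_Icc, not_and_or, not_le, not_le] at hx
      rcases hx with hx | hx
      · have : Real.smoothTransition =ᶠ[𝓝 x] fun _ => 0 := by
          filter_upwards [Iio_mem_nhds hx] with y hy
          exact Real.smoothTransition.zero_of_nonpos (by have : y < -1 := hy; linarith)
        rw [this.deriv_eq, deriv_const]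
      · have : Real.smoothTransition =ᶠ[𝓝 x] fun _ => 1 := by
          filter_upwards [Ioi_mem_nhds hx] with y hy
          exact Real.smoothTransition.one_of_one_le (by have : 2 < y := hy; linarith)
        rw [this.deriv_eq, deriv_const]
    rw [h0, norm_zero]
    positivity

/-- Radial step function. -/
def radial (a b : ℝ) (z : ℂ) : ℝ := Real.smoothTransition ((‖z‖ ^ 2 - a ^ 2) / (b ^ 2 - a ^ 2))

lemma radial_contDiff (a b : ℝ) : ContDiff ℝ 1 (radial a b) := by
  unfold radial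
  have h1 : ContDiff ℝ 1 (fun z : ℂ => (‖z‖ ^ 2 - a ^ 2) / (b ^ 2 - a ^ 2)) :=
    ((contDiff_norm_sq ℝ).sub contDiff_const).div_const _
  exact (Real.smoothTransition.contDiff (n := 1)).comp h1

lemma radial_eq_zero {a b : ℝ} (ha : 0 ≤ a) (hab : a < b) {z : ℂ} (hz : ‖z‖ ≤ a) :
    radial a b z = 0 := by
  unfold radial
  apply Real.smoothTransition.zero_of_nonpos
  apply div_nonpos_of_nonpos_of_nonneg
  · nlinarith [norm_nonneg z]
  · nlinarith

lemma radial_eq_one {a b : ℝ} (ha : 0 ≤ a) (hab : a < b) {z : ℂ} (hz : b ≤ ‖z‖) :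
    radial a b z = 1 := by
  unfold radial
  apply Real.smoothTransition.one_of_one_le
  rw [le_div_iff₀ (by nlinarith)]
  nlinarith [norm_nonneg z]

lemma fderiv_radial_eq_zero {a b : ℝ} (ha : 0 ≤ a) (hab : a < b) {z : ℂ}
    (hz : ‖z‖ < a ∨ b < ‖z‖) : fderiv ℝ (radial a b) z = 0 := by
  rcases hz with hz | hz
  · have : radial a b =ᶠ[𝓝 z] fun _ => 0 := by
      have ho : IsOpen {y : ℂ | ‖y‖ < a} := isOpen_lt continuous_norm continuous_const
      filter_upwards [ho.mem_nhds hz] with y hy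
      exact radial_eq_zero ha hab (le_of_lt hy)
    rw [this.fderiv_eq]; simp
  · have : radial a b =ᶠ[𝓝 z] fun _ => 1 := by
      have ho : IsOpen {y : ℂ | b < ‖y‖} := isOpen_lt continuous_const continuous_norm
      filter_upwards [ho.mem_nhds hz] with y hy
      exact radial_eq_one ha hab (le_of_lt hy)
    rw [this.fderiv_eq]; simp

lemma norm_fderiv_radial_le {a b M : ℝ} (ha : 0 ≤ a) (hab : a < b)
    (hM0 : 0 < M) (hM : ∀ x, ‖deriv Real.smoothTransition x‖ ≤ M) {z : ℂ} (hz : ‖z‖ ≤ b) :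
    ‖fderiv ℝ (radial a b) z‖ ≤ 2 * M / (b - a) := by
  have h1 : HasFDerivAt (fun z : ℂ => (‖z‖ ^ 2 - a ^ 2) / (b ^ 2 - a ^ 2))
      ((b ^ 2 - a ^ 2)⁻¹ • (2 • (innerSL ℝ z))) z := by
    have h := ((hasStrictFDerivAt_norm_sq z).hasFDerivAt.sub_const (a ^ 2)).mul_const (b ^ 2 - a ^ 2)⁻¹
    simp only [div_eq_mul_inv]
    exact h
  have h2 : HasDerivAt Real.smoothTransition
      (deriv Real.smoothTransition ((‖z‖ ^ 2 - a ^ 2) / (b ^ 2 - a ^ 2)))
      ((‖z‖ ^ 2 - a ^ 2) / (b ^ 2 - a ^ 2)) :=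
    ((Real.smoothTransition.contDiff (n := 1)).differentiable one_ne_zero _).hasDerivAt
  have h3 := h2.comp_hasFDerivAt z h1
  have h4 : fderiv ℝ (radial a b) z = _ := h3.fderiv
  rw [h4, norm_smul, norm_smul, ← Nat.cast_smul_eq_nsmul ℝ, norm_smul, innerSL_apply_norm]
  have hpos : 0 < b ^ 2 - a ^ 2 := by nlinarith
  have hba : 0 < b - a := by linarith
  have hb : 0 < b := by linarith
  rw [norm_inv, Real.norm_of_nonneg hpos.le]
  have h5 := hM ((‖z‖ ^ 2 - a ^ 2) / (b ^ 2 - a ^ 2))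
  calc ‖deriv Real.smoothTransition ((‖z‖ ^ 2 - a ^ 2) / (b ^ 2 - a ^ 2))‖ *
        ((b ^ 2 - a ^ 2)⁻¹ * (‖((2 : ℕ) : ℝ)‖ * ‖z‖))
      ≤ M * ((b ^ 2 - a ^ 2)⁻¹ * (2 * b)) := by
        have : ‖((2 : ℕ) : ℝ)‖ = 2 := by norm_num
        rw [this]
        gcongr
    _ ≤ 2 * M / (b - a) := by
        have e : b ^ 2 - a ^ 2 = (b - a) * (b + a) := by ring
        rw [e, le_div_iff₀ hba]
        have e2 : M * (((b - a) * (b + a))⁻¹ * (2 * b)) * (b - a) = 2 * M * (b / (b + a)) := by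
          have : b + a ≠ 0 := by positivity
          field_simp
        rw [e2]
        have e3 : b / (b + a) ≤ 1 := by rw [div_le_one (by positivity)]; linarith
        nlinarith

end Pool.Agent.MinSurf
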