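import Pool.Agent.Lib_helper22.Complete

open Set Filter Complex MeasureTheory
open scoped Topology ComplexConjugate Real ContDiff ENNReal

noncomputable section

namespace Pool.Agent.MinSurf

namespace WData

variable {u v A B C : ℂ → ℂ}

theorem isCompleteOn (W : WData u v A B C) {α β ℓ : ℕ → ℝ} (hα : ∀ n, 0 < α n)
    (hαβ : ∀ n, α n < β n) (hβα : ∀ n, β n < α (n + 1)) (hβ1 : ∀ n, β n < 1)
    (hαlim : ∀ t < 1, ∃ n, t < α n) (_hℓ : ∀ n, 0 < ℓ n)
    (hsum : ∀ n : ℕ, 1 / (1024 * ((n : ℝ) + 1)) ≤ ℓ n ^ 2 * (β n - α n))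
    (hlow : ∀ n z, α n ≤ ‖z‖ → ‖z‖ ≤ β n → ℓ n ≤ max ‖u z‖ ‖v z‖) :
    IsCompleteOn (phi A B C) (Metric.ball 0 1) := by
  have hαmono : StrictMono α := strictMono_nat_of_lt_succ fun n => (hαβ n).trans (hβα n)
  obtain ⟨M, hM0, hM⟩ := exists_smoothTransition_bound
  set c : ℕ → ℝ := fun n => ℓ n ^ 2 * (β n - α n) / (2 * M) with hc
  have hc0 : ∀ n, 0 ≤ c n := by
    intro n
    have h1 := hαβ n
    have : 0 ≤ β n - α n := by linarith
    simp only [hc]; positivity
  have hclow : ∀ n : ℕ, 1 / (2048 * M) * (1 / ((n : ℝ) + 1)) ≤ c n := by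
    intro n
    have h1 := hsum n
    simp only [hc]
    rw [le_div_iff₀ (by positivity)]
    calc 1 / (2048 * M) * (1 / ((n : ℝ) + 1)) * (2 * M) = 1 / (1024 * ((n : ℝ) + 1)) := by
          field_simp; norm_num
      _ ≤ _ := h1
  have hcdiv : Tendsto (fun K => ∑ n ∈ Finset.range K, c n) atTop atTop := by
    have h1 : Tendsto (fun K : ℕ => 1 / (2048 * M) * ∑ n ∈ Finset.range K, (1 / ((n : ℝ) + 1))) atTop atTop :=
      Real.tendsto_sum_range_one_div_nat_succ_atTop.const_mul_atTop (by positivity)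
    refine tendsto_atTop_mono ?_ h1
    intro K
    rw [Finset.mul_sum]
    exact Finset.sum_le_sum fun n _ => hclow n
  -- the proper functions
  set V : ℕ → ℂ → ℝ := fun K z => ∑ n ∈ Finset.range K, c n * radial (α n) (β n) z with hV
  have hVc : ∀ K, ContDiff ℝ 1 (V K) := by
    intro K
    apply ContDiff.sum
    intro n _
    exact contDiff_const.mul (radial_contDiff _ _)
  have hVd : ∀ K, ∀ z ∈ Metric.ball (0 : ℂ) 1, ‖fderiv ℝ (V K) z‖ ≤ lam u v z := by
    intro K z hz
    have hdiff : ∀ n, DifferentiableAt ℝ (radial (α n) (β n)) z := fun n =>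
      (radial_contDiff _ _).differentiable one_ne_zero z
    have h1 : fderiv ℝ (V K) z = ∑ n ∈ Finset.range K, c n • fderiv ℝ (radial (α n) (β n)) z := by
      have h2 : HasFDerivAt (V K) (∑ n ∈ Finset.range K, c n • fderiv ℝ (radial (α n) (β n)) z) z := by
        apply HasFDerivAt.fun_sum
        intro n _
        exact (hdiff n).hasFDerivAt.const_mul (c n)
      exact h2.fderiv
    rw [h1]
    by_cases hex : ∃ n0 ∈ Finset.range K, α n0 ≤ ‖z‖ ∧ ‖z‖ ≤ β n0
    · obtain ⟨n0, hn0, ha, hb⟩ := hex
      rw [Finset.sum_eq_single n0]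
      · rw [norm_smul, Real.norm_of_nonneg (hc0 n0)]
        have h3 := norm_fderiv_radial_le (hα n0).le (hαβ n0) hM0 hM hb
        have h4 : 0 < β n0 - α n0 := by linarith [hαβ n0]
        calc c n0 * ‖fderiv ℝ (radial (α n0) (β n0)) z‖ ≤ c n0 * (2 * M / (β n0 - α n0)) := by
              have := hc0 n0; gcongr
          _ = ℓ n0 ^ 2 := by simp only [hc]; field_simp
          _ ≤ (max ‖u z‖ ‖v z‖) ^ 2 := by
              have := hlow n0 z ha hb
              have h5 := _hℓ n0
              gcongr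
          _ ≤ lam u v z := sq_max_le_lam u v z
      · intro n _ hn
        have h3 : fderiv ℝ (radial (α n) (β n)) z = 0 := by
          apply fderiv_radial_eq_zero (hα n).le (hαβ n)
          rcases lt_or_gt_of_ne hn with h | h
          · right
            have h5 : α (n + 1) ≤ α n0 := hαmono.monotone h
            linarith [hβα n]
          · left
            have h5 : α (n0 + 1) ≤ α n := hαmono.monotone h
            linarith [hβα n0]
        rw [h3, smul_zero]
      · intro h; exact absurd hn0 h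
    · have h2 : ∑ n ∈ Finset.range K, c n • fderiv ℝ (radial (α n) (β n)) z = 0 := by
        apply Finset.sum_eq_zero
        intro n hn
        have h3 : fderiv ℝ (radial (α n) (β n)) z = 0 := by
          apply fderiv_radial_eq_zero (hα n).le (hαβ n)
          by_contra hcon
          push Not at hcon
          exact hex ⟨n, hn, hcon.1, hcon.2⟩
        rw [h3, smul_zero]
      rw [h2, norm_zero]
      exact (W.lam_pos hz).le
  have hVone : ∀ K z, α K ≤ ‖z‖ → V K z = ∑ n ∈ Finset.range K, c n := by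
    intro K z hz
    apply Finset.sum_congr rfl
    intro n hn
    have h1 : β n ≤ ‖z‖ := by
      have : α (n + 1) ≤ α K := hαmono.monotone (Finset.mem_range.mp hn)
      linarith [hβα n]
    rw [radial_eq_one (hα n).le (hαβ n) h1, mul_one]
  have hVle : ∀ K K0 z, ‖z‖ ≤ α K0 → V K z ≤ ∑ n ∈ Finset.range K0, c n := by
    intro K K0 z hz
    have h1 : V K z ≤ ∑ n ∈ Finset.range K, if n < K0 then c n else 0 := by
      apply Finset.sum_le_sum
      intro n _
      split_ifs with h
      · have h2 : radial (α n) (β n) z ≤ 1 := Real.smoothTransition.le_one _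
        have := hc0 n
        nlinarith
      · have h2 : radial (α n) (β n) z = 0 := by
          apply radial_eq_zero (hα n).le (hαβ n)
          exact hz.trans (hαmono.monotone (not_lt.mp h))
        rw [h2, mul_zero]
    refine h1.trans ?_
    rw [← Finset.sum_filter]
    apply Finset.sum_le_sum_of_subset_of_nonneg
    · intro n hn
      rw [Finset.mem_filter] at hn
      exact Finset.mem_range.mpr hn.2
    · intro n _ _; exact hc0 n
  -- start of the proof
  intro x hx hcauchy
  obtain ⟨N, hN⟩ := hcauchy 1 one_pos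
  have hxN : ‖x N‖ < 1 := by simpa using hx N
  obtain ⟨K0, hK0⟩ := hαlim _ hxN
  obtain ⟨K, hK⟩ := (hcdiv.eventually_gt_atTop (∑ n ∈ Finset.range K0, c n + 1)).exists
  have htail : ∀ n ≥ N, ‖x n‖ < α K := by
    intro n hn
    by_contra hcon
    push Not at hcon
    have h1 := hN N le_rfl n hn
    have h2 := (W.dist_lower (hVc K) (hVd K) (x N) (x n)).trans_lt h1
    rw [← ofReal_norm, ENNReal.ofReal_lt_one, Real.norm_eq_abs, abs_lt] at h2
    have h3 := hVone K (x n) hcon
    have h4 := hVle K K0 (x N) hK0.le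
    linarith [h2.2]
  have hαK1 : α K < 1 := (hαβ K).trans (hβ1 K)
  set R : ℝ := α K with hR
  have hR0 : 0 < R := hα K
  -- comparison with the Euclidean distance
  obtain ⟨m, hm0, hm⟩ : ∃ m : ℝ, 0 < m ∧ ∀ p q : ℂ, ‖p‖ ≤ R → ‖q‖ ≤ R →
      ENNReal.ofReal (m * ‖q - p‖) ≤ inducedDist (phi A B C) (Metric.ball 0 1) p q := by
    have hRR : R < (1 + R) / 2 := by linarith
    let χ : ContDiffBump (0 : ℂ) := ⟨R, (1 + R) / 2, hR0, hRR⟩
    set V1 : ℂ → ℂ := fun z => (χ z : ℝ) • z with hV1
    have hχ : ContDiff ℝ 1 (fun z => χ z) := χ.contDiff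
    have hV1c : ContDiff ℝ 1 V1 := hχ.smul contDiff_id
    have hV1eq : ∀ z, ‖z‖ ≤ R → V1 z = z := by
      intro z hz
      have : χ z = 1 := χ.one_of_mem_closedBall (by simpa using hz)
      simp only [hV1, this, one_smul]
    have hfc : Continuous (fderiv ℝ V1) := hV1c.continuous_fderiv one_ne_zero
    obtain ⟨M2, hM2⟩ := (isCompact_closedBall (0 : ℂ) ((1 + R) / 2)).exists_bound_of_continuousOn
      hfc.continuousOn
    have hM20 : 0 ≤ M2 := le_trans (norm_nonneg _) (hM2 0 (by simp; linarith))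
    have hfz : ∀ z, (1 + R) / 2 < ‖z‖ → fderiv ℝ V1 z = 0 := by
      intro z hz
      have : V1 =ᶠ[𝓝 z] fun _ => 0 := by
        have ho : IsOpen {y : ℂ | (1 + R) / 2 < ‖y‖} := isOpen_lt continuous_const continuous_norm
        filter_upwards [ho.mem_nhds hz] with y hy
        have h1 : χ y = 0 := χ.zero_of_le_dist (by
          have : (1 + R) / 2 < ‖y‖ := hy
          simpa using this.le)
        simp only [hV1, h1, zero_smul]
      rw [this.fderiv_eq]; simp
    have hsub : Metric.closedBall (0 : ℂ) ((1 + R) / 2) ⊆ Metric.ball 0 1 :=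
      Metric.closedBall_subset_ball (by linarith)
    obtain ⟨z0, hz0, hmin⟩ := (isCompact_closedBall (0 : ℂ) ((1 + R) / 2)).exists_isMinOn
      ⟨0, by simp; linarith⟩ (W.continuousOn_lam.mono hsub)
    have hl0 : 0 < lam u v z0 := W.lam_pos (hsub hz0)
    set m : ℝ := lam u v z0 / (M2 + 1) with hm
    have hm0 : 0 < m := by positivity
    refine ⟨m, hm0, ?_⟩
    intro p q hp hq
    have hV2c : ContDiff ℝ 1 (fun z => m • V1 z) := hV1c.const_smul m
    have hV2d : ∀ z ∈ Metric.ball (0 : ℂ) 1, ‖fderiv ℝ (fun z => m • V1 z) z‖ ≤ lam u v z := by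
      intro z hz
      have h1 : fderiv ℝ (fun z => m • V1 z) z = m • fderiv ℝ V1 z :=
        fderiv_fun_const_smul (hV1c.differentiable one_ne_zero z) m
      rw [h1, norm_smul, Real.norm_of_nonneg hm0.le]
      rcases le_or_gt ‖z‖ ((1 + R) / 2) with h | h
      · have h2 := hM2 z (by simpa using h)
        have h3 : lam u v z0 ≤ lam u v z := hmin (by simpa using h)
        calc m * ‖fderiv ℝ V1 z‖ ≤ m * (M2 + 1) := by gcongr; linarith
          _ = lam u v z0 := by rw [hm]; field_simp
          _ ≤ lam u v z := h3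
      · rw [hfz z h, norm_zero, mul_zero]
        exact (W.lam_pos hz).le
    have h1 := W.dist_lower hV2c hV2d p q
    refine le_trans (le_of_eq ?_) h1
    rw [hV1eq p hp, hV1eq q hq, ← smul_sub, ← ofReal_norm, norm_smul, Real.norm_of_nonneg hm0.le]
  -- the tail is Cauchy in `ℂ`
  have hcs : CauchySeq x := by
    rw [Metric.cauchySeq_iff]
    intro ε hε
    obtain ⟨N1, hN1⟩ := hcauchy (ENNReal.ofReal (m * ε)) (by positivity)
    refine ⟨max N N1, ?_⟩
    intro a ha b hb
    have h1 := hN1 a (le_of_max_le_right ha) b (le_of_max_le_right hb)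
    have h2 := (hm (x a) (x b) (htail a (le_of_max_le_left ha)).le (htail b (le_of_max_le_left hb)).le).trans_lt h1
    rw [ENNReal.ofReal_lt_ofReal_iff (by positivity)] at h2
    rw [dist_comm, dist_eq_norm]
    exact lt_of_mul_lt_mul_left h2 hm0.le
  obtain ⟨y, hy⟩ := cauchySeq_tendsto_of_complete hcs
  have hyR : ‖y‖ ≤ R := by
    apply le_of_tendsto hy.norm
    filter_upwards [eventually_ge_atTop N] with n hn using (htail n hn).le
  have hsubR : Metric.closedBall (0 : ℂ) R ⊆ Metric.ball 0 1 := Metric.closedBall_subset_ball hαK1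
  refine ⟨y, hsubR (by simpa using hyR), ?_⟩
  obtain ⟨L, hL⟩ := (isCompact_closedBall (0 : ℂ) R).exists_bound_of_continuousOn
    (W.continuousOn_lam.mono hsubR)
  have h1 : Tendsto (fun n => ENNReal.ofReal (L * ‖y - x n‖)) atTop (𝓝 0) := by
    have h2 : Tendsto (fun n => L * ‖y - x n‖) atTop (𝓝 (L * 0)) := by
      apply Tendsto.const_mul
      have := tendsto_iff_norm_sub_tendsto_zero.mp hy
      refine this.congr ?_
      intro n; rw [norm_sub_rev]
    rw [mul_zero] at h2
    have := ENNReal.tendsto_ofReal h2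
    simpa using this
  refine tendsto_of_tendsto_of_tendsto_of_le_of_le' tendsto_const_nhds h1
    (Eventually.of_forall fun n => bot_le) ?_
  filter_upwards [eventually_ge_atTop N] with n hn
  apply W.dist_upper hαK1
  · intro z hz
    have := hL z hz
    rw [Real.norm_eq_abs] at this
    exact (le_abs_self _).trans this
  · simpa using (htail n hn).le
  · simpa using hyR

end WData

end Pool.Agent.MinSurf
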