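import Pool.Agent.Lib_helper22.Limit

open Set Filter Complex
open scoped Topology ComplexConjugate Real

noncomputable section

namespace Pool.Agent.MinSurf

lemma primitive_limit {A u v : ℕ → ℂ → ℂ} {A' u' v' : ℂ → ℂ}
    (hA : ∀ n z, HasDerivAt (A n) (u n z * v n z) z)
    (hAl : TendstoLocallyUniformlyOn A A' atTop (Metric.ball 0 1))
    (hul : ∀ z ∈ Metric.ball (0 : ℂ) 1, Tendsto (fun n => u n z) atTop (𝓝 (u' z)))
    (hvl : ∀ z ∈ Metric.ball (0 : ℂ) 1, Tendsto (fun n => v n z) atTop (𝓝 (v' z))) :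
    ∀ z ∈ Metric.ball (0 : ℂ) 1, HasDerivAt A' (u' z * v' z) z := by
  intro z hz
  have hd : ∀ᶠ n in atTop, DifferentiableOn ℂ (A n) (Metric.ball 0 1) :=
    Eventually.of_forall fun n z _ => (hA n z).differentiableAt.differentiableWithinAt
  have h1 : DifferentiableOn ℂ A' (Metric.ball 0 1) := hAl.differentiableOn hd Metric.isOpen_ball
  have h2 := hAl.deriv hd Metric.isOpen_ball
  have h3 : Tendsto (fun n => deriv (A n) z) atTop (𝓝 (deriv A' z)) := h2.tendsto_at hz
  have h4 : Tendsto (fun n => deriv (A n) z) atTop (𝓝 (u' z * v' z)) := by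
    have : (fun n => deriv (A n) z) = fun n => u n z * v n z := by
      ext n; exact (hA n z).deriv
    rw [this]
    exact (hul z hz).mul (hvl z hz)
  rw [← tendsto_nhds_unique h3 h4]
  exact (h1.differentiableAt (Metric.isOpen_ball.mem_nhds hz)).hasDerivAt

theorem construction : ∃ u v A B C : ℂ → ℂ,
    DifferentiableOn ℂ u (Metric.ball 0 1) ∧ DifferentiableOn ℂ v (Metric.ball 0 1) ∧
    (∀ z ∈ Metric.ball (0 : ℂ) 1, HasDerivAt A (u z * u z) z) ∧
    (∀ z ∈ Metric.ball (0 : ℂ) 1, HasDerivAt B (v z * v z) z) ∧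
    (∀ z ∈ Metric.ball (0 : ℂ) 1, HasDerivAt C (u z * v z) z) ∧
    (∀ z ∈ Metric.ball (0 : ℂ) 1, 0 < max ‖u z‖ ‖v z‖) ∧
    (∃ K : ℝ, ∀ z ∈ Metric.ball (0 : ℂ) 1, ‖vec (A z) (B z) (C z)‖ ≤ K) ∧
    (∀ z ∈ Metric.ball (0 : ℂ) 1, vec (A z) (B z) (C z) = vec (A 0) (B 0) (C 0) → z = 0) ∧
    (∃ α β ℓ : ℕ → ℝ, (∀ n, 0 < α n) ∧ (∀ n, α n < β n) ∧ (∀ n, β n < α (n + 1)) ∧
      (∀ n, β n < 1) ∧ (∀ t < 1, ∃ n, t < α n) ∧ (∀ n, 0 < ℓ n) ∧
      (∀ n : ℕ, 1 / (1024 * ((n : ℝ) + 1)) ≤ ℓ n ^ 2 * (β n - α n)) ∧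
      ∀ n z, α n ≤ ‖z‖ → ‖z‖ ≤ β n → ℓ n ≤ max ‖u z‖ ‖v z‖) ∧
    (∃ (w : ℕ → ℂ) (ϱ ℓ : ℕ → ℝ), (∀ n, 0 < ϱ n) ∧ (∀ n, 0 < ℓ n) ∧
      (∀ n, 1 / 512 ≤ ℓ n ^ 2 * ϱ n) ∧ (∀ n, Metric.closedBall (w n) (ϱ n) ⊆ Metric.ball 0 1) ∧
      (∀ m n, m ≠ n → Disjoint (Metric.closedBall (w m) (ϱ m)) (Metric.closedBall (w n) (ϱ n))) ∧
      ∀ n, ∀ z ∈ Metric.closedBall (w n) (ϱ n), ℓ n ≤ max ‖u z‖ ‖v z‖) := by
  obtain ⟨b, s, hs0, hs, hb0, hb⟩ := exists_seq
  set ρ : ℕ → ℝ := fun n => (s n).ρ with hρdef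
  set τ : ℕ → ℝ := fun n => (s n).τ with hτdef
  have hτ0 : ∀ n, 0 < τ n := fun n => (s n).hτ
  have hρlt : ∀ n, ρ n < ρ (n + 1) := fun n => (hs n).rho
  have hρmono : Monotone ρ := monotone_nat_of_le_succ fun n => (hρlt n).le
  have hρ1 : ∀ n, ρ n < 1 := fun n => (s n).hρ1
  have hρlim : ∀ t < 1, ∃ n, t < ρ n := by
    intro t ht
    have h1 : Tendsto (fun n : ℕ => 1 - 1 / ((n : ℝ) + 2)) atTop (𝓝 (1 - 0)) := by
      apply Tendsto.sub tendsto_const_nhds
      apply Tendsto.const_div_atTop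
      exact tendsto_atTop_add_const_right _ _ tendsto_natCast_atTop_atTop
    rw [sub_zero] at h1
    obtain ⟨n, hn⟩ := (h1.eventually (lt_mem_nhds ht)).exists
    exact ⟨n + 1, lt_of_lt_of_le hn (hs n).rho'⟩
  have hτgeo : ∀ n m, τ (n + m) ≤ τ n * (1 / 2) ^ m := by
    intro n m
    induction m with
    | zero => simp
    | succ m ih =>
      have h1 := (hs (n + m)).tau
      have h2 : τ (n + (m + 1)) ≤ τ (n + m) / 2 := h1
      rw [pow_succ]
      linarith
  have hτlim : Tendsto τ atTop (𝓝 0) := by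
    have h1 : Tendsto (fun m : ℕ => τ 0 * (1 / 2) ^ m) atTop (𝓝 (τ 0 * 0)) := by
      apply Tendsto.const_mul
      exact tendsto_pow_atTop_nhds_zero_of_lt_one (by norm_num) (by norm_num)
    rw [mul_zero] at h1
    refine squeeze_zero (fun n => (hτ0 n).le) (fun n => ?_) h1
    have := hτgeo 0 n
    rwa [zero_add] at this
  have hclose : ∀ n m, CloseOn (s n).D (s (n + m)).D (ρ n) (2 * τ n * (1 - (1 / 2) ^ m)) := by
    intro n m
    induction m with
    | zero =>
      intro z _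
      simp
    | succ m ih =>
      have h1 := ih.trans (hs (n + m)).close (hρmono (Nat.le_add_right n m))
      have h2 : 2 * τ n * (1 - (1 / 2) ^ m) + (s (n + m)).τ ≤ 2 * τ n * (1 - (1 / 2) ^ (m + 1)) := by
        have h3 := hτgeo n m
        have h4 : (s (n + m)).τ = τ (n + m) := rfl
        rw [h4, pow_succ]
        linarith
      intro z hz
      obtain ⟨g1, g2, g3, g4, g5⟩ := h1 z hz
      exact ⟨g1.trans h2, g2.trans h2, g3.trans h2, g4.trans h2, g5.trans h2⟩
  have hclose' : ∀ n m z, ‖z‖ ≤ ρ n → ‖(s (n + m)).D.u z - (s n).D.u z‖ ≤ 2 * τ n ∧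
      ‖(s (n + m)).D.v z - (s n).D.v z‖ ≤ 2 * τ n ∧ ‖(s (n + m)).D.A z - (s n).D.A z‖ ≤ 2 * τ n ∧
      ‖(s (n + m)).D.B z - (s n).D.B z‖ ≤ 2 * τ n ∧
      ‖(s (n + m)).D.C z - (s n).D.C z‖ ≤ 2 * τ n := by
    intro n m z hz
    obtain ⟨g1, g2, g3, g4, g5⟩ := hclose n m z hz
    have h2 : 2 * τ n * (1 - (1 / 2) ^ m) ≤ 2 * τ n := by
      have : (0 : ℝ) ≤ (1 / 2) ^ m := by positivity
      nlinarith [hτ0 n]
    exact ⟨g1.trans h2, g2.trans h2, g3.trans h2, g4.trans h2, g5.trans h2⟩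
  obtain ⟨u, hu1, hu2, hu3⟩ := lim_exists (f := fun n => (s n).D.u)
    (fun n m z hz => (hclose' n m z hz).1) hτlim hρmono hρlim
  obtain ⟨v, hv1, hv2, hv3⟩ := lim_exists (f := fun n => (s n).D.v)
    (fun n m z hz => (hclose' n m z hz).2.1) hτlim hρmono hρlim
  obtain ⟨A, hA1, hA2, hA3⟩ := lim_exists (f := fun n => (s n).D.A)
    (fun n m z hz => (hclose' n m z hz).2.2.1) hτlim hρmono hρlim
  obtain ⟨B, hB1, hB2, hB3⟩ := lim_exists (f := fun n => (s n).D.B)
    (fun n m z hz => (hclose' n m z hz).2.2.2.1) hτlim hρmono hρlim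
  obtain ⟨C, hC1, hC2, hC3⟩ := lim_exists (f := fun n => (s n).D.C)
    (fun n m z hz => (hclose' n m z hz).2.2.2.2) hτlim hρmono hρlim
  have hAd := primitive_limit (fun n z => (s n).D.hA z) hA3 hu1 hu1
  have hBd := primitive_limit (fun n z => (s n).D.hB z) hB3 hv1 hv1
  have hCd := primitive_limit (fun n z => (s n).D.hC z) hC3 hu1 hv1
  -- lower bound for the size of the limit spinor
  have hm : ∀ n z, ‖z‖ ≤ ρ n → (s n).D.m z - 2 * τ n ≤ max ‖u z‖ ‖v z‖ := by
    intro n z hz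
    have hzb : z ∈ Metric.ball (0 : ℂ) 1 := by simpa using lt_of_le_of_lt hz (hρ1 n)
    have h1 := hu2 n z hzb hz
    have h2 := hv2 n z hzb hz
    have e1 : ‖(s n).D.u z‖ ≤ ‖u z‖ + 2 * τ n := by
      have := norm_sub_norm_le ((s n).D.u z) (u z)
      rw [norm_sub_rev] at this
      linarith
    have e2 : ‖(s n).D.v z‖ ≤ ‖v z‖ + 2 * τ n := by
      have := norm_sub_norm_le ((s n).D.v z) (v z)
      rw [norm_sub_rev] at this
      linarith
    have : (s n).D.m z ≤ max ‖u z‖ ‖v z‖ + 2 * τ n := by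
      apply max_le
      · exact e1.trans (by gcongr; exact le_max_left _ _)
      · exact e2.trans (by gcongr; exact le_max_right _ _)
    linarith
  have hm' : ∀ n z, ‖z‖ ≤ ρ (n + 1) → (s (n + 1)).D.m z / 2 ≤ max ‖u z‖ ‖v z‖ := by
    intro n z hz
    have h1 := hm (n + 1) z hz
    have h2 := (hs n).robust z (hz.trans (hρ1 _).le)
    have h3 : (s (n + 1)).τ = τ (n + 1) := rfl
    rw [h3] at h2
    linarith
  -- the surface
  have hXlim : ∀ z ∈ Metric.ball (0 : ℂ) 1,
      Tendsto (fun n => (s n).D.X z) atTop (𝓝 (vec (A z) (B z) (C z))) := by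
    intro z hz
    rw [tendsto_iff_norm_sub_tendsto_zero]
    have h1 : Tendsto (fun n => 2 * (‖(s n).D.A z - A z‖ + ‖(s n).D.B z - B z‖
        + ‖(s n).D.C z - C z‖)) atTop (𝓝 (2 * (0 + 0 + 0))) := by
      apply Tendsto.const_mul
      exact ((tendsto_iff_norm_sub_tendsto_zero.mp (hA1 z hz)).add
        (tendsto_iff_norm_sub_tendsto_zero.mp (hB1 z hz))).add
        (tendsto_iff_norm_sub_tendsto_zero.mp (hC1 z hz))
    norm_num at h1
    refine squeeze_zero (fun n => norm_nonneg _) (fun n => ?_) h1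
    rw [Datum.X, ← vec_sub]
    exact norm_vec_le _ _ _
  -- upper bound
  obtain ⟨S, hS⟩ : ∃ S : ℝ, ∀ n : ℕ, ∑ k ∈ Finset.range n, (1 / ((k : ℝ) + 1)) ^ 2 ≤ S := by
    have hsum : Summable (fun k : ℕ => (1 / ((k : ℝ) + 1)) ^ 2) := by
      have := (summable_nat_add_iff 1).mpr (Real.summable_one_div_nat_pow.mpr one_lt_two)
      refine this.congr ?_
      intro k
      rw [one_div_pow]
      push_cast
      rfl
    exact ⟨∑' k : ℕ, (1 / ((k : ℝ) + 1)) ^ 2, fun n => hsum.sum_le_tsum _ (fun k _ => by positivity)⟩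
  have hgeo : ∀ n : ℕ, ∑ k ∈ Finset.range n, ((1 : ℝ) / 2) ^ k ≤ 2 := by
    intro n
    have : ∀ m : ℕ, ∑ n ∈ Finset.range m, ((1 : ℝ) / 2) ^ n = 2 - 2 * (1 / 2) ^ m := by
      intro m
      induction m with
      | zero => simp
      | succ m ih => rw [Finset.sum_range_succ, ih]; ring
    rw [this]
    have : (0 : ℝ) ≤ (1 / 2) ^ n := by positivity
    linarith
  have hS0 : 0 ≤ S := by simpa using hS 0
  have hup : ∀ n z, ‖z‖ ≤ 1 → ‖(s n).D.X z‖ ≤
      Real.sqrt (100 + ∑ k ∈ Finset.range n, (4 * (1 / ((k : ℝ) + 1)) ^ 2 + (1 / 2) ^ k))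
        + ∑ k ∈ Finset.range n, (b k z + (1 / 2) ^ k / 16) := by
    intro n z hz
    induction n with
    | zero =>
      simp only [Finset.range_zero, Finset.sum_empty, add_zero]
      rw [hs0, initSt_norm]
      have : Real.sqrt 100 = 10 := by
        rw [show (100 : ℝ) = 10 ^ 2 by norm_num]; simp
      rw [this]; linarith
    | succ n ih =>
      rw [Finset.sum_range_succ, Finset.sum_range_succ]
      set Q : ℝ := 100 + ∑ k ∈ Finset.range n, (4 * (1 / ((k : ℝ) + 1)) ^ 2 + (1 / 2) ^ k) with hQ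
      set U : ℝ := ∑ k ∈ Finset.range n, (b k z + (1 / 2) ^ k / 16) with hU
      have hQ0 : 0 ≤ Q := by positivity
      have hU0 : 0 ≤ U := Finset.sum_nonneg fun k _ => by have := hb0 k z; positivity
      have h1 := (hs n).upper z hz
      have hq0 : 0 ≤ 4 * (1 / ((n : ℝ) + 1)) ^ 2 + (1 / 2) ^ n := by positivity
      set q : ℝ := 4 * (1 / ((n : ℝ) + 1)) ^ 2 + (1 / 2) ^ n with hq
      have h2 : Real.sqrt (‖(s n).D.X z‖ ^ 2 + 4 * (1 / ((n : ℝ) + 1)) ^ 2 + (1 / 2) ^ n)
          ≤ Real.sqrt (Q + q) + U := by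
        rw [Real.sqrt_le_left (by positivity)]
        have h3 : Real.sqrt (Q + q) ^ 2 = Q + q := Real.sq_sqrt (by positivity)
        have h4 : Real.sqrt Q ^ 2 = Q := Real.sq_sqrt hQ0
        have h5 : Real.sqrt Q ≤ Real.sqrt (Q + q) := Real.sqrt_le_sqrt (by linarith)
        have h6 : ‖(s n).D.X z‖ ^ 2 ≤ (Real.sqrt Q + U) ^ 2 := by
          apply pow_le_pow_left₀ (norm_nonneg _) ih
        have h7 : Real.sqrt Q * U ≤ Real.sqrt (Q + q) * U := by gcongr
        nlinarith
      have h3 : 100 + (∑ k ∈ Finset.range n, (4 * (1 / ((k : ℝ) + 1)) ^ 2 + (1 / 2) ^ k) + q) = Q + q := by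
        rw [hQ]; ring
      rw [h3]
      linarith
  have hup' : ∀ n z, ‖z‖ ≤ 1 → ‖(s n).D.X z‖ ≤ Real.sqrt (100 + (4 * S + 2)) + 3 := by
    intro n z hz
    refine (hup n z hz).trans ?_
    apply add_le_add
    · apply Real.sqrt_le_sqrt
      rw [Finset.sum_add_distrib, ← Finset.mul_sum]
      have := hS n
      have := hgeo n
      linarith
    · rw [Finset.sum_add_distrib, ← Finset.sum_div]
      have := hb n z hz
      have := hgeo n
      linarith
  -- lower bound
  have hlow : ∀ n z, ‖z‖ ≤ 1 → 10 * ‖z‖ - ∑ k ∈ Finset.range n, (b k z + (1 / 2) ^ k / 8)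
      ≤ ‖(s n).D.X z‖ := by
    intro n z hz
    induction n with
    | zero =>
      simp only [Finset.range_zero, Finset.sum_empty, sub_zero]
      rw [hs0, initSt_norm]
    | succ n ih =>
      rw [Finset.sum_range_succ]
      have h1 := (hs n).lower z hz
      linarith
  have hlow' : ∀ n z, ‖z‖ ≤ 1 → 10 * ‖z‖ - 9 / 4 ≤ ‖(s n).D.X z‖ := by
    intro n z hz
    refine le_trans ?_ (hlow n z hz)
    rw [Finset.sum_add_distrib, ← Finset.sum_div]
    have := hb n z hz
    have := hgeo n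
    linarith
  have hτ00 : τ 0 = 1 / 100 := by simp only [hτdef, hs0]; rfl
  have hρ00 : ρ 0 = 1 / 2 := by simp only [hρdef, hs0]; rfl
  refine ⟨u, v, A, B, C, ?_, ?_, hAd, hBd, hCd, ?_, ?_, ?_, ?_, ?_⟩
  · exact hu3.differentiableOn (Eventually.of_forall fun n => (s n).D.hu.differentiableOn)
      Metric.isOpen_ball
  · exact hv3.differentiableOn (Eventually.of_forall fun n => (s n).D.hv.differentiableOn)
      Metric.isOpen_ball
  · -- immersion
    intro z hz
    have hz' : ‖z‖ < 1 := by simpa using hz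
    obtain ⟨n, hn⟩ := hρlim _ hz'
    have h1 := hm' n z (hn.le.trans (hρlt n).le)
    have h2 := (hs n).robust z hz'.le
    have h3 := hτ0 (n + 1)
    have h4 : (s (n + 1)).τ = τ (n + 1) := rfl
    rw [h4] at h2
    linarith
  · -- bounded
    refine ⟨Real.sqrt (100 + (4 * S + 2)) + 3, ?_⟩
    intro z hz
    have hz' : ‖z‖ < 1 := by simpa using hz
    exact le_of_tendsto' (hXlim z hz).norm (fun n => hup' n z hz'.le)
  · -- the value at `0` is taken only once
    intro z hz heq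
    have hz' : ‖z‖ < 1 := by simpa using hz
    have h0b : (0 : ℂ) ∈ Metric.ball (0 : ℂ) 1 := by simp
    rcases le_or_gt ‖z‖ (1 / 2) with hzh | hzh
    · -- near the origin
      have hu0 : ∀ y ∈ Metric.closedBall (0 : ℂ) (1 / 2), ‖u y - (Real.sqrt 10 : ℂ)‖ ≤ 1 / 50 := by
        intro y hy
        have hy' : ‖y‖ ≤ 1 / 2 := by simpa using hy
        have h1 := hu2 0 y (by simp; linarith) (by rw [hρ00]; exact hy')
        rw [hτ00, hs0] at h1
        have e : (2 : ℝ) * (1 / 100) = 1 / 50 := by norm_num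
        rw [e] at h1
        exact h1
      have hv0 : ∀ y ∈ Metric.closedBall (0 : ℂ) (1 / 2), ‖v y‖ ≤ 1 / 50 := by
        intro y hy
        have hy' : ‖y‖ ≤ 1 / 2 := by simpa using hy
        have h1 := hv2 0 y (by simp; linarith) (by rw [hρ00]; exact hy')
        rw [hτ00, hs0] at h1
        have e : (2 : ℝ) * (1 / 100) = 1 / 50 := by norm_num
        rw [e] at h1
        have e2 : initSt.D.v y = 0 := rfl
        simpa [e2] using h1
      have hs10 : Real.sqrt 10 ≤ 3.2 := by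
        rw [Real.sqrt_le_left (by norm_num)]; norm_num
      have hs10' : ‖((Real.sqrt 10 : ℝ) : ℂ)‖ ≤ 3.2 := by
        rw [Complex.norm_real, Real.norm_eq_abs, abs_of_nonneg (Real.sqrt_nonneg _)]; exact hs10
      have hsq : ((Real.sqrt 10 : ℝ) : ℂ) * ((Real.sqrt 10 : ℝ) : ℂ) = 10 := by
        have : (Real.sqrt 10 : ℝ) * Real.sqrt 10 = 10 := Real.mul_self_sqrt (by norm_num)
        exact_mod_cast this
      have hun : ∀ y ∈ Metric.closedBall (0 : ℂ) (1 / 2), ‖u y‖ ≤ 3.3 := by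
        intro y hy
        have h1 := hu0 y hy
        have h2 : ‖u y‖ ≤ ‖u y - (Real.sqrt 10 : ℂ)‖ + ‖((Real.sqrt 10 : ℝ) : ℂ)‖ := by
          have := norm_add_le (u y - (Real.sqrt 10 : ℂ)) ((Real.sqrt 10 : ℝ) : ℂ)
          simpa using this
        norm_num at hs10' h1 h2 ⊢
        linarith
      have hsub : Metric.closedBall (0 : ℂ) (1 / 2) ⊆ Metric.ball 0 1 :=
        Metric.closedBall_subset_ball (by norm_num)
      have hzc : z ∈ Metric.closedBall (0 : ℂ) (1 / 2) := by simpa using hzh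
      have h0c : (0 : ℂ) ∈ Metric.closedBall (0 : ℂ) (1 / 2) := by simp
      have hconv : Convex ℝ (Metric.closedBall (0 : ℂ) (1 / 2)) := convex_closedBall _ _
      have dA : ‖(A z - 10 * z) - (A 0 - 10 * 0)‖ ≤ 0.14 * ‖z - 0‖ := by
        apply Convex.norm_image_sub_le_of_norm_hasDerivWithin_le
          (f := fun y => A y - 10 * y) (f' := fun y => u y * u y - 10)
          (s := Metric.closedBall (0 : ℂ) (1 / 2)) _ _ hconv h0c hzc
        · intro y hy
          have h1 := (hAd y (hsub hy)).sub ((hasDerivAt_id y).const_mul 10)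
          have h2 : HasDerivAt (fun y => A y - 10 * y) (u y * u y - 10) y := by
            refine h1.congr_deriv ?_
            simp
          exact h2.hasDerivWithinAt
        · intro y hy
          have e : u y * u y - 10 = (u y - (Real.sqrt 10 : ℂ)) * (u y + (Real.sqrt 10 : ℂ)) := by
            linear_combination hsq
          rw [e, norm_mul]
          have h1 := hu0 y hy
          have h2 : ‖u y + (Real.sqrt 10 : ℂ)‖ ≤ 3.3 + 3.2 :=
            (norm_add_le _ _).trans (add_le_add (hun y hy) hs10')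
          calc ‖u y - (Real.sqrt 10 : ℂ)‖ * ‖u y + (Real.sqrt 10 : ℂ)‖
              ≤ (1 / 50) * (3.3 + 3.2) := by gcongr
            _ ≤ 0.14 := by norm_num
      have dB : ‖B z - B 0‖ ≤ 0.01 * ‖z - 0‖ := by
        apply Convex.norm_image_sub_le_of_norm_hasDerivWithin_le
          (f := B) (f' := fun y => v y * v y)
          (s := Metric.closedBall (0 : ℂ) (1 / 2)) _ _ hconv h0c hzc
        · intro y hy
          exact (hBd y (hsub hy)).hasDerivWithinAt
        · intro y hy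
          rw [norm_mul]
          have h1 := hv0 y hy
          calc ‖v y‖ * ‖v y‖ ≤ (1 / 50) * (1 / 50) := by gcongr
            _ ≤ 0.01 := by norm_num
      have dC : ‖C z - C 0‖ ≤ 0.1 * ‖z - 0‖ := by
        apply Convex.norm_image_sub_le_of_norm_hasDerivWithin_le
          (f := C) (f' := fun y => u y * v y)
          (s := Metric.closedBall (0 : ℂ) (1 / 2)) _ _ hconv h0c hzc
        · intro y hy
          exact (hCd y (hsub hy)).hasDerivWithinAt
        · intro y hy
          rw [norm_mul]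
          have h1 := hv0 y hy
          have h2 := hun y hy
          calc ‖u y‖ * ‖v y‖ ≤ 3.3 * (1 / 50) := by gcongr
            _ ≤ 0.1 := by norm_num
      have e1 : vec (10 * z) 0 0 + vec ((A z - 10 * z) - (A 0 - 10 * 0)) (B z - B 0) (C z - C 0)
          = vec (A z) (B z) (C z) - vec (A 0) (B 0) (C 0) := by
        rw [← vec_add, ← vec_sub]
        congr 1 <;> ring
      rw [heq, sub_self] at e1
      have e2 : ‖vec (10 * z) 0 0‖ = ‖vec ((A z - 10 * z) - (A 0 - 10 * 0)) (B z - B 0) (C z - C 0)‖ := by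
        rw [eq_neg_of_add_eq_zero_left e1, norm_neg]
      rw [norm_vec_single, norm_mul] at e2
      have e3 := norm_vec_le ((A z - 10 * z) - (A 0 - 10 * 0)) (B z - B 0) (C z - C 0)
      rw [← e2] at e3
      rw [sub_zero] at dA dB dC
      norm_num at e3 dA dB dC
      have : ‖z‖ ≤ 0 := by linarith
      exact norm_le_zero_iff.mp this
    · -- away from the origin
      exfalso
      have h1 : 10 * ‖z‖ - 9 / 4 ≤ ‖vec (A z) (B z) (C z)‖ :=
        ge_of_tendsto' (hXlim z hz).norm (fun n => hlow' n z hz'.le)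
      have h2 : ‖vec (A 0) (B 0) (C 0)‖ ≤ 1 := by
        have h3 := hA2 0 0 h0b (by rw [hρ00]; norm_num)
        have h4 := hB2 0 0 h0b (by rw [hρ00]; norm_num)
        have h5 := hC2 0 0 h0b (by rw [hρ00]; norm_num)
        rw [hτ00, hs0] at h3 h4 h5
        have e1 : initSt.D.A 0 = 0 := by simp [initSt]
        have e2 : initSt.D.B 0 = 0 := rfl
        have e3 : initSt.D.C 0 = 0 := rfl
        rw [e1, sub_zero] at h3
        rw [e2, sub_zero] at h4
        rw [e3, sub_zero] at h5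
        refine (norm_vec_le _ _ _).trans ?_
        linarith
      rw [heq] at h1
      linarith
  · -- annuli
    choose α β ℓ h1 h2 h3 h4 h5 h6 using fun n => (hs n).annulus
    refine ⟨α, β, fun n => ℓ n / 4, ?_, h2, ?_, ?_, ?_, ?_, ?_, ?_⟩
    · intro n
      have := (s n).hρ0
      linarith [h1 n]
    · intro n
      exact (h3 n).trans (h1 (n + 1))
    · intro n
      exact (h3 n).trans (hρ1 _)
    · intro t ht
      obtain ⟨n, hn⟩ := hρlim t ht
      exact ⟨n, hn.trans (h1 n)⟩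
    · intro n
      have := h4 n
      positivity
    · intro n
      have := h5 n
      have e : (ℓ n / 4) ^ 2 * (β n - α n) = (ℓ n ^ 2 * (β n - α n)) / 16 := by ring
      rw [e]
      have e2 : 1 / (1024 * ((n : ℝ) + 1)) = (1 / ((n : ℝ) + 1) / 64) / 16 := by
        field_simp; norm_num
      rw [e2]
      linarith
    · intro n z hz1 hz2
      have h7 := h6 n z hz1 hz2
      have h8 := hm' n z (hz2.trans (h3 n).le)
      simp only
      linarith
  · -- balls
    choose w ϱ ℓ h1 h2 h3 h4 using fun n => (hs n).ball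
    refine ⟨w, ϱ, fun n => ℓ n / 2, h1, ?_, ?_, ?_, ?_, ?_⟩
    · intro n
      have := h2 n
      positivity
    · intro n
      have := h3 n
      have e : (ℓ n / 2) ^ 2 * ϱ n = (ℓ n ^ 2 * ϱ n) / 4 := by ring
      rw [e]
      linarith
    · intro n z hz
      have := (h4 n z hz).2.1
      simpa using lt_of_le_of_lt this (hρ1 (n + 1))
    · have key : ∀ m n, m < n → Disjoint (Metric.closedBall (w m) (ϱ m)) (Metric.closedBall (w n) (ϱ n)) := by
        intro m n hmn
        rw [Set.disjoint_left]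
        intro z hz1 hz2
        have g1 := (h4 m z hz1).2.1
        have g2 := (h4 n z hz2).1
        have g3 : ρ (m + 1) ≤ ρ n := hρmono hmn
        have g4 : (s n).ρ = ρ n := rfl
        have g5 : (s (m + 1)).ρ = ρ (m + 1) := rfl
        rw [g4] at g2
        rw [g5] at g1
        linarith
      intro m n hmn
      rcases lt_or_gt_of_ne hmn with h | h
      · exact key m n h
      · exact (key n m h).symm
    · intro n z hz
      obtain ⟨-, g1, g2⟩ := h4 n z hz
      have h8 := hm' n z g1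
      simp only
      linarith

end Pool.Agent.MinSurf
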