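import Mathlib

/-!
# Definitions: parametrised surfaces in `ℝ³`, induced metric, Laplacian, essential spectrum

A surface is given by a map `φ : ℂ → ℝ³`, considered on an open set `U ⊆ ℂ = ℝ²`.
-/

open MeasureTheory Set Filter
open scoped ContDiff ENNReal Topology

noncomputable section

namespace Pool.Agent.MinSurf

/-- Euclidean 3-space. -/
abbrev R3 : Type := EuclideanSpace ℝ (Fin 3)

/-- Partial derivative of `f` in the `x`-direction at `z = x + i y`. -/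
def dx {E : Type*} [NormedAddCommGroup E] [NormedSpace ℝ E] (f : ℂ → E) (z : ℂ) : E :=
  fderiv ℝ f z 1

/-- Partial derivative of `f` in the `y`-direction at `z = x + i y`. -/
def dy {E : Type*} [NormedAddCommGroup E] [NormedSpace ℝ E] (f : ℂ → E) (z : ℂ) : E :=
  fderiv ℝ f z Complex.I

/-- Coefficient `E = ⟨φ_x, φ_x⟩` of the first fundamental form (the induced metric). -/
def EE (φ : ℂ → R3) (z : ℂ) : ℝ := inner ℝ (dx φ z) (dx φ z)

/-- Coefficient `F = ⟨φ_x, φ_y⟩` of the first fundamental form. -/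
def FF (φ : ℂ → R3) (z : ℂ) : ℝ := inner ℝ (dx φ z) (dy φ z)

/-- Coefficient `G = ⟨φ_y, φ_y⟩` of the first fundamental form. -/
def GG (φ : ℂ → R3) (z : ℂ) : ℝ := inner ℝ (dy φ z) (dy φ z)

/-- The area density `√(EG - F²)` of the induced metric. -/
def areaDensity (φ : ℂ → R3) (z : ℂ) : ℝ := Real.sqrt (EE φ z * GG φ z - FF φ z ^ 2)

/-- `φ` is a smooth immersion on `U`. -/
structure IsImmersionOn (φ : ℂ → R3) (U : Set ℂ) : Prop where
  smooth : ContDiffOn ℝ ∞ φ U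
  indep : ∀ z ∈ U, LinearIndependent ℝ ![dx φ z, dy φ z]

/-- `φ` has vanishing mean curvature on `U`: for each vector `N` normal to the surface at
`φ z`, with `e = ⟨N, φ_xx⟩`, `f = ⟨N, φ_xy⟩`, `g = ⟨N, φ_yy⟩`, one has `eG - 2fF + gE = 0`
(the mean curvature is `(eG - 2fF + gE) / (2(EG - F²))` for a unit normal `N`). -/
def IsMinimalOn (φ : ℂ → R3) (U : Set ℂ) : Prop :=
  ∀ z ∈ U, ∀ N : R3, inner ℝ N (dx φ z) = (0 : ℝ) → inner ℝ N (dy φ z) = (0 : ℝ) →
    inner ℝ N (dx (dx φ) z) * GG φ z - 2 * inner ℝ N (dx (dy φ) z) * FF φ z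
      + inner ℝ N (dy (dy φ) z) * EE φ z = 0

/-- The length `∫₀¹ |(φ ∘ γ)'(t)| dt` of a path `γ : [0,1] → ℂ` in the metric induced
by `φ`. -/
def inducedLength (φ : ℂ → R3) (γ : ℝ → ℂ) : ℝ≥0∞ :=
  ∫⁻ t in Icc (0 : ℝ) 1, ‖derivWithin (φ ∘ γ) (Icc (0 : ℝ) 1) t‖ₑ

/-- The Riemannian distance on `U` of the metric induced by `φ`: the infimum of the lengths
of `C¹` paths in `U` from `x` to `y`. -/
def inducedDist (φ : ℂ → R3) (U : Set ℂ) (x y : ℂ) : ℝ≥0∞ :=
  ⨅ (γ : ℝ → ℂ) (_ : ContDiffOn ℝ 1 γ (Icc (0 : ℝ) 1) ∧ (∀ t ∈ Icc (0 : ℝ) 1, γ t ∈ U) ∧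
    γ 0 = x ∧ γ 1 = y), inducedLength φ γ

/-- `U` with the metric induced by `φ` is complete: each Cauchy sequence of the Riemannian
distance converges to a point of `U`. -/
def IsCompleteOn (φ : ℂ → R3) (U : Set ℂ) : Prop :=
  ∀ x : ℕ → ℂ, (∀ n, x n ∈ U) →
    (∀ ε : ℝ≥0∞, 0 < ε → ∃ K, ∀ m ≥ K, ∀ n ≥ K, inducedDist φ U (x m) (x n) < ε) →
    ∃ y ∈ U, Tendsto (fun n => inducedDist φ U (x n) y) atTop (𝓝 0)

/-- The Laplace-Beltrami operator of the metric induced by `φ`,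
`Δ f = (1/W) (∂ₓ((G fₓ - F f_y)/W) + ∂_y((E f_y - F fₓ)/W))`, `W = √(EG - F²)`. -/
def laplaceBeltrami (φ : ℂ → R3) (f : ℂ → ℂ) (z : ℂ) : ℂ :=
  (areaDensity φ z : ℂ)⁻¹ *
    (dx (fun w => (areaDensity φ w : ℂ)⁻¹ * ((GG φ w : ℂ) * dx f w - (FF φ w : ℂ) * dy f w)) z +
     dy (fun w => (areaDensity φ w : ℂ)⁻¹ * ((EE φ w : ℂ) * dy f w - (FF φ w : ℂ) * dx f w)) z)

/-- The Riemannian area measure of the metric induced by `φ` on `U`. -/
def areaMeasure (φ : ℂ → R3) (U : Set ℂ) : Measure ℂ :=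
  (volume.restrict U).withDensity (fun z => ENNReal.ofReal (areaDensity φ z))

/-- The complex Hilbert space `L²` of the surface. -/
abbrev L2 (φ : ℂ → R3) (U : Set ℂ) : Type := Lp ℂ 2 (areaMeasure φ U)

/-- `f ∈ C_c^∞(U)`. -/
structure IsTestFunction (U : Set ℂ) (f : ℂ → ℂ) : Prop where
  smooth : ContDiff ℝ ∞ f
  compact : HasCompactSupport f
  supp : tsupport f ⊆ U

/-- `T` is the closure of `-Δ` on `C_c^∞(U)` in `L²`: its graph is the closure in `L² × L²` of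
the set of pairs `(f, -Δ f)` with `f ∈ C_c^∞(U)`. -/
def IsClosureOfNegLaplacian (φ : ℂ → R3) (U : Set ℂ) (T : L2 φ U →ₗ.[ℂ] L2 φ U) : Prop :=
  (T.graph : Set (L2 φ U × L2 φ U)) = closure {p : L2 φ U × L2 φ U | ∃ f : ℂ → ℂ,
    IsTestFunction U f ∧ p.1 =ᵐ[areaMeasure φ U] f ∧
    p.2 =ᵐ[areaMeasure φ U] fun z => -laplaceBeltrami φ f z}

section Spectrum

variable {H : Type*} [NormedAddCommGroup H] [InnerProductSpace ℂ H]

/-- The resolvent set of an (unbounded) operator `T`: those `μ` for which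
`T - μ : dom T → H` is bijective with bounded inverse `R`. -/
def resolventSet (T : H →ₗ.[ℂ] H) : Set ℂ :=
  {μ | ∃ R : H →L[ℂ] H, (∀ y : H, ∃ h : R y ∈ T.domain, T ⟨R y, h⟩ - μ • R y = y) ∧
    ∀ x : T.domain, R (T x - μ • (x : H)) = x}

/-- The spectrum of an (unbounded) operator. -/
def spec (T : H →ₗ.[ℂ] H) : Set ℂ := (resolventSet T)ᶜ

/-- The eigenspace `ker (T - μ)`. -/
def eigenSpace (T : H →ₗ.[ℂ] H) (μ : ℂ) : Submodule ℂ H :=
  (LinearMap.ker (T.toFun - μ • T.domain.subtype)).map T.domain.subtype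

/-- `μ` is an isolated point of the spectrum and an eigenvalue of finite multiplicity. -/
def IsIsolatedEigenvalueOfFiniteMult (T : H →ₗ.[ℂ] H) (μ : ℂ) : Prop :=
  (∃ ε > 0, ∀ ν ∈ spec T, dist ν μ < ε → ν = μ) ∧
    eigenSpace T μ ≠ ⊥ ∧ FiniteDimensional ℂ (eigenSpace T μ)

/-- The essential spectrum: the spectrum with the isolated eigenvalues of finite
multiplicity removed. -/
def essSpectrum (T : H →ₗ.[ℂ] H) : Set ℂ :=
  {μ | μ ∈ spec T ∧ ¬ IsIsolatedEigenvalueOfFiniteMult T μ}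

end Spectrum

/-- `φ` (on `U`) factorises, as a map of sets, through a topological covering map
`π : U → M'` with more than one sheet (this is implied by a factorisation
through a Riemannian covering map with more than one sheet). -/
def FactorsThroughCovering.{u} (φ : ℂ → R3) (U : Set ℂ) : Prop :=
  ∃ (M' : Type u) (_ : TopologicalSpace M') (π : U → M') (ψ : M' → R3),
    IsCoveringMap π ∧ (∀ y : M', (π ⁻¹' {y}).Nontrivial) ∧ ∀ z : U, φ z = ψ (π z)

end Pool.Agent.MinSurf
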