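import Pool.Agent.Lib_helper22.Vec

open Set Filter Complex
open scoped Topology ComplexConjugate Real ContDiff

noncomputable section

namespace Pool.Agent.MinSurf

/-- `vec` as a continuous real-linear map. -/
def vecL : ℂ × ℂ × ℂ →L[ℝ] R3 :=
  LinearMap.toContinuousLinearMap
    { toFun := fun p => vec p.1 p.2.1 p.2.2
      map_add' := by
        intro p q
        exact vec_add _ _ _ _ _ _
      map_smul' := by
        intro c p
        ext i
        fin_cases i <;> simp [vec] <;> ring }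

lemma vecL_apply (p : ℂ × ℂ × ℂ) : vecL p = vec p.1 p.2.1 p.2.2 := rfl

/-- Weierstrass data on the unit disc. -/
structure WData (u v A B C : ℂ → ℂ) : Prop where
  hu : DifferentiableOn ℂ u (Metric.ball 0 1)
  hv : DifferentiableOn ℂ v (Metric.ball 0 1)
  hA : ∀ z ∈ Metric.ball (0 : ℂ) 1, HasDerivAt A (u z * u z) z
  hB : ∀ z ∈ Metric.ball (0 : ℂ) 1, HasDerivAt B (v z * v z) z
  hC : ∀ z ∈ Metric.ball (0 : ℂ) 1, HasDerivAt C (u z * v z) z
  hm : ∀ z ∈ Metric.ball (0 : ℂ) 1, 0 < max ‖u z‖ ‖v z‖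

/-- The conformal factor. -/
def lam (u v : ℂ → ℂ) (z : ℂ) : ℝ := ‖u z‖ ^ 2 + ‖v z‖ ^ 2

/-- The immersion. -/
def phi (A B C : ℂ → ℂ) (z : ℂ) : R3 := vec (A z) (B z) (C z)

lemma hasFDerivAt_phi {A B C : ℂ → ℂ} {a b c z : ℂ} (hA : HasDerivAt A a z)
    (hB : HasDerivAt B b z) (hC : HasDerivAt C c z) :
    HasFDerivAt (𝕜 := ℝ) (phi A B C) (vecL.comp
      (((ContinuousLinearMap.toSpanSingleton ℂ a).restrictScalars ℝ).prod
        (((ContinuousLinearMap.toSpanSingleton ℂ b).restrictScalars ℝ).prod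
          ((ContinuousLinearMap.toSpanSingleton ℂ c).restrictScalars ℝ)))) z := by
  have h1 := (hA.hasFDerivAt.restrictScalars ℝ)
  have h2 := (hB.hasFDerivAt.restrictScalars ℝ)
  have h3 := (hC.hasFDerivAt.restrictScalars ℝ)
  exact vecL.hasFDerivAt.comp z (h1.prodMk (h2.prodMk h3))

lemma fderiv_phi {A B C : ℂ → ℂ} {a b c z : ℂ} (hA : HasDerivAt A a z)
    (hB : HasDerivAt B b z) (hC : HasDerivAt C c z) (h : ℂ) :
    fderiv ℝ (phi A B C) z h = vec (h * a) (h * b) (h * c) := by
  rw [(hasFDerivAt_phi hA hB hC).fderiv]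
  rfl

namespace WData

variable {u v A B C : ℂ → ℂ}

lemma lam_pos (W : WData u v A B C) {z : ℂ} (hz : z ∈ Metric.ball (0 : ℂ) 1) : 0 < lam u v z := by
  have := W.hm z hz
  unfold lam
  rcases lt_max_iff.mp this with h | h
  · positivity
  · positivity

lemma sq_max_le_lam (u v : ℂ → ℂ) (z : ℂ) : (max ‖u z‖ ‖v z‖) ^ 2 ≤ lam u v z := by
  unfold lam
  rcases max_choice ‖u z‖ ‖v z‖ with h | h <;> rw [h] <;> nlinarith [sq_nonneg ‖u z‖, sq_nonneg ‖v z‖]

lemma fderiv_eq (W : WData u v A B C) {z : ℂ} (hz : z ∈ Metric.ball (0 : ℂ) 1) (h : ℂ) :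
    fderiv ℝ (phi A B C) z h = vec (h * (u z * u z)) (h * (v z * v z)) (h * (u z * v z)) :=
  fderiv_phi (W.hA z hz) (W.hB z hz) (W.hC z hz) h

lemma norm_fderiv (W : WData u v A B C) {z : ℂ} (hz : z ∈ Metric.ball (0 : ℂ) 1) (h : ℂ) :
    ‖fderiv ℝ (phi A B C) z h‖ = lam u v z * ‖h‖ := by
  rw [W.fderiv_eq hz, norm_vec_null, lam, mul_comm]

lemma EE_eq (W : WData u v A B C) {z : ℂ} (hz : z ∈ Metric.ball (0 : ℂ) 1) :
    EE (phi A B C) z = lam u v z ^ 2 := by
  unfold EE dx
  rw [real_inner_self_eq_norm_sq, W.norm_fderiv hz, norm_one, mul_one]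

lemma GG_eq (W : WData u v A B C) {z : ℂ} (hz : z ∈ Metric.ball (0 : ℂ) 1) :
    GG (phi A B C) z = lam u v z ^ 2 := by
  unfold GG dy
  rw [real_inner_self_eq_norm_sq, W.norm_fderiv hz, Complex.norm_I, mul_one]

lemma FF_eq (W : WData u v A B C) {z : ℂ} (hz : z ∈ Metric.ball (0 : ℂ) 1) :
    FF (phi A B C) z = 0 := by
  unfold FF dx dy
  rw [W.fderiv_eq hz, W.fderiv_eq hz, inner_vec_vec]
  simp only [one_mul, Complex.sub_re, Complex.add_im, Complex.mul_re, Complex.mul_im,
    Complex.I_re, Complex.I_im]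
  ring

lemma areaDensity_eq (W : WData u v A B C) {z : ℂ} (hz : z ∈ Metric.ball (0 : ℂ) 1) :
    areaDensity (phi A B C) z = lam u v z ^ 2 := by
  unfold areaDensity
  rw [W.EE_eq hz, W.GG_eq hz, W.FF_eq hz]
  have : lam u v z ^ 2 * lam u v z ^ 2 - 0 ^ 2 = (lam u v z ^ 2) ^ 2 := by ring
  rw [this, Real.sqrt_sq (by positivity)]

lemma diffA (W : WData u v A B C) : DifferentiableOn ℂ A (Metric.ball 0 1) :=
  fun z hz => (W.hA z hz).differentiableAt.differentiableWithinAt
lemma diffB (W : WData u v A B C) : DifferentiableOn ℂ B (Metric.ball 0 1) :=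
  fun z hz => (W.hB z hz).differentiableAt.differentiableWithinAt
lemma diffC (W : WData u v A B C) : DifferentiableOn ℂ C (Metric.ball 0 1) :=
  fun z hz => (W.hC z hz).differentiableAt.differentiableWithinAt

lemma smooth (W : WData u v A B C) : ContDiffOn ℝ ∞ (phi A B C) (Metric.ball 0 1) := by
  have hA : ContDiffOn ℝ ∞ A (Metric.ball 0 1) :=
    (W.diffA.contDiffOn Metric.isOpen_ball).restrict_scalars ℝ
  have hB : ContDiffOn ℝ ∞ B (Metric.ball 0 1) :=
    (W.diffB.contDiffOn Metric.isOpen_ball).restrict_scalars ℝ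
  have hC : ContDiffOn ℝ ∞ C (Metric.ball 0 1) :=
    (W.diffC.contDiffOn Metric.isOpen_ball).restrict_scalars ℝ
  exact vecL.contDiff.comp_contDiffOn (hA.prodMk (hB.prodMk hC))

lemma isImmersionOn (W : WData u v A B C) : IsImmersionOn (phi A B C) (Metric.ball 0 1) := by
  refine ⟨W.smooth, ?_⟩
  intro z hz
  rw [LinearIndependent.pair_iff]
  intro s t hst
  have hE := W.EE_eq hz
  have hG := W.GG_eq hz
  have hF := W.FF_eq hz
  have hpos : 0 < lam u v z ^ 2 := by have := W.lam_pos hz; positivity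
  unfold EE at hE
  unfold FF at hF
  unfold GG at hG
  have h1 : inner ℝ (dx (phi A B C) z) (s • dx (phi A B C) z + t • dy (phi A B C) z) = (0 : ℝ) := by
    rw [hst, inner_zero_right]
  have h2 : inner ℝ (dy (phi A B C) z) (s • dx (phi A B C) z + t • dy (phi A B C) z) = (0 : ℝ) := by
    rw [hst, inner_zero_right]
  rw [inner_add_right, inner_smul_right, inner_smul_right, hE, hF] at h1
  rw [inner_add_right, inner_smul_right, inner_smul_right, hG, real_inner_comm, hF] at h2
  constructor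
  · have : s * lam u v z ^ 2 = 0 := by linarith
    rcases mul_eq_zero.mp this with h | h
    · exact h
    · exact absurd h hpos.ne'
  · have : t * lam u v z ^ 2 = 0 := by linarith
    rcases mul_eq_zero.mp this with h | h
    · exact h
    · exact absurd h hpos.ne'

lemma isMinimalOn (W : WData u v A B C) : IsMinimalOn (phi A B C) (Metric.ball 0 1) := by
  intro z hz N _ _
  rw [W.EE_eq hz, W.GG_eq hz, W.FF_eq hz]
  have hnhds : Metric.ball (0 : ℂ) 1 ∈ 𝓝 z := Metric.isOpen_ball.mem_nhds hz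
  have du : HasDerivAt u (deriv u z) z := (W.hu.differentiableAt hnhds).hasDerivAt
  have dv : HasDerivAt v (deriv v z) z := (W.hv.differentiableAt hnhds).hasDerivAt
  have h1 : dx (phi A B C) =ᶠ[𝓝 z] phi (fun z => u z * u z) (fun z => v z * v z) (fun z => u z * v z) := by
    filter_upwards [hnhds] with y hy
    unfold dx phi
    have := W.fderiv_eq hy 1
    simp only [one_mul] at this
    exact this
  have h2 : dy (phi A B C) =ᶠ[𝓝 z] phi (fun z => I * (u z * u z)) (fun z => I * (v z * v z))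
      (fun z => I * (u z * v z)) := by
    filter_upwards [hnhds] with y hy
    exact W.fderiv_eq hy I
  have h3 : dx (dx (phi A B C)) z = vec (1 * (deriv u z * u z + u z * deriv u z))
      (1 * (deriv v z * v z + v z * deriv v z)) (1 * (deriv u z * v z + u z * deriv v z)) := by
    have : dx (dx (phi A B C)) z = fderiv ℝ (dx (phi A B C)) z 1 := rfl
    rw [this, h1.fderiv_eq]
    exact fderiv_phi (du.mul du) (dv.mul dv) (du.mul dv) 1
  have h4 : dy (dy (phi A B C)) z = vec (I * (I * (deriv u z * u z + u z * deriv u z)))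
      (I * (I * (deriv v z * v z + v z * deriv v z))) (I * (I * (deriv u z * v z + u z * deriv v z))) := by
    have : dy (dy (phi A B C)) z = fderiv ℝ (dy (phi A B C)) z I := rfl
    rw [this, h2.fderiv_eq]
    exact fderiv_phi ((du.mul du).const_mul I) ((dv.mul dv).const_mul I) ((du.mul dv).const_mul I) I
  have h5 : dx (dx (phi A B C)) z + dy (dy (phi A B C)) z = 0 := by
    rw [h3, h4, ← vec_add]
    have e : ∀ x : ℂ, 1 * x + I * (I * x) = 0 := by
      intro x
      rw [← mul_assoc, I_mul_I]; ring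
    rw [e, e, e]
    ext i
    fin_cases i <;> simp [vec]
  have h6 : inner ℝ N (dx (dx (phi A B C)) z) + inner ℝ N (dy (dy (phi A B C)) z) = (0 : ℝ) := by
    rw [← inner_add_right, h5, inner_zero_right]
  linear_combination (lam u v z ^ 2) * h6

end WData

end Pool.Agent.MinSurf
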