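import Pool.Agent.Lib_helper22.Defs

open Set Filter Complex MeasureTheory
open scoped Topology ComplexConjugate Real ContDiff ENNReal

noncomputable section

namespace Pool.Agent.MinSurf

/-- Smooth compactly supported. -/
structure Cc (f : ℂ → ℂ) : Prop where
  smooth : ContDiff ℝ ∞ f
  compact : HasCompactSupport f

namespace Cc

variable {f g : ℂ → ℂ}

lemma fderiv_apply (hf : Cc f) (v : ℂ) : Cc (fun z => fderiv ℝ f z v) := by
  refine ⟨?_, hf.compact.fderiv_apply ℝ v⟩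
  exact (hf.smooth.fderiv_right (m := ∞) (by simp)).clm_apply contDiff_const

lemma dx (hf : Cc f) : Cc (dx f) := hf.fderiv_apply 1
lemma dy (hf : Cc f) : Cc (dy f) := hf.fderiv_apply I

lemma mul (hf : Cc f) (hg : Cc g) : Cc (fun z => f z * g z) :=
  ⟨hf.smooth.mul hg.smooth, hf.compact.mul_right⟩

lemma add (hf : Cc f) (hg : Cc g) : Cc (fun z => f z + g z) :=
  ⟨hf.smooth.add hg.smooth, hf.compact.add hg.compact⟩

lemma cj (hf : Cc f) : Cc (fun z => (starRingEnd ℂ) (f z)) :=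
  ⟨Complex.conjCLE.contDiff.comp hf.smooth, hf.compact.comp_left (map_zero _)⟩

lemma integrable (hf : Cc f) : Integrable f volume :=
  hf.smooth.continuous.integrable_of_hasCompactSupport hf.compact

lemma differentiable (hf : Cc f) : Differentiable ℝ f := hf.smooth.differentiable (by simp)

/-- Integration by parts. -/
lemma ibp (hf : Cc f) (hg : Cc g) (v : ℂ) :
    ∫ z, f z * fderiv ℝ g z v = - ∫ z, fderiv ℝ f z v * g z :=
  integral_mul_fderiv_eq_neg_fderiv_mul_of_integrable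
    ((hf.fderiv_apply v).mul hg).integrable (hf.mul (hg.fderiv_apply v)).integrable
    (hf.mul hg).integrable (fun x _ => hf.differentiable x) (fun x _ => hg.differentiable x)

end Cc

/-- The flat Laplacian. -/
def lap0 (f : ℂ → ℂ) (z : ℂ) : ℂ := dx (dx f) z + dy (dy f) z

namespace Cc

variable {f g : ℂ → ℂ}

lemma lap0 (hf : Cc f) : Cc (lap0 f) := hf.dx.dx.add hf.dy.dy

lemma green (hf : Cc f) (hg : Cc g) :
    ∫ z, f z * MinSurf.lap0 g z = - ∫ z, (MinSurf.dx f z * MinSurf.dx g z + MinSurf.dy f z * MinSurf.dy g z) := by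
  have h1 := hf.ibp hg.dx 1
  have h2 := hf.ibp hg.dy I
  have e : ∀ z, f z * MinSurf.lap0 g z = f z * fderiv ℝ (MinSurf.dx g) z 1 + f z * fderiv ℝ (MinSurf.dy g) z I := by
    intro z; unfold MinSurf.lap0 MinSurf.dx MinSurf.dy; ring
  simp_rw [e]
  rw [integral_add (hf.mul (hg.dx.fderiv_apply 1)).integrable (hf.mul (hg.dy.fderiv_apply I)).integrable,
    h1, h2, integral_add (hf.dx.mul hg.dx).integrable (hf.dy.mul hg.dy).integrable]
  unfold MinSurf.dx MinSurf.dy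
  ring

lemma green_symm (hf : Cc f) (hg : Cc g) :
    ∫ z, f z * MinSurf.lap0 g z = ∫ z, MinSurf.lap0 f z * g z := by
  have h1 := hf.green hg
  have h2 := hg.green hf
  have e : ∀ z, MinSurf.lap0 f z * g z = g z * MinSurf.lap0 f z := fun z => mul_comm _ _
  simp_rw [e]
  rw [h1, h2]
  congr 1
  apply integral_congr_ae
  filter_upwards with z
  ring

lemma dx_conj (hf : Cc f) (z : ℂ) : MinSurf.dx (fun z => (starRingEnd ℂ) (f z)) z = (starRingEnd ℂ) (MinSurf.dx f z) := by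
  have h := (Complex.conjCLE.toContinuousLinearMap.hasFDerivAt (x := f z)).comp z (hf.differentiable z).hasFDerivAt
  have h2 : HasFDerivAt (fun z => (starRingEnd ℂ) (f z)) (Complex.conjCLE.toContinuousLinearMap.comp (fderiv ℝ f z)) z := h
  unfold MinSurf.dx
  rw [h2.fderiv]; rfl

lemma dy_conj (hf : Cc f) (z : ℂ) : MinSurf.dy (fun z => (starRingEnd ℂ) (f z)) z = (starRingEnd ℂ) (MinSurf.dy f z) := by
  have h := (Complex.conjCLE.toContinuousLinearMap.hasFDerivAt (x := f z)).comp z (hf.differentiable z).hasFDerivAt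
  have h2 : HasFDerivAt (fun z => (starRingEnd ℂ) (f z)) (Complex.conjCLE.toContinuousLinearMap.comp (fderiv ℝ f z)) z := h
  unfold MinSurf.dy
  rw [h2.fderiv]; rfl

lemma lap0_conj (hf : Cc f) (z : ℂ) :
    MinSurf.lap0 (fun z => (starRingEnd ℂ) (f z)) z = (starRingEnd ℂ) (MinSurf.lap0 f z) := by
  unfold MinSurf.lap0
  have h1 : MinSurf.dx (fun z => (starRingEnd ℂ) (f z)) = fun z => (starRingEnd ℂ) (MinSurf.dx f z) :=
    funext fun z => hf.dx_conj z
  have h2 : MinSurf.dy (fun z => (starRingEnd ℂ) (f z)) = fun z => (starRingEnd ℂ) (MinSurf.dy f z) :=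
    funext fun z => hf.dy_conj z
  rw [h1, h2, hf.dx.dx_conj, hf.dy.dy_conj, map_add]

/-- Symmetry of the Laplacian. -/
lemma lap_symm (hf : Cc f) (hg : Cc g) :
    ∫ z, (starRingEnd ℂ) (MinSurf.lap0 f z) * g z = ∫ z, (starRingEnd ℂ) (f z) * MinSurf.lap0 g z := by
  rw [hf.cj.green_symm hg]
  apply integral_congr_ae
  filter_upwards with z
  rw [hf.lap0_conj]

/-- Negativity of the Laplacian. -/
lemma lap_neg (hf : Cc f) :
    (∫ z, (starRingEnd ℂ) (MinSurf.lap0 f z) * f z).re ≤ 0 := by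
  rw [hf.lap_symm hf, hf.cj.green hf]
  have e : ∀ z, MinSurf.dx (fun z => (starRingEnd ℂ) (f z)) z * MinSurf.dx f z
      + MinSurf.dy (fun z => (starRingEnd ℂ) (f z)) z * MinSurf.dy f z
      = ((‖MinSurf.dx f z‖ ^ 2 + ‖MinSurf.dy f z‖ ^ 2 : ℝ) : ℂ) := by
    intro z
    rw [hf.dx_conj, hf.dy_conj, mul_comm, Complex.mul_conj, mul_comm _ (MinSurf.dy f z), Complex.mul_conj,
      Complex.normSq_eq_norm_sq, Complex.normSq_eq_norm_sq]
    push_cast; rfl
  simp_rw [e]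
  rw [integral_complex_ofReal, Complex.neg_re, Complex.ofReal_re]
  have : 0 ≤ ∫ z, (‖MinSurf.dx f z‖ ^ 2 + ‖MinSurf.dy f z‖ ^ 2) := integral_nonneg fun z => by positivity
  linarith

end Cc

/-- Rescaled function. -/
def rescale (w : ℂ) (r : ℝ) (β : ℂ → ℂ) (z : ℂ) : ℂ := β (r⁻¹ • (z - w))

lemma fderiv_rescale {w : ℂ} {r : ℝ} {β : ℂ → ℂ} (hβ : Differentiable ℝ β) (z h : ℂ) :
    fderiv ℝ (rescale w r β) z h = ((r⁻¹ : ℝ) : ℂ) * fderiv ℝ β (r⁻¹ • (z - w)) h := by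
  have h1 : HasFDerivAt (fun z : ℂ => r⁻¹ • (z - w)) (r⁻¹ • ContinuousLinearMap.id ℝ ℂ) z :=
    ((hasFDerivAt_id z).sub_const w).const_smul r⁻¹
  have h2 := (hβ (r⁻¹ • (z - w))).hasFDerivAt.comp z h1
  have h3 : fderiv ℝ (rescale w r β) z = _ := h2.fderiv
  rw [h3]
  simp

lemma dx_rescale {w : ℂ} {r : ℝ} {β : ℂ → ℂ} (hβ : Differentiable ℝ β) :
    dx (rescale w r β) = fun z => ((r⁻¹ : ℝ) : ℂ) * rescale w r (dx β) z :=
  funext fun z => fderiv_rescale hβ z 1

lemma dy_rescale {w : ℂ} {r : ℝ} {β : ℂ → ℂ} (hβ : Differentiable ℝ β) :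
    dy (rescale w r β) = fun z => ((r⁻¹ : ℝ) : ℂ) * rescale w r (dy β) z :=
  funext fun z => fderiv_rescale hβ z I

lemma rescale_contDiff {w : ℂ} {r : ℝ} {β : ℂ → ℂ} {n : WithTop ℕ∞} (hβ : ContDiff ℝ n β) :
    ContDiff ℝ n (rescale w r β) :=
  hβ.comp ((contDiff_id.sub contDiff_const).const_smul r⁻¹)

lemma lap0_rescale {w : ℂ} {r : ℝ} {β : ℂ → ℂ} (hβ : Cc β) (z : ℂ) :
    lap0 (rescale w r β) z = ((r⁻¹ : ℝ) : ℂ) ^ 2 * rescale w r (lap0 β) z := by
  unfold lap0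
  rw [dx_rescale hβ.differentiable, dy_rescale hβ.differentiable]
  have h1 : dx (fun z => ((r⁻¹ : ℝ) : ℂ) * rescale w r (dx β) z) z
      = ((r⁻¹ : ℝ) : ℂ) * dx (rescale w r (dx β)) z := by
    unfold dx
    have hd : DifferentiableAt ℝ (rescale w r (fun z => fderiv ℝ β z 1)) z :=
      ((rescale_contDiff hβ.dx.smooth).differentiable (by simp)) z
    rw [fderiv_const_mul hd]; rfl
  have h2 : dy (fun z => ((r⁻¹ : ℝ) : ℂ) * rescale w r (dy β) z) z
      = ((r⁻¹ : ℝ) : ℂ) * dy (rescale w r (dy β)) z := by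
    unfold dy
    have hd : DifferentiableAt ℝ (rescale w r (fun z => fderiv ℝ β z I)) z :=
      ((rescale_contDiff hβ.dy.smooth).differentiable (by simp)) z
    rw [fderiv_const_mul hd]; rfl
  rw [h1, h2, dx_rescale hβ.dx.differentiable, dy_rescale hβ.dy.differentiable]
  unfold rescale
  ring

lemma integral_rescale {w : ℂ} {r : ℝ} (hr : 0 < r) (g : ℂ → ℂ) :
    ∫ z, rescale w r g z = ((r ^ 2 : ℝ) : ℂ) * ∫ z, g z := by
  unfold rescale
  have h1 : ∫ z, g (r⁻¹ • (z - w)) = ∫ z, g (r⁻¹ • z) :=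
    integral_sub_right_eq_self (fun z => g (r⁻¹ • z)) w
  rw [h1, Measure.integral_comp_smul, Complex.finrank_real_complex]
  rw [inv_pow, inv_inv, abs_of_nonneg (by positivity)]
  simp

/-- Conformal invariance of the energy of a rescaled bump. -/
lemma energy_rescale {w : ℂ} {r : ℝ} (hr : 0 < r) {β : ℂ → ℂ} (hβ : Cc β) :
    ∫ z, (starRingEnd ℂ) (lap0 (rescale w r β) z) * rescale w r β z
      = ∫ z, (starRingEnd ℂ) (lap0 β z) * β z := by
  have h1 : ∀ z, (starRingEnd ℂ) (lap0 (rescale w r β) z) * rescale w r β z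
      = ((r⁻¹ : ℝ) : ℂ) ^ 2 * rescale w r (fun z => (starRingEnd ℂ) (lap0 β z) * β z) z := by
    intro z
    rw [lap0_rescale hβ, map_mul, map_pow, Complex.conj_ofReal]
    unfold rescale; ring
  simp_rw [h1]
  rw [integral_const_mul, integral_rescale hr, ← mul_assoc]
  have hr' : (r : ℂ) ≠ 0 := by exact_mod_cast hr.ne'
  have : ((r⁻¹ : ℝ) : ℂ) ^ 2 * ((r ^ 2 : ℝ) : ℂ) = 1 := by
    push_cast; field_simp
  rw [this, one_mul]

lemma exists_bump : ∃ β : ℂ → ℂ, Cc β ∧ (∀ z, ‖β z‖ ≤ 1) ∧ (∀ z, ‖z‖ ≤ 1 / 2 → β z = 1) ∧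
    tsupport β ⊆ Metric.closedBall 0 1 := by
  let b : ContDiffBump (0 : ℂ) := ⟨1 / 2, 1, by norm_num, by norm_num⟩
  have h1 : ContDiff ℝ ∞ (fun z => b z) := b.contDiff
  have hsupp : Function.support (fun z => ((b z : ℝ) : ℂ)) ⊆ Metric.closedBall 0 1 := by
    intro z hz
    by_contra hcon
    apply hz
    have : b z = 0 := b.zero_of_le_dist (by
      have : 1 < ‖z‖ := by simpa using hcon
      simpa using this.le)
    simp [this]
  have hts : tsupport (fun z => ((b z : ℝ) : ℂ)) ⊆ Metric.closedBall 0 1 :=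
    closure_minimal hsupp Metric.isClosed_closedBall
  refine ⟨fun z => ((b z : ℝ) : ℂ), ⟨Complex.ofRealCLM.contDiff.comp h1, ?_⟩, ?_, ?_, hts⟩
  · exact (isCompact_closedBall (0 : ℂ) 1).of_isClosed_subset (isClosed_tsupport _) hts
  · intro z
    rw [Complex.norm_real, Real.norm_of_nonneg b.nonneg]
    exact b.le_one
  · intro z hz
    have : b z = 1 := b.one_of_mem_closedBall (by rw [mem_closedBall_zero_iff]; exact hz)
    simp [this]

lemma tsupport_rescale {w : ℂ} {r : ℝ} (hr : 0 < r) {β : ℂ → ℂ}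
    (hβ : tsupport β ⊆ Metric.closedBall 0 1) :
    tsupport (rescale w r β) ⊆ Metric.closedBall w r := by
  apply closure_minimal _ Metric.isClosed_closedBall
  intro z hz
  have h1 : β (r⁻¹ • (z - w)) ≠ 0 := hz
  have h2 : r⁻¹ • (z - w) ∈ Metric.closedBall (0 : ℂ) 1 := hβ (subset_tsupport _ h1)
  rw [mem_closedBall_zero_iff, norm_smul, norm_inv, Real.norm_of_nonneg hr.le,
    inv_mul_le_iff₀ hr, mul_one] at h2
  rwa [Metric.mem_closedBall, dist_eq_norm]

lemma Cc.rescale {w : ℂ} {r : ℝ} (hr : 0 < r) {β : ℂ → ℂ} (hβ : Cc β)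
    (hβ' : tsupport β ⊆ Metric.closedBall 0 1) : Cc (rescale w r β) :=
  ⟨rescale_contDiff hβ.smooth, (isCompact_closedBall w r).of_isClosed_subset
    (isClosed_tsupport _) (tsupport_rescale hr hβ')⟩

end Pool.Agent.MinSurf
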