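import Pool.Agent.Lib_helper22.Seq

open Set Filter Complex
open scoped Topology ComplexConjugate Real

noncomputable section

namespace Pool.Agent.MinSurf

lemma lim_exists {f : ℕ → ℂ → ℂ} {ρ τ : ℕ → ℝ}
    (hf : ∀ n m z, ‖z‖ ≤ ρ n → ‖f (n + m) z - f n z‖ ≤ 2 * τ n)
    (hτ : Tendsto τ atTop (𝓝 0)) (hρ : Monotone ρ) (hρ1 : ∀ t < 1, ∃ n, t < ρ n) :
    ∃ g : ℂ → ℂ, (∀ z ∈ Metric.ball (0 : ℂ) 1, Tendsto (fun n => f n z) atTop (𝓝 (g z))) ∧
      (∀ n, ∀ z ∈ Metric.ball (0 : ℂ) 1, ‖z‖ ≤ ρ n → ‖g z - f n z‖ ≤ 2 * τ n) ∧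
      TendstoLocallyUniformlyOn f g atTop (Metric.ball 0 1) := by
  have h1 : ∀ z ∈ Metric.ball (0 : ℂ) 1, ∃ w, Tendsto (fun n => f n z) atTop (𝓝 w) := by
    intro z hz
    have hz' : ‖z‖ < 1 := by simpa using hz
    obtain ⟨n0, hn0⟩ := hρ1 _ hz'
    apply cauchySeq_tendsto_of_complete
    rw [Metric.cauchySeq_iff']
    intro ε hε
    have h2 : ∀ᶠ n in atTop, 2 * τ n < ε := by
      have := (hτ.const_mul 2)
      rw [mul_zero] at this
      exact this.eventually (gt_mem_nhds hε)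
    obtain ⟨N, hN1, hN2⟩ := (h2.and (eventually_ge_atTop n0)).exists
    refine ⟨N, ?_⟩
    intro n hn
    obtain ⟨m, rfl⟩ := Nat.exists_eq_add_of_le hn
    rw [dist_eq_norm]
    exact lt_of_le_of_lt (hf N m z (hn0.le.trans (hρ hN2))) hN1
  classical
  set g : ℂ → ℂ := fun z => if hz : z ∈ Metric.ball (0 : ℂ) 1 then (h1 z hz).choose else 0 with hg
  have h2 : ∀ z ∈ Metric.ball (0 : ℂ) 1, Tendsto (fun n => f n z) atTop (𝓝 (g z)) := by
    intro z hz
    simp only [hg, dif_pos hz]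
    exact (h1 z hz).choose_spec
  have h3 : ∀ n, ∀ z ∈ Metric.ball (0 : ℂ) 1, ‖z‖ ≤ ρ n → ‖g z - f n z‖ ≤ 2 * τ n := by
    intro n z hz hzn
    have h4 : Tendsto (fun m => ‖f (n + m) z - f n z‖) atTop (𝓝 ‖g z - f n z‖) := by
      apply Tendsto.norm
      apply Tendsto.sub_const
      have := (h2 z hz).comp (tendsto_add_atTop_nat n)
      refine this.congr ?_
      intro m
      simp [add_comm]
    exact le_of_tendsto' h4 (fun m => hf n m z hzn)
  refine ⟨g, h2, h3, ?_⟩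
  rw [Metric.tendstoLocallyUniformlyOn_iff]
  intro ε hε x hx
  have hx' : ‖x‖ < 1 := by simpa using hx
  obtain ⟨n0, hn0⟩ := hρ1 _ hx'
  refine ⟨Metric.ball 0 1 ∩ {y | ‖y‖ < ρ n0}, ?_, ?_⟩
  · apply inter_mem_nhdsWithin
    have : IsOpen {y : ℂ | ‖y‖ < ρ n0} := isOpen_lt continuous_norm continuous_const
    exact this.mem_nhds hn0
  · have h4 : ∀ᶠ n in atTop, 2 * τ n < ε := by
      have := (hτ.const_mul 2)
      rw [mul_zero] at this
      exact this.eventually (gt_mem_nhds hε)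
    filter_upwards [h4, eventually_ge_atTop n0] with n hn1 hn2 y hy
    rw [dist_eq_norm]
    refine lt_of_le_of_lt (h3 n y hy.1 ?_) hn1
    exact (le_of_lt hy.2).trans (hρ hn2)

/-- The initial state: a flat disc of radius `10`. -/
def initSt : St where
  D := { u := fun _ => (Real.sqrt 10 : ℂ)
         v := fun _ => 0
         A := fun z => 10 * z
         B := fun _ => 0
         C := fun _ => 0
         hu := by fun_prop
         hv := by fun_prop
         hA := by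
          intro z
          have h := (hasDerivAt_id z).const_mul (10 : ℂ)
          refine h.congr_deriv ?_
          have : (Real.sqrt 10 : ℝ) * Real.sqrt 10 = 10 := Real.mul_self_sqrt (by norm_num)
          have h2 : ((Real.sqrt 10 : ℝ) : ℂ) * ((Real.sqrt 10 : ℝ) : ℂ) = 10 := by exact_mod_cast this
          rw [h2]; simp
         hB := by intro z; simpa using hasDerivAt_const z (0 : ℂ)
         hC := by intro z; simpa using hasDerivAt_const z (0 : ℂ) }
  ρ := 1 / 2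
  τ := 1 / 100
  hρ0 := le_rfl
  hρ1 := by norm_num
  hτ := by norm_num

lemma norm_vec_single (a : ℂ) : ‖vec a 0 0‖ = ‖a‖ := by
  have h := norm_vec_null a 1 0
  simpa using h

lemma initSt_norm (z : ℂ) : ‖initSt.D.X z‖ = 10 * ‖z‖ := by
  have : initSt.D.X z = vec (10 * z) 0 0 := rfl
  rw [this, norm_vec_single, norm_mul]
  norm_num

/-- The sequence of data. -/
lemma exists_seq : ∃ (b : ℕ → ℂ → ℝ) (s : ℕ → St), s 0 = initSt ∧
    (∀ n, StepRel n (b n) (s n) (s (n + 1))) ∧ (∀ n z, 0 ≤ b n z) ∧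
    ∀ m : ℕ, ∀ z : ℂ, ‖z‖ ≤ 1 → ∑ n ∈ Finset.range m, b n z ≤ 2 := by
  obtain ⟨ζ, k, hζ, hsum⟩ := exists_peaks
  choose f hf using fun (n : ℕ) (s : St) => exists_step n (hζ n) (k n) s
  exact ⟨_, fun n => Nat.rec initSt f n, rfl, fun n => hf n _, fun n z => by positivity, hsum⟩

end Pool.Agent.MinSurf
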