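import Pool.Agent.Lib_helper22.Operator

open Set Filter Complex MeasureTheory
open scoped Topology ComplexConjugate Real ContDiff ENNReal

noncomputable section

namespace Pool.Agent.MinSurf

namespace WData

variable {u v A B C : ℂ → ℂ}

/-- Symmetry passes to the closed span of the graph. -/
lemma closure_symm₁ (W : WData u v A B C)
    {p q : L2 (phi A B C) (Metric.ball 0 1) × L2 (phi A B C) (Metric.ball 0 1)}
    (hp : p ∈ (Submodule.span ℂ (graphSet (phi A B C) (Metric.ball 0 1))).topologicalClosure)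
    (hq : q ∈ graphSet (phi A B C) (Metric.ball 0 1)) :
    (inner ℂ p.2 q.1 : ℂ) = inner ℂ p.1 q.2 := by
  have hspan : ∀ p ∈ Submodule.span ℂ (graphSet (phi A B C) (Metric.ball 0 1)),
      (inner ℂ p.2 q.1 : ℂ) = inner ℂ p.1 q.2 := by
    intro p hp
    induction hp using Submodule.span_induction with
    | mem p hp => exact W.graph_symm hp hq
    | zero => simp
    | add x y _ _ hx hy =>
      rw [Prod.snd_add, Prod.fst_add, inner_add_left, inner_add_left, hx, hy]
    | smul c x _ hx => rw [Prod.smul_snd, Prod.smul_fst, inner_smul_left, inner_smul_left, hx]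
  have hclosed : IsClosed {p : L2 (phi A B C) (Metric.ball 0 1) × L2 (phi A B C) (Metric.ball 0 1) |
      (inner ℂ p.2 q.1 : ℂ) = inner ℂ p.1 q.2} :=
    isClosed_eq (continuous_snd.inner continuous_const) (continuous_fst.inner continuous_const)
  rw [← SetLike.mem_coe, Submodule.topologicalClosure_coe] at hp
  exact closure_minimal (fun p hp => hspan p hp) hclosed hp

lemma closure_symm (W : WData u v A B C)
    {p q : L2 (phi A B C) (Metric.ball 0 1) × L2 (phi A B C) (Metric.ball 0 1)}
    (hp : p ∈ (Submodule.span ℂ (graphSet (phi A B C) (Metric.ball 0 1))).topologicalClosure)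
    (hq : q ∈ (Submodule.span ℂ (graphSet (phi A B C) (Metric.ball 0 1))).topologicalClosure) :
    (inner ℂ p.2 q.1 : ℂ) = inner ℂ p.1 q.2 := by
  have hspan : ∀ q ∈ Submodule.span ℂ (graphSet (phi A B C) (Metric.ball 0 1)),
      (inner ℂ p.2 q.1 : ℂ) = inner ℂ p.1 q.2 := by
    intro q hq
    induction hq using Submodule.span_induction with
    | mem q hq => exact W.closure_symm₁ hp hq
    | zero => simp
    | add x y _ _ hx hy =>
      rw [Prod.snd_add, Prod.fst_add, inner_add_right, inner_add_right, hx, hy]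
    | smul c x _ hx => rw [Prod.smul_snd, Prod.smul_fst, inner_smul_right, inner_smul_right, hx]
  have hclosed : IsClosed {q : L2 (phi A B C) (Metric.ball 0 1) × L2 (phi A B C) (Metric.ball 0 1) |
      (inner ℂ p.2 q.1 : ℂ) = inner ℂ p.1 q.2} :=
    isClosed_eq (continuous_const.inner continuous_fst) (continuous_const.inner continuous_snd)
  rw [← SetLike.mem_coe, Submodule.topologicalClosure_coe] at hq
  exact closure_minimal (fun q hq => hspan q hq) hclosed hq

/-- The closed span of the graph is a graph. -/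
lemma closure_graph (W : WData u v A B C)
    {p : L2 (phi A B C) (Metric.ball 0 1) × L2 (phi A B C) (Metric.ball 0 1)}
    (hp : p ∈ (Submodule.span ℂ (graphSet (phi A B C) (Metric.ball 0 1))).topologicalClosure)
    (h0 : p.1 = 0) : p.2 = 0 := by
  apply W.graph_dense
  intro q hq
  rw [W.closure_symm₁ hp hq, h0, inner_zero_left]

/-- The graph set is already a subspace. -/
lemma span_graph (W : WData u v A B C)
    {p : L2 (phi A B C) (Metric.ball 0 1) × L2 (phi A B C) (Metric.ball 0 1)}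
    (hp : p ∈ Submodule.span ℂ (graphSet (phi A B C) (Metric.ball 0 1))) :
    p ∈ graphSet (phi A B C) (Metric.ball 0 1) := by
  have hl0 : ∀ {f g : ℂ → ℂ}, Cc f → Cc g → ∀ z, lap0 (fun z => f z + g z) z = lap0 f z + lap0 g z := by
    intro f g hf hg z
    unfold lap0
    have h1 : dx (fun z => f z + g z) = fun z => dx f z + dx g z := by
      funext z; unfold dx; rw [fderiv_fun_add (hf.differentiable z) (hg.differentiable z)]; rfl
    have h2 : dy (fun z => f z + g z) = fun z => dy f z + dy g z := by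
      funext z; unfold dy; rw [fderiv_fun_add (hf.differentiable z) (hg.differentiable z)]; rfl
    rw [h1, h2]
    have h3 : dx (fun z => dx f z + dx g z) z = dx (dx f) z + dx (dx g) z := by
      show fderiv ℝ (fun z => dx f z + dx g z) z 1 = _
      rw [fderiv_fun_add (hf.dx.differentiable z) (hg.dx.differentiable z)]; rfl
    have h4 : dy (fun z => dy f z + dy g z) z = dy (dy f) z + dy (dy g) z := by
      show fderiv ℝ (fun z => dy f z + dy g z) z I = _
      rw [fderiv_fun_add (hf.dy.differentiable z) (hg.dy.differentiable z)]; rfl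
    rw [h3, h4]; ring
  have hl1 : ∀ {f : ℂ → ℂ} (c : ℂ), Cc f → ∀ z, lap0 (fun z => c * f z) z = c * lap0 f z := by
    intro f c hf z
    unfold lap0
    have h1 : dx (fun z => c * f z) = fun z => c * dx f z := by
      funext z; unfold dx; rw [fderiv_const_mul (hf.differentiable z)]; rfl
    have h2 : dy (fun z => c * f z) = fun z => c * dy f z := by
      funext z; unfold dy; rw [fderiv_const_mul (hf.differentiable z)]; rfl
    rw [h1, h2]
    have h3 : dx (fun z => c * dx f z) z = c * dx (dx f) z := by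
      show fderiv ℝ (fun z => c * dx f z) z 1 = _
      rw [fderiv_const_mul (hf.dx.differentiable z)]; rfl
    have h4 : dy (fun z => c * dy f z) z = c * dy (dy f) z := by
      show fderiv ℝ (fun z => c * dy f z) z I = _
      rw [fderiv_const_mul (hf.dy.differentiable z)]; rfl
    rw [h3, h4]; ring
  induction hp using Submodule.span_induction with
  | mem p hp => exact hp
  | zero =>
    refine ⟨fun _ => 0, ⟨contDiff_const, HasCompactSupport.zero, ?_⟩, ?_, ?_⟩
    · have : tsupport (fun _ : ℂ => (0 : ℂ)) = ∅ := tsupport_eq_empty_iff.mpr rfl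
      rw [this]; exact empty_subset _
    · exact Lp.coeFn_zero _ _ _
    · filter_upwards [Lp.coeFn_zero ℂ 2 (areaMeasure (phi A B C) (Metric.ball 0 1)), W.ae_mem] with z hz hz2
      have h1 : lap0 (fun _ : ℂ => (0 : ℂ)) z = 0 := by
        have := hl1 (f := fun _ => 0) 0 ⟨contDiff_const, HasCompactSupport.zero⟩ z
        simpa using this
      rw [W.lb_eq _ hz2, h1, mul_zero, neg_zero]
      exact hz
  | add p q _ _ hp hq =>
    obtain ⟨f, hf, hf1, hf2⟩ := hp
    obtain ⟨g, hg, hg1, hg2⟩ := hq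
    refine ⟨fun z => f z + g z, ⟨hf.smooth.add hg.smooth, hf.compact.add hg.compact, ?_⟩, ?_, ?_⟩
    · exact (tsupport_add f g).trans (union_subset hf.supp hg.supp)
    · filter_upwards [Lp.coeFn_add p.1 q.1, hf1, hg1] with z h1 h2 h3
      rw [Prod.fst_add, h1, Pi.add_apply, h2, h3]
    · filter_upwards [Lp.coeFn_add p.2 q.2, hf2, hg2, W.ae_mem] with z h1 h2 h3 h4
      rw [Prod.snd_add, h1, Pi.add_apply, h2, h3, W.lb_eq _ h4, W.lb_eq _ h4, W.lb_eq _ h4,
        hl0 hf.cc hg.cc]
      ring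
  | smul c p _ hp =>
    obtain ⟨f, hf, hf1, hf2⟩ := hp
    refine ⟨fun z => c * f z, ⟨contDiff_const.mul hf.smooth, hf.compact.mul_left, ?_⟩, ?_, ?_⟩
    · refine (closure_mono ?_).trans hf.supp
      intro z hz
      have : c * f z ≠ 0 := hz
      exact right_ne_zero_of_mul this
    · filter_upwards [Lp.coeFn_smul c p.1, hf1] with z h1 h2
      rw [Prod.smul_fst, h1, Pi.smul_apply, h2, smul_eq_mul]
    · filter_upwards [Lp.coeFn_smul c p.2, hf2, W.ae_mem] with z h1 h2 h4
      rw [Prod.smul_snd, h1, Pi.smul_apply, h2, smul_eq_mul, W.lb_eq _ h4, W.lb_eq _ h4,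
        hl1 c hf.cc]
      ring

lemma graph_negLaplacian (W : WData u v A B C) :
    (negLaplacian (phi A B C) (Metric.ball 0 1)).graph =
      Submodule.span ℂ (graphSet (phi A B C) (Metric.ball 0 1)) := by
  unfold negLaplacian
  apply Submodule.toLinearPMap_graph_eq
  intro x hx h0
  exact W.closure_graph (Submodule.le_topologicalClosure _ hx) h0

/-- The graph of `-Δ` consists of the pairs `(f, -Δ f)`, `f` a test function. -/
lemma graph_negLaplacian_eq (W : WData u v A B C) :
    ((negLaplacian (phi A B C) (Metric.ball 0 1)).graph : Set _) =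
      graphSet (phi A B C) (Metric.ball 0 1) := by
  rw [W.graph_negLaplacian]
  exact Subset.antisymm (fun p hp => W.span_graph hp) Submodule.subset_span

lemma isClosable (W : WData u v A B C) :
    (negLaplacian (phi A B C) (Metric.ball 0 1)).IsClosable := by
  refine ⟨((negLaplacian (phi A B C) (Metric.ball 0 1)).graph.topologicalClosure).toLinearPMap, ?_⟩
  rw [Submodule.toLinearPMap_graph_eq]
  intro x hx h0
  rw [W.graph_negLaplacian] at hx
  exact W.closure_graph hx h0

lemma graph_closure (W : WData u v A B C) :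
    (negLaplacian (phi A B C) (Metric.ball 0 1)).closure.graph =
      (Submodule.span ℂ (graphSet (phi A B C) (Metric.ball 0 1))).topologicalClosure := by
  rw [← W.isClosable.graph_closure_eq_closure_graph, W.graph_negLaplacian]

lemma closure_nonneg (W : WData u v A B C)
    {p : L2 (phi A B C) (Metric.ball 0 1) × L2 (phi A B C) (Metric.ball 0 1)}
    (hp : p ∈ (Submodule.span ℂ (graphSet (phi A B C) (Metric.ball 0 1))).topologicalClosure) :
    0 ≤ (inner ℂ p.2 p.1 : ℂ).re := by
  have hclosed : IsClosed {p : L2 (phi A B C) (Metric.ball 0 1) × L2 (phi A B C) (Metric.ball 0 1) |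
      0 ≤ (inner ℂ p.2 p.1 : ℂ).re} :=
    isClosed_le continuous_const (Complex.continuous_re.comp (continuous_snd.inner continuous_fst))
  rw [← SetLike.mem_coe, Submodule.topologicalClosure_coe] at hp
  exact closure_minimal (fun p hp => W.graph_nonneg (W.span_graph hp)) hclosed hp

lemma isClosureOfNegLaplacian (W : WData u v A B C) :
    IsClosureOfNegLaplacian (phi A B C) (Metric.ball 0 1)
      (negLaplacian (phi A B C) (Metric.ball 0 1)).closure := by
  unfold IsClosureOfNegLaplacian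
  rw [W.graph_closure, Submodule.topologicalClosure_coe, ← W.graph_negLaplacian,
    W.graph_negLaplacian_eq]
  rfl

/-- Lower bound of the area of a disc on which the spinor is large. -/
lemma mu_ball_lower (W : WData u v A B C) {w : ℂ} {r ℓ : ℝ} (hr : 0 < r) (hℓ : 0 < ℓ)
    (hsub : Metric.closedBall w r ⊆ Metric.ball 0 1)
    (hlow : ∀ z ∈ Metric.closedBall w r, ℓ ≤ max ‖u z‖ ‖v z‖) :
    ENNReal.ofReal (ℓ ^ 4 * r ^ 2 * π) ≤
      areaMeasure (phi A B C) (Metric.ball 0 1) (Metric.closedBall w r) := by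
  have hm : MeasurableSet (Metric.closedBall w r) := measurableSet_closedBall
  rw [W.mu_eq, withDensity_apply _ hm, Measure.restrict_restrict hm,
    inter_eq_left.mpr hsub]
  have h1 : ENNReal.ofReal (ℓ ^ 4) * volume (Metric.closedBall w r) ≤
      ∫⁻ z in Metric.closedBall w r, ENNReal.ofReal (lam u v z ^ 2) := by
    rw [← setLIntegral_const]
    apply setLIntegral_mono' hm
    intro z hz
    apply ENNReal.ofReal_le_ofReal
    have h2 := hlow z hz
    have h3 := sq_max_le_lam u v z
    have h4 : ℓ ^ 2 ≤ lam u v z := (pow_le_pow_left₀ hℓ.le h2 2).trans h3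
    calc ℓ ^ 4 = (ℓ ^ 2) ^ 2 := by ring
      _ ≤ lam u v z ^ 2 := pow_le_pow_left₀ (by positivity) h4 2
  refine le_trans (le_of_eq ?_) h1
  rw [Complex.volume_closedBall, ENNReal.ofReal_mul (by positivity), ENNReal.ofReal_mul (by positivity),
    mul_assoc, ENNReal.ofReal_pow hr.le]
  congr 2
  rw [← NNReal.coe_real_pi, ENNReal.ofReal_coe_nnreal]

theorem essSpectrum_nonempty (W : WData u v A B C) {w : ℕ → ℂ} {ϱ ℓ : ℕ → ℝ}
    (hϱ : ∀ n, 0 < ϱ n) (hℓ : ∀ n, 0 < ℓ n) (hℓϱ : ∀ n, 1 / 512 ≤ ℓ n ^ 2 * ϱ n)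
    (hsub : ∀ n, Metric.closedBall (w n) (ϱ n) ⊆ Metric.ball 0 1)
    (hdisj : ∀ m n, m ≠ n → Disjoint (Metric.closedBall (w m) (ϱ m)) (Metric.closedBall (w n) (ϱ n)))
    (hlow : ∀ n, ∀ z ∈ Metric.closedBall (w n) (ϱ n), ℓ n ≤ max ‖u z‖ ‖v z‖) :
    (essSpectrum (negLaplacian (phi A B C) (Metric.ball 0 1)).closure).Nonempty := by
  set μ := areaMeasure (phi A B C) (Metric.ball 0 1) with hμ
  set T := (negLaplacian (phi A B C) (Metric.ball 0 1)).closure with hT
  obtain ⟨β, hβ, hβ1, hβ2, hβ3⟩ := exists_bump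
  set f : ℕ → ℂ → ℂ := fun n => rescale (w n) (ϱ n) β with hf
  have hft : ∀ n, IsTestFunction (Metric.ball 0 1) (f n) := fun n =>
    ⟨(hβ.rescale (hϱ n) hβ3).smooth, (hβ.rescale (hϱ n) hβ3).compact,
      (tsupport_rescale (hϱ n) hβ3).trans (hsub n)⟩
  set F : ℕ → L2 (phi A B C) (Metric.ball 0 1) := fun n => (W.memLp_test (hft n)).toLp (f n) with hF
  set G : ℕ → L2 (phi A B C) (Metric.ball 0 1) := fun n => (W.memLp_lb (hft n)).toLp _ with hG
  have hTg : T.graph =
      (Submodule.span ℂ (graphSet (phi A B C) (Metric.ball 0 1))).topologicalClosure :=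
    W.graph_closure
  have hFG : ∀ n, (F n, G n) ∈ T.graph := by
    intro n
    rw [hTg]
    apply Submodule.le_topologicalClosure
    exact Submodule.subset_span (W.exists_mem_graphSet (hft n))
  have hFf : ∀ n, F n =ᵐ[μ] f n := fun n => MemLp.coeFn_toLp (W.memLp_test (hft n))
  have hGf : ∀ n, G n =ᵐ[μ] fun z => -laplaceBeltrami (phi A B C) (f n) z := fun n =>
    MemLp.coeFn_toLp (W.memLp_lb (hft n))
  -- energies
  set E : ℝ := ‖∫ z, conj (lap0 β z) * β z‖ with hE
  have hEn : ∀ n, (inner ℂ (G n) (F n) : ℂ).re ≤ E := by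
    intro n
    rw [W.inner_formula (hft n) (hft n) (hGf n) (hFf n), energy_rescale (hϱ n) hβ, hE]
    refine (Complex.re_le_norm _).trans ?_
    rw [norm_neg]
  -- orthogonality
  have hort : ∀ m n, m ≠ n → (inner ℂ (F m) (F n) : ℂ) = 0 := by
    intro m n hmn
    rw [L2.inner_def]
    apply integral_eq_zero_of_ae
    filter_upwards [hFf m, hFf n] with z h1 h2
    rw [h1, h2]
    by_cases hz : z ∈ Metric.closedBall (w m) (ϱ m)
    · have h3 : z ∉ Metric.closedBall (w n) (ϱ n) := Set.disjoint_left.mp (hdisj m n hmn) hz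
      have h4 : f n z = 0 := image_eq_zero_of_notMem_tsupport fun h => h3 (tsupport_rescale (hϱ n) hβ3 h)
      rw [h4, inner_zero_right]; rfl
    · have h4 : f m z = 0 := image_eq_zero_of_notMem_tsupport fun h => hz (tsupport_rescale (hϱ m) hβ3 h)
      rw [h4, inner_zero_left]; rfl
  -- lower bound of the norms
  set c0 : ℝ := π / 4 / 512 ^ 2 with hc0
  have hc0pos : 0 < c0 := by have := Real.pi_pos; positivity
  have hnorm : ∀ n, c0 ≤ ‖F n‖ ^ 2 := by
    intro n
    have hr2 : 0 < ϱ n / 2 := by have := hϱ n; positivity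
    have hsub2 : Metric.closedBall (w n) (ϱ n / 2) ⊆ Metric.closedBall (w n) (ϱ n) :=
      Metric.closedBall_subset_closedBall (by have := hϱ n; linarith)
    have h1 := W.mu_ball_lower hr2 (hℓ n) (hsub2.trans (hsub n)) (fun z hz => hlow n z (hsub2 hz))
    have h2 : eLpNorm ((Metric.closedBall (w n) (ϱ n / 2)).indicator (fun _ => (1 : ℂ))) 2 μ
        ≤ eLpNorm (f n) 2 μ := by
      apply eLpNorm_mono
      intro z
      by_cases hz : z ∈ Metric.closedBall (w n) (ϱ n / 2)
      · rw [indicator_of_mem hz]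
        have : f n z = 1 := by
          apply hβ2
          rw [norm_smul, norm_inv, Real.norm_of_nonneg (hϱ n).le, inv_mul_le_iff₀ (hϱ n)]
          rw [Metric.mem_closedBall, dist_eq_norm] at hz
          linarith
        rw [this]
      · rw [indicator_of_notMem hz, norm_zero]; exact norm_nonneg _
    rw [eLpNorm_indicator_const measurableSet_closedBall (by norm_num) (by norm_num)] at h2
    have h3 : ‖F n‖ = (eLpNorm (f n) 2 μ).toReal := Lp.norm_toLp _ _
    have hfin : eLpNorm (f n) 2 μ ≠ ⊤ := (W.memLp_test (hft n)).eLpNorm_ne_top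
    have h4 : (ENNReal.ofReal (ℓ n ^ 4 * (ϱ n / 2) ^ 2 * π)) ^ (1 / (2 : ℝ≥0∞).toReal)
        ≤ eLpNorm (f n) 2 μ := by
      refine le_trans ?_ h2
      simp only [enorm_one, one_mul]
      gcongr
    have h5 := ENNReal.toReal_mono hfin h4
    rw [← h3, ← ENNReal.toReal_rpow, ENNReal.toReal_ofReal (by have := Real.pi_pos; positivity)] at h5
    have h6 : (ℓ n ^ 4 * (ϱ n / 2) ^ 2 * π) ^ (1 / (2 : ℝ≥0∞).toReal)
        = Real.sqrt (ℓ n ^ 4 * (ϱ n / 2) ^ 2 * π) := by
      rw [Real.sqrt_eq_rpow]; norm_num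
    rw [h6] at h5
    have h7 : ℓ n ^ 4 * (ϱ n / 2) ^ 2 * π ≤ ‖F n‖ ^ 2 := by
      rwa [Real.sqrt_le_left (norm_nonneg _)] at h5
    refine le_trans ?_ h7
    have h8 := hℓϱ n
    have h9 : (1 / 512 : ℝ) ^ 2 ≤ (ℓ n ^ 2 * ϱ n) ^ 2 := pow_le_pow_left₀ (by norm_num) h8 2
    have := Real.pi_pos
    calc c0 = π / 4 * (1 / 512) ^ 2 := by rw [hc0]; ring
      _ ≤ π / 4 * (ℓ n ^ 2 * ϱ n) ^ 2 := by gcongr
      _ = _ := by ring
  have hpos : ∀ n, 0 < ‖F n‖ := by
    intro n
    have h := hnorm n
    by_contra hcon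
    have : ‖F n‖ = 0 := le_antisymm (not_lt.mp hcon) (norm_nonneg _)
    rw [this] at h
    norm_num at h
    linarith
  -- the orthonormal sequence
  have hy : ∀ n, ∃ y : T.domain, (y : L2 (phi A B C) (Metric.ball 0 1)) = F n ∧ T y = G n := by
    intro n
    have := (LinearPMap.mem_graph_iff T).mp (hFG n)
    exact this
  choose y hy1 hy2 using hy
  refine MinSurf.essSpectrum_nonempty T ?_ ?_ (fun n => ((‖F n‖⁻¹ : ℝ) : ℂ) • y n) ?_ (E / c0) ?_
  · intro a b
    have ha : ((a : L2 (phi A B C) (Metric.ball 0 1)), T a) ∈ T.graph := T.mem_graph a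
    have hb : ((b : L2 (phi A B C) (Metric.ball 0 1)), T b) ∈ T.graph := T.mem_graph b
    rw [hTg] at ha hb
    exact W.closure_symm ha hb
  · intro a
    have ha : ((a : L2 (phi A B C) (Metric.ball 0 1)), T a) ∈ T.graph := T.mem_graph a
    rw [hTg] at ha
    exact W.closure_nonneg ha
  · rw [orthonormal_iff_ite]
    intro m n
    have e1 : ∀ n, (((((‖F n‖⁻¹ : ℝ) : ℂ) • y n : T.domain)) : L2 (phi A B C) (Metric.ball 0 1))
        = ((‖F n‖⁻¹ : ℝ) : ℂ) • F n := by
      intro n; rw [← hy1 n]; rfl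
    rw [e1, e1, inner_smul_left, inner_smul_right]
    split_ifs with h
    · subst h
      rw [inner_self_eq_norm_sq_to_K, Complex.conj_ofReal]
      have hne : (‖F m‖ : ℂ) ≠ 0 := by exact_mod_cast (hpos m).ne'
      push_cast
      have : (RCLike.ofReal ‖F m‖ : ℂ) = (‖F m‖ : ℂ) := rfl
      rw [this]
      field_simp
    · rw [hort m n h, mul_zero, mul_zero]
  · intro n
    rw [LinearPMap.map_smul]
    have e1 : (((((‖F n‖⁻¹ : ℝ) : ℂ) • y n : T.domain)) : L2 (phi A B C) (Metric.ball 0 1))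
        = ((‖F n‖⁻¹ : ℝ) : ℂ) • F n := by
      rw [← hy1 n]; rfl
    rw [e1, hy2, inner_smul_left, inner_smul_right, Complex.conj_ofReal, ← mul_assoc,
      ← Complex.ofReal_mul, Complex.re_ofReal_mul]
    have h1 := hEn n
    have h2 := hnorm n
    have hE0 : 0 ≤ E := norm_nonneg _
    have h3 : ‖F n‖⁻¹ * ‖F n‖⁻¹ = (‖F n‖ ^ 2)⁻¹ := by rw [sq, mul_inv]
    rw [h3]
    calc (‖F n‖ ^ 2)⁻¹ * (inner ℂ (G n) (F n) : ℂ).re ≤ (‖F n‖ ^ 2)⁻¹ * E := by gcongr
      _ ≤ c0⁻¹ * E := by gcongr
      _ = E / c0 := by rw [div_eq_inv_mul]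

end WData

end Pool.Agent.MinSurf
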