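import Pool.Agent.Lib_helper22.Defs
import Pool.Agent.Lib_helper22.Construction
import Pool.Agent.Lib_helper22.Complete2
import Pool.Agent.Lib_helper22.Operator2

/-!
# A complete bounded minimal disc in `ℝ³` with non-empty essential spectrum which does not
factor through any covering

All notions used in the statement are defined in `Pool/Agent/Lib_helper22/Defs.lean`.

Idea of the proof. In spinor form a minimal surface is `φ = Re ∫ (u² - v², -i (u² + v²), 2 u v)`
with induced metric `(|u|² + |v|²)² |dz|²`.  Replacing `(u, v)` by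
`(u, v) + √(2N+1) z^N (P, Q)` changes `φ`, up to an error tending to `0` uniformly on the closed
disc as `N → ∞`, by `Re (z^(2N+1) (P² - Q², -i (P² + Q²), 2 P Q))`.  Choosing `(P, Q)`
on the circle of size `r` and with null vector orthogonal to the position vector, the intrinsic
radius grows by a multiple of `r` whereas `|φ|²` grows by at most `4 r²`;
iterating with `r = 1/(n+1)` gives a complete bounded disc.  Between these steps one performs
steps with `(P, Q)` a peak function of size one at a boundary point (different points for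
different steps); each creates, near that boundary point, a disc of area bounded below, and
these discs support test functions of bounded Rayleigh quotient, so the
essential spectrum is not empty.  The value `φ 0` is taken only at `0`, which excludes
factorisations through coverings.
-/

open Set

noncomputable section

namespace Pool.Agent.MinSurf

/-- There is a complete bounded minimal surface `φ : 𝔻 → ℝ³`, `𝔻` the open unit disc, for which
the closure of `-Δ` on `C_c^∞(𝔻)` has non-empty essential spectrum and which does not factor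
through any covering map with more than one sheet. -/
theorem main_theorem.{u} : ∃ φ : ℂ → R3,
    IsImmersionOn φ (Metric.ball 0 1) ∧
    IsMinimalOn φ (Metric.ball 0 1) ∧
    IsCompleteOn φ (Metric.ball 0 1) ∧
    Bornology.IsBounded (φ '' Metric.ball 0 1) ∧
    (∃ T : L2 φ (Metric.ball 0 1) →ₗ.[ℂ] L2 φ (Metric.ball 0 1),
      IsClosureOfNegLaplacian φ (Metric.ball 0 1) T ∧ (essSpectrum T).Nonempty) ∧
    ¬ FactorsThroughCovering.{u} φ (Metric.ball 0 1) := by
  obtain ⟨u, v, A, B, C, hu, hv, hA, hB, hC, hm, ⟨K, hK⟩, hinj,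
    ⟨α, β, ℓ, a1, a2, a3, a4, a5, a6, a7, a8⟩, ⟨w, ϱ, ℓ', b1, b2, b3, b4, b5, b6⟩⟩ := construction
  have W : WData u v A B C := ⟨hu, hv, hA, hB, hC, hm⟩
  refine ⟨phi A B C, W.isImmersionOn, W.isMinimalOn, W.isCompleteOn a1 a2 a3 a4 a5 a6 a7 a8, ?_,
    ⟨_, W.isClosureOfNegLaplacian, W.essSpectrum_nonempty b1 b2 b3 b4 b5 b6⟩, ?_⟩
  · rw [isBounded_iff_forall_norm_le]
    refine ⟨K, ?_⟩
    rintro _ ⟨z, hz, rfl⟩
    exact hK z hz
  · rintro ⟨M', _, π, ψ, -, hπ, hψ⟩
    have h0 : (0 : ℂ) ∈ Metric.ball (0 : ℂ) 1 := by simp
    obtain ⟨x, hx, hxne⟩ := (hπ (π ⟨0, h0⟩)).exists_ne ⟨0, h0⟩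
    apply hxne
    have hx' : π x = π ⟨0, h0⟩ := hx
    have h1 : phi A B C x = phi A B C 0 := by
      have h2 := hψ x
      have h3 := hψ ⟨0, h0⟩
      rw [hx'] at h2
      rw [h2, ← h3]
    exact Subtype.ext (hinj x x.2 h1)

end Pool.Agent.MinSurf
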