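import Pool.Agent.Lib_helper22.Defs

open Set Filter
open scoped Topology ComplexInnerProductSpace

noncomputable section

namespace Pool.Agent.MinSurf

variable {H : Type*} [NormedAddCommGroup H] [InnerProductSpace ℂ H]

lemma mem_eigenSpace {T : H →ₗ.[ℂ] H} {μ : ℂ} {x : H} :
    x ∈ eigenSpace T μ ↔ ∃ h : x ∈ T.domain, T ⟨x, h⟩ = μ • x := by
  unfold eigenSpace
  constructor
  · rintro ⟨y, hy, rfl⟩
    refine ⟨y.2, ?_⟩
    have : (T.toFun - μ • T.domain.subtype) y = 0 := hy
    simpa [sub_eq_zero] using this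
  · rintro ⟨h, hx⟩
    refine ⟨⟨x, h⟩, ?_, rfl⟩
    change (T.toFun - μ • T.domain.subtype) ⟨x, h⟩ = 0
    simpa [sub_eq_zero] using hx

variable [CompleteSpace H]

/-- A bounded self-adjoint `R` such that each positive point of the spectrum
is isolated and has finite dimensional eigenspace: the spectral projection onto `[ε, ∞)` has
finite-dimensional range. -/
lemma exists_proj (R : H →L[ℂ] H) (hR : IsSelfAdjoint R) (hpos : ∀ x ∈ spectrum ℝ R, 0 ≤ x)
    {ε : ℝ} (hε : 0 < ε)
    (hiso : ∀ x ∈ spectrum ℝ R, ε ≤ x → ∃ δ > 0, ∀ y ∈ spectrum ℝ R, |y - x| < δ → y = x)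
    (hfin : ∀ x ∈ spectrum ℝ R, ε ≤ x →
      FiniteDimensional ℂ (LinearMap.ker ((R : H →ₗ[ℂ] H) - (x : ℂ) • LinearMap.id))) :
    ∃ P : H →L[ℂ] H, IsSelfAdjoint P ∧ P * P = P ∧
      FiniteDimensional ℂ (LinearMap.range (P : H →ₗ[ℂ] H)) ∧
      ∀ w : H, ‖R w - P (R w)‖ ^ 2 ≤ ε * (inner ℂ (R w) w).re := by
  classical
  set f : ℝ → ℝ := fun x => if ε ≤ x then 1 else 0 with hf
  have hfc : ContinuousOn f (spectrum ℝ R) := by
    intro x hx
    by_cases hxe : ε ≤ x
    · obtain ⟨δ, hδ, h⟩ := hiso x hx hxe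
      have h1 : f =ᶠ[𝓝[spectrum ℝ R] x] fun _ => f x := by
        have : Metric.ball x δ ∈ 𝓝[spectrum ℝ R] x := mem_nhdsWithin_of_mem_nhds (Metric.ball_mem_nhds x hδ)
        filter_upwards [this, self_mem_nhdsWithin] with y hy hy'
        rw [h y hy' (by simpa [Real.dist_eq] using hy)]
      exact ContinuousWithinAt.congr_of_eventuallyEq continuousWithinAt_const h1 rfl
    · push Not at hxe
      have h1 : f =ᶠ[𝓝[spectrum ℝ R] x] fun _ => (0 : ℝ) := by
        have : Iio ε ∈ 𝓝[spectrum ℝ R] x := mem_nhdsWithin_of_mem_nhds (Iio_mem_nhds hxe)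
        filter_upwards [this] with y hy
        simp [hf, not_le.mpr (mem_Iio.mp hy)]
      exact ContinuousWithinAt.congr_of_eventuallyEq continuousWithinAt_const h1 (by simp [hf, not_le.mpr hxe])
  set P : H →L[ℂ] H := cfc f R with hP
  have hPsa : IsSelfAdjoint P := cfc_predicate f R
  have hPP : P * P = P := by
    rw [hP, ← cfc_mul f f R hfc hfc]
    congr 1
    ext x
    simp [hf]
  refine ⟨P, hPsa, hPP, ?_, ?_⟩
  · -- the set of spectral points above `ε` is finite
    set K : Set ℝ := spectrum ℝ R ∩ Ici ε with hK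
    have hKc : IsCompact K := (ContinuousFunctionalCalculus.isCompact_spectrum R).inter_right isClosed_Ici
    have hKfin : K.Finite := by
      have hd : IsDiscrete K := by
        rw [isDiscrete_iff_nhdsWithin]
        intro x hx
        obtain ⟨δ, hδ, h⟩ := hiso x hx.1 hx.2
        apply le_antisymm
        · rw [le_pure_iff, mem_nhdsWithin]
          refine ⟨Metric.ball x δ, Metric.isOpen_ball, Metric.mem_ball_self hδ, ?_⟩
          rintro y ⟨hy, hy'⟩
          exact h y hy'.1 (by simpa [Real.dist_eq] using hy)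
        · exact pure_le_nhdsWithin hx
      exact hKc.finite hd
    set δf : ℝ → ℝ → ℝ := fun ν x => if x = ν then 1 else 0 with hδf
    have hδc : ∀ ν ∈ K, ContinuousOn (δf ν) (spectrum ℝ R) := by
      intro ν hν x hx
      by_cases hxν : x = ν
      · obtain ⟨δ, hδ, h⟩ := hiso x hx (hxν ▸ hν.2)
        have h1 : δf ν =ᶠ[𝓝[spectrum ℝ R] x] fun _ => δf ν x := by
          have : Metric.ball x δ ∈ 𝓝[spectrum ℝ R] x := mem_nhdsWithin_of_mem_nhds (Metric.ball_mem_nhds x hδ)
          filter_upwards [this, self_mem_nhdsWithin] with y hy hy'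
          rw [h y hy' (by simpa [Real.dist_eq] using hy)]
        exact ContinuousWithinAt.congr_of_eventuallyEq continuousWithinAt_const h1 rfl
      · have h1 : δf ν =ᶠ[𝓝[spectrum ℝ R] x] fun _ => (0 : ℝ) := by
          have : {ν}ᶜ ∈ 𝓝[spectrum ℝ R] x := mem_nhdsWithin_of_mem_nhds (isOpen_compl_singleton.mem_nhds hxν)
          filter_upwards [this] with y hy
          have : y ≠ ν := hy
          simp [hδf, this]
        exact ContinuousWithinAt.congr_of_eventuallyEq continuousWithinAt_const h1 (by simp [hδf, hxν])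
    have hsum : P = ∑ ν ∈ hKfin.toFinset, cfc (δf ν) R := by
      rw [← cfc_sum (fun ν => δf ν) R hKfin.toFinset (fun ν hν => hδc ν (by simpa using hν))]
      apply cfc_congr
      intro x hx
      rw [Finset.sum_apply]
      simp only [hδf, hf]
      by_cases hxe : ε ≤ x
      · rw [Finset.sum_eq_single x]
        · simp [hxe]
        · intro b _ hb; simp [hb.symm]
        · intro h; exact absurd (hKfin.mem_toFinset.mpr ⟨hx, hxe⟩) h
      · simp only [hxe, if_false]
        symm
        apply Finset.sum_eq_zero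
        intro ν hν
        have : ν ∈ K := by simpa using hν
        have h2 : x ≠ ν := by rintro rfl; exact hxe this.2
        simp [h2]
    have hker : ∀ ν ∈ K, ∀ w, cfc (δf ν) R w ∈ LinearMap.ker ((R : H →ₗ[ℂ] H) - (ν : ℂ) • LinearMap.id) := by
      intro ν hν w
      have h1 : (R - ν • (1 : H →L[ℂ] H)) * cfc (δf ν) R = 0 := by
        have h2 : cfc (fun x : ℝ => x - ν) R = R - ν • (1 : H →L[ℂ] H) := by
          rw [cfc_sub (fun x : ℝ => x) (fun _ => ν) R continuousOn_id continuousOn_const, cfc_id' ℝ R,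
            cfc_const ν R, Algebra.algebraMap_eq_smul_one]
        rw [← h2, ← cfc_mul (fun x : ℝ => x - ν) (δf ν) R (continuousOn_id.sub continuousOn_const) (hδc ν hν)]
        rw [← cfc_zero ℝ R]
        apply cfc_congr
        intro x _
        by_cases hx : x = ν <;> simp [hδf, hx]
      have h2 := congrArg (fun S : H →L[ℂ] H => S w) h1
      rw [LinearMap.mem_ker]
      have h3 : (R - ν • (1 : H →L[ℂ] H)) (cfc (δf ν) R w) = 0 := h2
      simpa using h3
    have hle : LinearMap.range (P : H →ₗ[ℂ] H) ≤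
        ⨆ ν ∈ hKfin.toFinset, LinearMap.ker ((R : H →ₗ[ℂ] H) - (ν : ℂ) • LinearMap.id) := by
      rintro _ ⟨w, rfl⟩
      have : (P : H →ₗ[ℂ] H) w = ∑ ν ∈ hKfin.toFinset, cfc (δf ν) R w := by
        rw [hsum]; simp
      rw [this]
      apply Submodule.sum_mem
      intro ν hν
      exact Submodule.mem_iSup_of_mem ν (Submodule.mem_iSup_of_mem hν (hker ν (by simpa using hν) w))
    have hfd : ∀ ν ∈ hKfin.toFinset, FiniteDimensional ℂ (LinearMap.ker ((R : H →ₗ[ℂ] H) - (ν : ℂ) • LinearMap.id)) := by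
      intro ν hν
      have : ν ∈ K := by simpa using hν
      exact hfin ν this.1 this.2
    have hfd2 : FiniteDimensional ℂ
        (⨆ ν ∈ hKfin.toFinset, LinearMap.ker ((R : H →ₗ[ℂ] H) - (ν : ℂ) • LinearMap.id) : Submodule ℂ H) := by
      rw [← Finset.sup_eq_iSup]
      clear hle hker hsum
      revert hfd
      generalize hKfin.toFinset = s
      induction s using Finset.induction_on with
      | empty => intro _; rw [Finset.sup_empty]; infer_instance
      | insert a s ha ih =>
        intro hfd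
        rw [Finset.sup_insert]
        have := hfd a (Finset.mem_insert_self _ _)
        have := ih (fun ν hν => hfd ν (Finset.mem_insert_of_mem hν))
        infer_instance
    exact Submodule.finiteDimensional_of_le hle
  · intro w
    set a : ℝ → ℝ := fun x => (1 - f x) * x with ha
    have hac : ContinuousOn a (spectrum ℝ R) := (continuousOn_const.sub hfc).mul continuousOn_id
    set g : ℝ → ℝ := fun x => Real.sqrt (ε * x - a x * a x) with hg
    have hgc : ContinuousOn g (spectrum ℝ R) :=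
      ((continuousOn_const.mul continuousOn_id).sub (hac.mul hac)).sqrt
    have hA : cfc a R = R - P * R := by
      have h1 : cfc (fun x : ℝ => x) R = R := cfc_id' ℝ R
      have h2 : cfc a R = cfc (fun x => x - f x * x) R := by
        congr 1; ext x; simp [ha]; ring
      rw [h2, cfc_sub (fun x => x) (fun x => f x * x) R continuousOn_id (hfc.mul continuousOn_id), h1,
        cfc_mul f (fun x => x) R hfc continuousOn_id, h1]
    have hBB : cfc g R * cfc g R = ε • R - cfc a R * cfc a R := by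
      rw [← cfc_mul g g R hgc hgc, ← cfc_mul a a R hac hac]
      have h1 : cfc (fun x : ℝ => ε * x) R = ε • R := by
        rw [cfc_const_mul ε (fun x : ℝ => x) R continuousOn_id]
        rw [cfc_id' ℝ R]
      rw [← h1, ← cfc_sub (fun x => ε * x) (fun x => a x * a x) R (continuousOn_const.mul continuousOn_id) (hac.mul hac)]
      apply cfc_congr
      intro x hx
      have hx0 := hpos x hx
      have : 0 ≤ ε * x - a x * a x := by
        by_cases hxe : ε ≤ x
        · simp [ha, hf, hxe]; positivity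
        · simp only [ha, hf, hxe, if_false]
          push Not at hxe
          nlinarith
      simp only [hg]
      exact Real.mul_self_sqrt this
    have hAsa : IsSelfAdjoint (cfc a R) := cfc_predicate a R
    have hBsa : IsSelfAdjoint (cfc g R) := cfc_predicate g R
    have key : ∀ (S : H →L[ℂ] H), IsSelfAdjoint S → ∀ w, ((inner ℂ ((S * S) w) w : ℂ)).re = ‖S w‖ ^ 2 := by
      intro S hS w
      have h1 : (inner ℂ ((S * S) w) w : ℂ) = inner ℂ (S w) (S w) := by
        change inner ℂ (S (S w)) w = _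
        have := ContinuousLinearMap.adjoint_inner_left S w (S w)
        rw [hS.adjoint_eq] at this
        exact this
      rw [h1, inner_self_eq_norm_sq_to_K]
      norm_cast
    have h1 := key _ hBsa w
    rw [hBB] at h1
    have h2 := key _ hAsa w
    have h3 : ((inner ℂ ((ε • R - cfc a R * cfc a R) w) w : ℂ)).re = ε * (inner ℂ (R w) w).re - ‖cfc a R w‖ ^ 2 := by
      rw [sub_apply, inner_sub_left, Complex.sub_re, h2]
      congr 1
      rw [smul_apply]
      rw [← algebraMap_smul ℂ ε (R w), inner_smul_left]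
      simp
    have h4 : cfc a R w = R w - P (R w) := by rw [hA]; rfl
    rw [h3, h4] at h1
    have := sq_nonneg ‖cfc g R w‖
    linarith

omit [CompleteSpace H] in
lemma re_inner_self (x : H) : (inner ℂ x x : ℂ).re = ‖x‖ ^ 2 := by
  have := inner_self_eq_norm_sq (𝕜 := ℂ) x
  simpa using this

omit [CompleteSpace H] in
lemma re_inner_comm (x y : H) : (inner ℂ x y : ℂ).re = (inner ℂ y x : ℂ).re := by
  have := inner_re_symm (𝕜 := ℂ) x y
  simpa using this

/-- A symmetric non-negative operator with an orthonormal sequence in its domain of bounded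
energy has non-empty essential spectrum. -/
theorem essSpectrum_nonempty (T : H →ₗ.[ℂ] H)
    (hsym : ∀ x y : T.domain, (inner ℂ (T x) (y : H) : ℂ) = inner ℂ (x : H) (T y))
    (hpos : ∀ x : T.domain, 0 ≤ (inner ℂ (T x) (x : H) : ℂ).re)
    (u : ℕ → T.domain) (hu : Orthonormal ℂ (fun n => (u n : H))) (C : ℝ)
    (hC : ∀ n, (inner ℂ (T (u n)) (u n : H) : ℂ).re ≤ C) :
    (essSpectrum T).Nonempty := by
  by_contra hne
  rw [Set.not_nonempty_iff_eq_empty] at hne
  have hall : ∀ μ ∈ spec T, IsIsolatedEigenvalueOfFiniteMult T μ := by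
    intro μ hμ
    by_contra h
    have : μ ∈ essSpectrum T := ⟨hμ, h⟩
    rw [hne] at this
    exact this
  -- `-1` is in the resolvent set
  have h1 : (-1 : ℂ) ∈ resolventSet T := by
    by_contra h
    obtain ⟨-, h2, -⟩ := hall (-1) h
    obtain ⟨x, hx, hx0⟩ := Submodule.exists_mem_ne_zero_of_ne_bot h2
    obtain ⟨hxd, hTx⟩ := mem_eigenSpace.mp hx
    have h3 := hpos ⟨x, hxd⟩
    rw [hTx] at h3
    simp only [neg_smul, one_smul, inner_neg_left, Complex.neg_re] at h3
    rw [re_inner_self] at h3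
    have h4 : (0 : ℝ) < ‖x‖ ^ 2 := by positivity
    linarith
  obtain ⟨R, hR1, hR2⟩ := h1
  choose hRd hR1 using hR1
  have hR1' : ∀ y, T ⟨R y, hRd y⟩ = y - R y := by
    intro y
    have := hR1 y
    rw [neg_smul, one_smul, sub_neg_eq_add] at this
    rw [eq_sub_iff_add_eq]; exact this
  have hR2' : ∀ x : T.domain, R (T x + x) = x := by
    intro x
    have := hR2 x
    rwa [neg_smul, one_smul, sub_neg_eq_add] at this
  -- `R` is self-adjoint and non-negative
  have hRsa : IsSelfAdjoint R := by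
    rw [ContinuousLinearMap.isSelfAdjoint_iff_isSymmetric]
    intro x y
    have h2 := hsym ⟨R x, hRd x⟩ ⟨R y, hRd y⟩
    rw [hR1', hR1'] at h2
    simp only [inner_sub_left, inner_sub_right] at h2
    have h3 : (inner ℂ x (R y) : ℂ) = inner ℂ (R x) y := by linear_combination h2
    exact h3.symm
  have hRpos : ∀ y, ‖R y‖ ^ 2 ≤ (inner ℂ (R y) y : ℂ).re := by
    intro y
    have h2 := hpos ⟨R y, hRd y⟩
    rw [hR1'] at h2
    simp only [inner_sub_left, Complex.sub_re] at h2
    rw [re_inner_self, re_inner_comm] at h2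
    linarith
  -- the spectrum of `R` is non-negative
  have hspec_nonneg : ∀ x ∈ spectrum ℝ R, 0 ≤ x := by
    have h2 : R.IsPositive := by
      rw [ContinuousLinearMap.isPositive_def]
      refine ⟨hRsa.isSymmetric, ?_⟩
      intro x
      have := hRpos x
      have h3 : 0 ≤ (inner ℂ (R x) x : ℂ).re := le_trans (by positivity) this
      simpa [ContinuousLinearMap.reApplyInnerSelf_apply] using h3
    exact SpectrumRestricts.nnreal_iff.mp h2.spectrumRestricts
  -- nonzero spectrum of `R` corresponds to spectrum of `T`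
  have hcorr : ∀ x : ℝ, 0 < x → x ∈ spectrum ℝ R → ((x : ℂ)⁻¹ - 1) ∈ spec T := by
    intro x hx hxs hres
    obtain ⟨S, hS1, hS2⟩ := hres
    choose hSd hS1 using hS1
    have hxc : (x : ℂ) ≠ 0 := by exact_mod_cast hx.ne'
    apply hxs
    set Q : H →L[ℂ] H := (x : ℂ)⁻¹ • (1 + (x : ℂ)⁻¹ • S) with hQ
    have e1 : ∀ y, algebraMap ℝ (H →L[ℂ] H) x y = (x : ℂ) • y := by
      intro y
      rw [Algebra.algebraMap_eq_smul_one]
      simp
    have a1 : Q * (algebraMap ℝ (H →L[ℂ] H) x - R) = 1 := by
      ext y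
      have h2 := hS2 ⟨R y, hRd y⟩
      rw [hR1'] at h2
      have h3 : y - R y - ((x : ℂ)⁻¹ - 1) • R y = (x : ℂ)⁻¹ • ((x : ℂ) • y - R y) := by
        rw [smul_sub, smul_smul, inv_mul_cancel₀ hxc, one_smul, sub_smul, one_smul]; abel
      simp only at h2
      rw [h3] at h2
      change (x : ℂ)⁻¹ • ((algebraMap ℝ (H →L[ℂ] H) x y - R y) + (x : ℂ)⁻¹ • S (algebraMap ℝ (H →L[ℂ] H) x y - R y)) = y
      rw [e1, ← map_smul S, h2, sub_add_cancel, smul_smul, inv_mul_cancel₀ hxc, one_smul]
    have a2 : (algebraMap ℝ (H →L[ℂ] H) x - R) * Q = 1 := by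
      ext y
      have h2 := hR2' ⟨S y, hSd y⟩
      have h3 := hS1 y
      have h4 : T ⟨S y, hSd y⟩ + S y = y + (x : ℂ)⁻¹ • S y := by
        have h3' : T ⟨S y, hSd y⟩ = y + ((x : ℂ)⁻¹ - 1) • S y := sub_eq_iff_eq_add.mp h3
        rw [h3', sub_smul, one_smul]
        abel
      simp only at h2
      rw [h4] at h2
      change algebraMap ℝ (H →L[ℂ] H) x (Q y) - R (Q y) = y
      have h5 : Q y = (x : ℂ)⁻¹ • (y + (x : ℂ)⁻¹ • S y) := rfl
      rw [e1, h5, map_smul, h2, smul_smul, mul_inv_cancel₀ hxc, one_smul]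
      abel
    exact ⟨⟨_, Q, a2, a1⟩, rfl⟩
  have hker : ∀ x : ℝ, 0 < x → ∀ y ∈ LinearMap.ker ((R : H →ₗ[ℂ] H) - (x : ℂ) • LinearMap.id),
      y ∈ eigenSpace T ((x : ℂ)⁻¹ - 1) := by
    intro x hx y hy
    have hxc : (x : ℂ) ≠ 0 := by exact_mod_cast hx.ne'
    have hy1 : R y = (x : ℂ) • y := by
      have : R y - (x : ℂ) • y = 0 := by simpa using hy
      exact sub_eq_zero.mp this
    have hy2 : y = (x : ℂ)⁻¹ • R y := by rw [hy1, smul_smul, inv_mul_cancel₀ hxc, one_smul]
    have hyd : y ∈ T.domain := by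
      rw [hy2]; exact T.domain.smul_mem _ (hRd y)
    rw [mem_eigenSpace]
    refine ⟨hyd, ?_⟩
    have h2 : (⟨y, hyd⟩ : T.domain) = (x : ℂ)⁻¹ • ⟨R y, hRd y⟩ := by
      ext; exact hy2
    rw [h2, LinearPMap.map_smul, hR1', smul_sub, ← hy2, sub_smul, one_smul]
  set ε : ℝ := 1 / (2 * (C + 1)) with hεdef
  have hC0 : 0 ≤ C := le_trans (hpos (u 0)) (hC 0)
  have hε : 0 < ε := by positivity
  obtain ⟨P, hPsa, hPP, hPfin, hPest⟩ := exists_proj R hRsa hspec_nonneg hε
    (by
      intro x hx hxe
      have hx0 : 0 < x := lt_of_lt_of_le hε hxe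
      have hxc : (x : ℂ) ≠ 0 := by exact_mod_cast hx0.ne'
      obtain ⟨⟨δ, hδ, hiso⟩, -, -⟩ := hall _ (hcorr x hx0 hx)
      have hcont : ContinuousAt (fun y : ℝ => ((y : ℂ)⁻¹ - 1)) x := by
        apply ContinuousAt.sub _ continuousAt_const
        exact (Complex.continuous_ofReal.continuousAt).inv₀ hxc
      rw [Metric.continuousAt_iff] at hcont
      obtain ⟨δ₁, hδ₁, h2⟩ := hcont δ hδ
      refine ⟨min δ₁ x, lt_min hδ₁ hx0, ?_⟩
      intro y hy hyx
      have hy0 : 0 < y := by
        have := abs_lt.mp (lt_of_lt_of_le hyx (min_le_right _ _))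
        linarith [this.1]
      have h3 := hiso _ (hcorr y hy0 hy) (h2 (by rw [Real.dist_eq]; exact lt_of_lt_of_le hyx (min_le_left _ _)))
      have h4 : ((y : ℂ)⁻¹) = (x : ℂ)⁻¹ := by linear_combination h3
      have h5 := inv_injective h4
      exact_mod_cast h5)
    (by
      intro x hx hxe
      have hx0 : 0 < x := lt_of_lt_of_le hε hxe
      obtain ⟨-, -, hfin⟩ := hall _ (hcorr x hx0 hx)
      exact Submodule.finiteDimensional_of_le (hker x hx0))
  -- the `u n` have a definite component in the range of `P`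
  have hPu : ∀ n, 1 / 2 ≤ ‖P (u n : H)‖ ^ 2 := by
    intro n
    have h2 := hPest (T (u n) + u n)
    rw [hR2'] at h2
    have h3 : (inner ℂ (u n : H) (T (u n) + u n) : ℂ).re ≤ C + 1 := by
      rw [inner_add_right, Complex.add_re, re_inner_self, re_inner_comm]
      have := hC n
      have h4 : ‖(u n : H)‖ = 1 := hu.1 n
      rw [h4]; linarith
    have h4 : ‖(u n : H) - P (u n)‖ ^ 2 ≤ 1 / 2 := by
      refine le_trans h2 ?_
      calc ε * (inner ℂ (u n : H) (T (u n) + u n) : ℂ).re ≤ ε * (C + 1) := by gcongr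
        _ = 1 / 2 := by rw [hεdef]; field_simp
    -- Pythagoras
    have h5 : ‖(u n : H)‖ ^ 2 = ‖P (u n : H)‖ ^ 2 + ‖(u n : H) - P (u n)‖ ^ 2 := by
      have h6 : (inner ℂ (P (u n : H)) ((u n : H) - P (u n)) : ℂ) = 0 := by
        have h7 : (inner ℂ (P (u n : H)) ((u n : H) - P (u n)) : ℂ) = inner ℂ (u n : H) (P ((u n : H) - P (u n))) := by
          have := ContinuousLinearMap.adjoint_inner_left P ((u n : H) - P (u n)) (u n : H)
          rw [hPsa.adjoint_eq] at this
          exact this
        rw [h7, map_sub]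
        have h8 : P (P (u n : H)) = P (u n : H) := by
          have := congrArg (fun S : H →L[ℂ] H => S (u n : H)) hPP
          exact this
        rw [h8, sub_self, inner_zero_right]
      have h7 := norm_add_sq_eq_norm_sq_add_norm_sq_of_inner_eq_zero (𝕜 := ℂ) (P (u n : H)) ((u n : H) - P (u n)) h6
      rw [add_sub_cancel] at h7
      nlinarith [h7]
    have h6 : ‖(u n : H)‖ = 1 := hu.1 n
    rw [h6] at h5
    linarith
  -- but they tend weakly to zero
  have hweak : ∀ x : H, Tendsto (fun n => (inner ℂ (u n : H) x : ℂ)) atTop (𝓝 0) := by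
    intro x
    have h2 := hu.inner_products_summable x
    have h3 := h2.tendsto_atTop_zero
    rw [tendsto_zero_iff_norm_tendsto_zero]
    have h4 : Tendsto (fun n => Real.sqrt (‖(inner ℂ (u n : H) x : ℂ)‖ ^ 2)) atTop (𝓝 (Real.sqrt 0)) :=
      (Real.continuous_sqrt.tendsto 0).comp h3
    simpa using h4
  have hPto : Tendsto (fun n => ‖P (u n : H)‖ ^ 2) atTop (𝓝 0) := by
    let V := LinearMap.range (P : H →ₗ[ℂ] H)
    let b := stdOrthonormalBasis ℂ V
    have h2 : ∀ n, ‖P (u n : H)‖ ^ 2 = ∑ i, ‖(inner ℂ (u n : H) (b i : H) : ℂ)‖ ^ 2 := by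
      intro n
      let v : V := ⟨P (u n : H), ⟨u n, rfl⟩⟩
      have h3 := b.sum_sq_norm_inner_left v
      have h4 : ‖P (u n : H)‖ ^ 2 = ‖v‖ ^ 2 := rfl
      rw [h4, ← h3]
      apply Finset.sum_congr rfl
      intro i _
      have h5 : (inner ℂ v (b i) : ℂ) = inner ℂ (u n : H) (b i : H) := by
        have h6 : (inner ℂ v (b i) : ℂ) = inner ℂ (P (u n : H)) (b i : H) := rfl
        rw [h6]
        have h7 := ContinuousLinearMap.adjoint_inner_left P (b i : H) (u n : H)
        rw [hPsa.adjoint_eq] at h7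
        rw [h7]
        congr 1
        obtain ⟨w, hw⟩ := (b i).2
        have h8 : P (P w) = P w := by
          have := congrArg (fun S : H →L[ℂ] H => S w) hPP
          exact this
        rw [← hw]
        exact h8
      rw [h5]
    simp_rw [h2]
    have h3 : (0 : ℝ) = ∑ i : Fin (Module.finrank ℂ V), (0 : ℝ) := by simp
    rw [h3]
    apply tendsto_finsetSum
    intro i _
    have := ((hweak (b i : H)).norm).pow 2
    simpa using this
  have := ge_of_tendsto' hPto hPu
  norm_num at this

end Pool.Agent.MinSurf
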