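import Pool.Agent.Lib_helper22.Laplace
import Pool.Agent.Lib_helper22.Geometry
import Pool.Agent.Lib_helper22.Spectral

open Set Filter Complex MeasureTheory
open scoped Topology ComplexConjugate Real ContDiff ENNReal

noncomputable section

namespace Pool.Agent.MinSurf

namespace WData

variable {u v A B C : ℂ → ℂ}

lemma continuousOn_lam' (W : WData u v A B C) : ContinuousOn (lam u v) (Metric.ball 0 1) := by
  unfold lam
  exact (W.hu.continuousOn.norm.pow 2).add (W.hv.continuousOn.norm.pow 2)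

lemma mu_eq (W : WData u v A B C) : areaMeasure (phi A B C) (Metric.ball 0 1) =
    (volume.restrict (Metric.ball 0 1)).withDensity (fun z => ENNReal.ofReal (lam u v z ^ 2)) := by
  unfold areaMeasure
  apply withDensity_congr_ae
  filter_upwards [self_mem_ae_restrict measurableSet_ball] with z hz
  rw [W.areaDensity_eq hz]

lemma aemeas (W : WData u v A B C) :
    AEMeasurable (fun z => ENNReal.ofReal (lam u v z ^ 2)) (volume.restrict (Metric.ball (0 : ℂ) 1)) := by
  apply ENNReal.measurable_ofReal.comp_aemeasurable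
  exact (W.continuousOn_lam'.pow 2).aemeasurable measurableSet_ball

lemma ae_mem (W : WData u v A B C) :
    ∀ᵐ z ∂(areaMeasure (phi A B C) (Metric.ball 0 1)), z ∈ Metric.ball (0 : ℂ) 1 := by
  rw [W.mu_eq]
  exact (withDensity_absolutelyContinuous _ _).ae_le (self_mem_ae_restrict measurableSet_ball)

lemma integral_mu (W : WData u v A B C) (g : ℂ → ℂ) :
    ∫ z, g z ∂(areaMeasure (phi A B C) (Metric.ball 0 1)) =
      ∫ z in Metric.ball (0 : ℂ) 1, ((lam u v z ^ 2 : ℝ) : ℂ) * g z := by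
  rw [W.mu_eq, integral_withDensity_eq_integral_toReal_smul₀ W.aemeas
    (Eventually.of_forall fun z => ENNReal.ofReal_lt_top)]
  apply integral_congr_ae
  filter_upwards with z
  rw [ENNReal.toReal_ofReal (by positivity)]
  simp

lemma mu_compact (W : WData u v A B C) {K : Set ℂ} (hK : IsCompact K)
    (hKU : K ⊆ Metric.ball (0 : ℂ) 1) :
    areaMeasure (phi A B C) (Metric.ball 0 1) K < ⊤ := by
  obtain ⟨M, hM⟩ := hK.exists_bound_of_continuousOn (W.continuousOn_lam'.mono hKU)
  rw [W.mu_eq, withDensity_apply _ hK.measurableSet]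
  calc ∫⁻ z in K, ENNReal.ofReal (lam u v z ^ 2) ∂(volume.restrict (Metric.ball 0 1))
      ≤ ∫⁻ z in K, ENNReal.ofReal (M ^ 2) ∂(volume.restrict (Metric.ball 0 1)) := by
        apply setLIntegral_mono' hK.measurableSet
        intro z hz
        apply ENNReal.ofReal_le_ofReal
        have h := hM z hz
        rw [Real.norm_eq_abs] at h
        exact sq_le_sq' (by linarith [neg_abs_le (lam u v z)]) ((le_abs_self _).trans h)
    _ = ENNReal.ofReal (M ^ 2) * (volume.restrict (Metric.ball 0 1)) K := setLIntegral_const _ _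
    _ < ⊤ := by
        apply ENNReal.mul_lt_top ENNReal.ofReal_lt_top
        exact (Measure.restrict_apply_le _ _).trans_lt hK.measure_lt_top

lemma memLp_of (W : WData u v A B C) {K : Set ℂ} (hK : IsCompact K)
    (hKU : K ⊆ Metric.ball (0 : ℂ) 1) {g : ℂ → ℂ} (hg : ContinuousOn g (Metric.ball 0 1))
    (hg0 : ∀ z ∈ Metric.ball (0 : ℂ) 1, z ∉ K → g z = 0) :
    MemLp g 2 (areaMeasure (phi A B C) (Metric.ball 0 1)) := by
  set μ := areaMeasure (phi A B C) (Metric.ball 0 1) with hμ
  obtain ⟨M, hM⟩ := hK.exists_bound_of_continuousOn (hg.mono hKU)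
  have hfin : IsFiniteMeasure (μ.restrict K) := ⟨by
    rw [Measure.restrict_apply_univ]; exact W.mu_compact hK hKU⟩
  have h1 : MemLp g 2 (μ.restrict K) := by
    apply MemLp.of_bound ((hg.mono hKU).aestronglyMeasurable hK.measurableSet) M
    filter_upwards [self_mem_ae_restrict hK.measurableSet] with z hz
    exact hM z hz
  have h2 : MemLp (K.indicator g) 2 μ := (memLp_indicator_iff_restrict hK.measurableSet).mpr h1
  refine (memLp_congr_ae ?_).mp h2
  filter_upwards [W.ae_mem] with z hz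
  by_cases hzK : z ∈ K
  · rw [indicator_of_mem hzK]
  · rw [indicator_of_notMem hzK, hg0 z hz hzK]

lemma lb_eq (W : WData u v A B C) (f : ℂ → ℂ) {z : ℂ} (hz : z ∈ Metric.ball (0 : ℂ) 1) :
    laplaceBeltrami (phi A B C) f z = ((lam u v z ^ 2 : ℝ) : ℂ)⁻¹ * lap0 f z := by
  have hnhds : Metric.ball (0 : ℂ) 1 ∈ 𝓝 z := Metric.isOpen_ball.mem_nhds hz
  unfold laplaceBeltrami lap0
  rw [W.areaDensity_eq hz]
  congr 1
  have hne : ∀ w ∈ Metric.ball (0 : ℂ) 1, ((lam u v w ^ 2 : ℝ) : ℂ) ≠ 0 := by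
    intro w hw
    have := W.lam_pos hw
    have h2 : lam u v w ^ 2 ≠ 0 := by positivity
    exact_mod_cast h2
  congr 1
  · have h : (fun w => (areaDensity (phi A B C) w : ℂ)⁻¹ * ((GG (phi A B C) w : ℂ) * dx f w
        - (FF (phi A B C) w : ℂ) * dy f w)) =ᶠ[𝓝 z] dx f := by
      filter_upwards [hnhds] with w hw
      rw [W.areaDensity_eq hw, W.GG_eq hw, W.FF_eq hw, Complex.ofReal_zero, zero_mul, sub_zero,
        ← mul_assoc, inv_mul_cancel₀ (hne w hw), one_mul]
    unfold dx at h ⊢
    rw [h.fderiv_eq]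
  · have h : (fun w => (areaDensity (phi A B C) w : ℂ)⁻¹ * ((EE (phi A B C) w : ℂ) * dy f w
        - (FF (phi A B C) w : ℂ) * dx f w)) =ᶠ[𝓝 z] dy f := by
      filter_upwards [hnhds] with w hw
      rw [W.areaDensity_eq hw, W.EE_eq hw, W.FF_eq hw, Complex.ofReal_zero, zero_mul, sub_zero,
        ← mul_assoc, inv_mul_cancel₀ (hne w hw), one_mul]
    unfold dy at h ⊢
    rw [h.fderiv_eq]

end WData

lemma IsTestFunction.cc {U : Set ℂ} {f : ℂ → ℂ} (hf : IsTestFunction U f) : Cc f :=
  ⟨hf.smooth, hf.compact⟩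

lemma tsupport_dx_subset (f : ℂ → ℂ) : tsupport (dx f) ⊆ tsupport f := by
  apply closure_minimal _ (isClosed_tsupport _)
  intro z hz
  by_contra hcon
  apply hz
  have : fderiv ℝ f z = 0 := by
    by_contra h
    exact hcon (support_fderiv_subset ℝ h)
  simp [dx, this]

lemma tsupport_dy_subset (f : ℂ → ℂ) : tsupport (dy f) ⊆ tsupport f := by
  apply closure_minimal _ (isClosed_tsupport _)
  intro z hz
  by_contra hcon
  apply hz
  have : fderiv ℝ f z = 0 := by
    by_contra h
    exact hcon (support_fderiv_subset ℝ h)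
  simp [dy, this]

lemma lap0_eq_zero {f : ℂ → ℂ} {z : ℂ} (hz : z ∉ tsupport f) : lap0 f z = 0 := by
  have h1 : dx (dx f) z = 0 := by
    have : z ∉ tsupport (dx (dx f)) := fun h => hz (tsupport_dx_subset f (tsupport_dx_subset _ h))
    exact image_eq_zero_of_notMem_tsupport this
  have h2 : dy (dy f) z = 0 := by
    have : z ∉ tsupport (dy (dy f)) := fun h => hz (tsupport_dy_subset f (tsupport_dy_subset _ h))
    exact image_eq_zero_of_notMem_tsupport this
  rw [lap0, h1, h2, add_zero]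

/-- The operator `-Δ` with domain `C_c^∞(U)` in `L²`, given by its graph. -/
def negLaplacian (φ : ℂ → R3) (U : Set ℂ) : L2 φ U →ₗ.[ℂ] L2 φ U :=
  (Submodule.span ℂ {p : L2 φ U × L2 φ U | ∃ f : ℂ → ℂ, IsTestFunction U f ∧
    p.1 =ᵐ[areaMeasure φ U] f ∧
    p.2 =ᵐ[areaMeasure φ U] fun z => -laplaceBeltrami φ f z}).toLinearPMap

/-- The graph of `-Δ` on test functions. -/
def graphSet (φ : ℂ → R3) (U : Set ℂ) : Set (L2 φ U × L2 φ U) :=
  {p | ∃ f : ℂ → ℂ, IsTestFunction U f ∧ p.1 =ᵐ[areaMeasure φ U] f ∧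
    p.2 =ᵐ[areaMeasure φ U] fun z => -laplaceBeltrami φ f z}

namespace WData

variable {u v A B C : ℂ → ℂ}

lemma memLp_test (W : WData u v A B C) {f : ℂ → ℂ} (hf : IsTestFunction (Metric.ball 0 1) f) :
    MemLp f 2 (areaMeasure (phi A B C) (Metric.ball 0 1)) :=
  W.memLp_of hf.compact hf.supp hf.smooth.continuous.continuousOn
    (fun _ _ hz => image_eq_zero_of_notMem_tsupport hz)

lemma memLp_lb (W : WData u v A B C) {f : ℂ → ℂ} (hf : IsTestFunction (Metric.ball 0 1) f) :
    MemLp (fun z => -laplaceBeltrami (phi A B C) f z) 2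
      (areaMeasure (phi A B C) (Metric.ball 0 1)) := by
  apply W.memLp_of (K := tsupport f) hf.compact hf.supp
  · have h : ContinuousOn (fun z => -(((lam u v z ^ 2 : ℝ) : ℂ)⁻¹ * lap0 f z)) (Metric.ball 0 1) := by
      apply ContinuousOn.neg
      apply ContinuousOn.mul
      · apply ContinuousOn.inv₀
        · exact Complex.continuous_ofReal.comp_continuousOn (W.continuousOn_lam'.pow 2)
        · intro z hz
          have := W.lam_pos hz
          have h2 : lam u v z ^ 2 ≠ 0 := by positivity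
          exact_mod_cast h2
      · exact hf.cc.lap0.smooth.continuous.continuousOn
    refine h.congr ?_
    intro z hz
    simp only
    rw [W.lb_eq f hz]
  · intro z hz hzK
    rw [W.lb_eq f hz, lap0_eq_zero hzK, mul_zero, neg_zero]

lemma exists_mem_graphSet (W : WData u v A B C) {f : ℂ → ℂ}
    (hf : IsTestFunction (Metric.ball 0 1) f) :
    ((W.memLp_test hf).toLp f, (W.memLp_lb hf).toLp _) ∈ graphSet (phi A B C) (Metric.ball 0 1) :=
  ⟨f, hf, MemLp.coeFn_toLp (W.memLp_test hf), MemLp.coeFn_toLp (W.memLp_lb hf)⟩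

lemma inner_formula (W : WData u v A B C) {f g : ℂ → ℂ}
    (hf : IsTestFunction (Metric.ball 0 1) f) (hg : IsTestFunction (Metric.ball 0 1) g)
    {b a : L2 (phi A B C) (Metric.ball 0 1)}
    (hb : b =ᵐ[areaMeasure (phi A B C) (Metric.ball 0 1)] fun z => -laplaceBeltrami (phi A B C) f z)
    (ha : a =ᵐ[areaMeasure (phi A B C) (Metric.ball 0 1)] g) :
    (inner ℂ b a : ℂ) = - ∫ z, conj (lap0 f z) * g z := by
  rw [L2.inner_def]
  have h1 : ∫ z, (inner ℂ (b z) (a z) : ℂ) ∂(areaMeasure (phi A B C) (Metric.ball 0 1))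
      = ∫ z, -(((lam u v z ^ 2 : ℝ) : ℂ)⁻¹ * (conj (lap0 f z) * g z))
        ∂(areaMeasure (phi A B C) (Metric.ball 0 1)) := by
    apply integral_congr_ae
    filter_upwards [hb, ha, W.ae_mem] with z hz1 hz2 hz3
    rw [hz1, hz2, W.lb_eq f hz3, RCLike.inner_apply]
    simp only [map_neg, map_mul, map_inv₀, Complex.conj_ofReal]
    ring
  rw [h1, W.integral_mu]
  have h2 : ∫ z in Metric.ball (0 : ℂ) 1, ((lam u v z ^ 2 : ℝ) : ℂ) *
      -(((lam u v z ^ 2 : ℝ) : ℂ)⁻¹ * (conj (lap0 f z) * g z))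
      = ∫ z in Metric.ball (0 : ℂ) 1, -(conj (lap0 f z) * g z) := by
    apply setIntegral_congr_fun measurableSet_ball
    intro z hz
    have hne : ((lam u v z ^ 2 : ℝ) : ℂ) ≠ 0 := by
      have := W.lam_pos hz
      have h2 : lam u v z ^ 2 ≠ 0 := by positivity
      exact_mod_cast h2
    simp only
    rw [mul_neg, ← mul_assoc, mul_inv_cancel₀ hne, one_mul]
  rw [h2, integral_neg]
  congr 1
  apply setIntegral_eq_integral_of_forall_compl_eq_zero
  intro z hz
  have : z ∉ tsupport g := fun h => hz (hg.supp h)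
  rw [image_eq_zero_of_notMem_tsupport this, mul_zero]

lemma inner_formula' (W : WData u v A B C) {f g : ℂ → ℂ}
    (hf : IsTestFunction (Metric.ball 0 1) f) (hg : IsTestFunction (Metric.ball 0 1) g)
    {b a : L2 (phi A B C) (Metric.ball 0 1)}
    (hb : b =ᵐ[areaMeasure (phi A B C) (Metric.ball 0 1)] fun z => -laplaceBeltrami (phi A B C) f z)
    (ha : a =ᵐ[areaMeasure (phi A B C) (Metric.ball 0 1)] g) :
    (inner ℂ a b : ℂ) = - ∫ z, conj (g z) * lap0 f z := by
  rw [← inner_conj_symm, W.inner_formula hf hg hb ha, map_neg, ← integral_conj]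
  congr 1
  apply integral_congr_ae
  filter_upwards with z
  rw [map_mul, Complex.conj_conj, mul_comm]

lemma graph_symm (W : WData u v A B C) {p q : L2 (phi A B C) (Metric.ball 0 1) ×
    L2 (phi A B C) (Metric.ball 0 1)} (hp : p ∈ graphSet (phi A B C) (Metric.ball 0 1))
    (hq : q ∈ graphSet (phi A B C) (Metric.ball 0 1)) :
    (inner ℂ p.2 q.1 : ℂ) = inner ℂ p.1 q.2 := by
  obtain ⟨f, hf, hf1, hf2⟩ := hp
  obtain ⟨g, hg, hg1, hg2⟩ := hq
  rw [W.inner_formula hf hg hf2 hg1, W.inner_formula' hg hf hg2 hf1, hf.cc.lap_symm hg.cc]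

lemma graph_nonneg (W : WData u v A B C) {p : L2 (phi A B C) (Metric.ball 0 1) ×
    L2 (phi A B C) (Metric.ball 0 1)} (hp : p ∈ graphSet (phi A B C) (Metric.ball 0 1)) :
    0 ≤ (inner ℂ p.2 p.1 : ℂ).re := by
  obtain ⟨f, hf, hf1, hf2⟩ := hp
  rw [W.inner_formula hf hf hf2 hf1, Complex.neg_re]
  have := hf.cc.lap_neg
  linarith

lemma graph_dense (W : WData u v A B C) {b : L2 (phi A B C) (Metric.ball 0 1)}
    (hb : ∀ q ∈ graphSet (phi A B C) (Metric.ball 0 1), (inner ℂ b q.1 : ℂ) = 0) : b = 0 := by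
  set μ := areaMeasure (phi A B C) (Metric.ball 0 1) with hμ
  have hloc : LocallyIntegrableOn (fun z => conj (b z)) (Metric.ball 0 1) μ := by
    rw [locallyIntegrableOn_iff Metric.isOpen_ball.isLocallyClosed]
    intro K hKU hK
    have hfin : IsFiniteMeasure (μ.restrict K) := ⟨by
      rw [Measure.restrict_apply_univ]; exact W.mu_compact hK hKU⟩
    have h1 : MemLp b 2 (μ.restrict K) := (Lp.memLp b).restrict K
    have h2 : MemLp b 1 (μ.restrict K) := h1.mono_exponent (by norm_num)
    have h3 : Integrable b (μ.restrict K) := memLp_one_iff_integrable.mp h2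
    exact (Complex.conjCLE.toContinuousLinearMap.integrable_comp h3)
  have h0 := Metric.isOpen_ball.ae_eq_zero_of_integral_contDiff_smul_eq_zero hloc ?_
  · rw [Lp.eq_zero_iff_ae_eq_zero]
    filter_upwards [h0, W.ae_mem] with z hz1 hz2
    have := hz1 hz2
    simpa using this
  · intro g hg1 hg2 hg3
    have hgt : IsTestFunction (Metric.ball 0 1) (fun z => ((g z : ℝ) : ℂ)) := by
      refine ⟨Complex.ofRealCLM.contDiff.comp hg1, hg2.comp_left Complex.ofReal_zero, ?_⟩
      refine (closure_mono ?_).trans hg3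
      intro z hz
      simpa using hz
    have h1 := hb _ (W.exists_mem_graphSet hgt)
    simp only at h1
    rw [L2.inner_def] at h1
    refine Eq.trans ?_ h1
    apply integral_congr_ae
    filter_upwards [MemLp.coeFn_toLp (W.memLp_test hgt)] with z hz
    rw [hz, RCLike.inner_apply]
    simp

end WData

end Pool.Agent.MinSurf
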