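import Pool.Agent.Lib_helper22.Approx

open Set Filter Complex
open scoped Topology ComplexConjugate Real

noncomputable section

namespace Pool.Agent.MinSurf

lemma qform_sub_le (a b c : ℂ) {p q p' q' : ℂ} {η R : ℝ} (hη : 0 ≤ η) (hR : 0 ≤ R)
    (hp : ‖p - p'‖ ≤ η) (hq : ‖q - q'‖ ≤ η) (hp' : ‖p'‖ ≤ R) (hq' : ‖q'‖ ≤ R) :
    ‖qform a b c p q - qform a b c p' q'‖ ≤
      (2 * ‖a - conj b‖ + 2 * |2 * c.re|) * (η * (2 * R + η)) := by
  have key : ∀ x y x' y' : ℂ, ‖x - x'‖ ≤ η → ‖y - y'‖ ≤ η → ‖x'‖ ≤ R → ‖y'‖ ≤ R →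
      ‖x * y - x' * y'‖ ≤ η * (2 * R + η) := by
    intro x y x' y' h1 h2 h3 h4
    have e : x * y - x' * y' = (x - x') * (y - y') + (x - x') * y' + x' * (y - y') := by ring
    rw [e]
    refine norm_add₃_le.trans ?_
    rw [norm_mul, norm_mul, norm_mul]
    have i1 : ‖x - x'‖ * ‖y - y'‖ ≤ η * η := by gcongr
    have i2 : ‖x - x'‖ * ‖y'‖ ≤ η * R := by gcongr
    have i3 : ‖x'‖ * ‖y - y'‖ ≤ R * η := by gcongr
    linarith
  have e : qform a b c p q - qform a b c p' q' =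
      conj (a - conj b) * (p * p - p' * p') + 2 * ((2 * c.re : ℝ) : ℂ) * (p * q - p' * q')
        - (a - conj b) * (q * q - q' * q') := by
    unfold qform; ring
  rw [e]
  have k1 := key p p p' p' hp hp hp' hp'
  have k2 := key p q p' q' hp hq hp' hq'
  have k3 := key q q q' q' hq hq hq' hq'
  have j1 : ‖conj (a - conj b) * (p * p - p' * p')‖ ≤ ‖a - conj b‖ * (η * (2 * R + η)) := by
    rw [norm_mul, Complex.norm_conj]; gcongr
  have j2 : ‖2 * ((2 * c.re : ℝ) : ℂ) * (p * q - p' * q')‖ ≤ 2 * |2 * c.re| * (η * (2 * R + η)) := by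
    rw [norm_mul, norm_mul, Complex.norm_real, Real.norm_eq_abs, Complex.norm_ofNat]; gcongr
  have j3 : ‖(a - conj b) * (q * q - q' * q')‖ ≤ ‖a - conj b‖ * (η * (2 * R + η)) := by
    rw [norm_mul]; gcongr
  calc _ ≤ ‖conj (a - conj b) * (p * p - p' * p')‖ + ‖2 * ((2 * c.re : ℝ) : ℂ) * (p * q - p' * q')‖
        + ‖(a - conj b) * (q * q - q' * q')‖ := (norm_sub_le _ _).trans (by gcongr; exact norm_add_le _ _)
    _ ≤ _ := by linarith

/-- A spinor polynomial of size about `√r` on the unit circle that is almost orthogonal to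
the position vector. -/
lemma orth_spinor {A B C : ℂ → ℂ} (hA : Continuous A) (hB : Continuous B) (hC : Continuous C)
    (hw : ∀ z, ‖z‖ = 1 → A z - conj (B z) ≠ 0) {r ε : ℝ} (hr : 0 < r) (hε : 0 < ε) :
    ∃ P Q : ℂ → ℂ, Differentiable ℂ P ∧ Differentiable ℂ Q ∧ ∀ z, ‖z‖ = 1 →
      ‖qform (A z) (B z) (C z) (P z) (Q z)‖ < ε ∧ r / 2 < ‖P z‖ ^ 2 + ‖Q z‖ ^ 2 ∧
        ‖P z‖ ^ 2 + ‖Q z‖ ^ 2 < 2 * r := by
  set w : ℂ → ℂ := fun z => A z - conj (B z) with hwdef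
  have hwc : Continuous w := hA.sub (Complex.continuous_conj.comp hB)
  set h : ℂ → ℝ := fun z => 2 * (C z).re with hhdef
  have hhc : Continuous h := continuous_const.mul (Complex.continuous_re.comp hC)
  set n : ℂ → ℝ := fun z => Real.sqrt (‖w z‖ ^ 2 + h z ^ 2) with hndef
  have hnc : Continuous n := ((hwc.norm.pow 2).add (hhc.pow 2)).sqrt
  have hn2 : ∀ z, n z ^ 2 = ‖w z‖ ^ 2 + h z ^ 2 := fun z => Real.sq_sqrt (by positivity)
  set S : ℂ → ℝ := fun z => (n z - h z) ^ 2 + ‖w z‖ ^ 2 with hSdef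
  have hSc : Continuous S := ((hnc.sub hhc).pow 2).add (hwc.norm.pow 2)
  have hSpos : ∀ z, ‖z‖ = 1 → 0 < S z := by
    intro z hz
    have : 0 < ‖w z‖ := norm_pos_iff.mpr (hw z hz)
    positivity
  set κ : ℂ → ℝ := fun z => Real.sqrt (r / S z) with hκdef
  have hκc : ContinuousOn κ (Metric.sphere 0 1) := by
    apply ContinuousOn.sqrt
    apply continuousOn_const.div hSc.continuousOn
    intro z hz
    exact (hSpos z (by simpa using hz)).ne'
  have hκ2 : ∀ z, ‖z‖ = 1 → κ z ^ 2 * S z = r := by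
    intro z hz
    have := hSpos z hz
    rw [hκdef, Real.sq_sqrt (by positivity)]
    field_simp
  have hκ0 : ∀ z, 0 ≤ κ z := fun z => Real.sqrt_nonneg _
  set f : ℂ → ℂ := fun z => (κ z : ℂ) * ((n z - h z : ℝ) : ℂ) with hfdef
  set g : ℂ → ℂ := fun z => (κ z : ℂ) * conj (w z) with hgdef
  have hfc : ContinuousOn f (Metric.sphere 0 1) :=
    (Complex.continuous_ofReal.comp_continuousOn hκc).mul
      (Complex.continuous_ofReal.comp (hnc.sub hhc)).continuousOn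
  have hgc : ContinuousOn g (Metric.sphere 0 1) :=
    (Complex.continuous_ofReal.comp_continuousOn hκc).mul
      (Complex.continuous_conj.comp hwc).continuousOn
  have hfg : ∀ z, ‖z‖ = 1 → ‖f z‖ ^ 2 + ‖g z‖ ^ 2 = r := by
    intro z hz
    rw [hfdef, hgdef]
    simp only [norm_mul, Complex.norm_real, Complex.norm_conj, Real.norm_eq_abs, mul_pow, sq_abs]
    rw [← hκ2 z hz, hSdef]
    ring
  have hq0 : ∀ z, qform (A z) (B z) (C z) (f z) (g z) = 0 := by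
    intro z
    have e1 : (A z - conj (B z)) = w z := rfl
    have e2 : (2 * (C z).re : ℝ) = h z := rfl
    unfold qform
    rw [e1, e2]
    have e3 : w z * conj (w z) = ((‖w z‖ ^ 2 : ℝ) : ℂ) := by
      rw [Complex.mul_conj, Complex.normSq_eq_norm_sq]
    have e4 : ((‖w z‖ ^ 2 : ℝ) : ℂ) = ((n z ^ 2 - h z ^ 2 : ℝ) : ℂ) := by
      congr 1; rw [hn2 z]; ring
    rw [e4] at e3
    simp only [hfdef, hgdef]
    push_cast at e3 ⊢
    linear_combination (-(κ z : ℂ) ^ 2 * conj (w z)) * e3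
  -- bounds on the circle
  obtain ⟨Mw, hMw⟩ := (isCompact_closedBall (0 : ℂ) 1).exists_bound_of_continuousOn
    hwc.continuousOn
  obtain ⟨Mh, hMh⟩ := (isCompact_closedBall (0 : ℂ) 1).exists_bound_of_continuousOn
    hhc.continuousOn
  have hMw0 : 0 ≤ Mw := le_trans (norm_nonneg _) (hMw 0 (by simp))
  have hMh0 : 0 ≤ Mh := le_trans (norm_nonneg _) (hMh 0 (by simp))
  set R : ℝ := Real.sqrt r with hR
  have hR0 : 0 < R := Real.sqrt_pos.mpr hr
  have hR2 : R ^ 2 = r := Real.sq_sqrt hr.le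
  set η : ℝ := min 1 (min ε r / (8 * (2 * R + 1) * (Mw + Mh + 1))) with hη
  have hη0 : 0 < η := by positivity
  have hη1 : η ≤ 1 := min_le_left _ _
  have hη2 : η * (8 * (2 * R + 1) * (Mw + Mh + 1)) ≤ min ε r := by
    have : η ≤ min ε r / (8 * (2 * R + 1) * (Mw + Mh + 1)) := min_le_right _ _
    rwa [le_div_iff₀ (by positivity)] at this
  have hη3 : (η * (2 * R + η)) * (8 * (Mw + Mh + 1)) ≤ min ε r := by
    calc (η * (2 * R + η)) * (8 * (Mw + Mh + 1)) ≤ (η * (2 * R + 1)) * (8 * (Mw + Mh + 1)) := by gcongr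
      _ = η * (8 * (2 * R + 1) * (Mw + Mh + 1)) := by ring
      _ ≤ _ := hη2
  obtain ⟨m, P, Q, hP, hQ, happ⟩ := circle_approx₂ hfc hgc hη0
  refine ⟨P, Q, hP, hQ, ?_⟩
  intro z hz
  obtain ⟨h1, h2⟩ := happ z hz
  have hzb : z ∈ Metric.closedBall (0 : ℂ) 1 := by simp [hz]
  have hf1 : ‖z ^ m * f z‖ ≤ R := by
    rw [norm_mul, norm_pow, hz, one_pow, one_mul]
    apply le_of_sq_le_sq _ hR0.le
    rw [hR2, ← hfg z hz]; nlinarith [sq_nonneg ‖g z‖]
  have hg1 : ‖z ^ m * g z‖ ≤ R := by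
    rw [norm_mul, norm_pow, hz, one_pow, one_mul]
    apply le_of_sq_le_sq _ hR0.le
    rw [hR2, ← hfg z hz]; nlinarith [sq_nonneg ‖f z‖]
  have hE0 : 0 < η * (2 * R + η) := by positivity
  refine ⟨?_, ?_⟩
  · have h3 := qform_sub_le (A z) (B z) (C z) hη0.le hR0.le h1.le h2.le hf1 hg1
    have h4 : qform (A z) (B z) (C z) (z ^ m * f z) (z ^ m * g z) = 0 := by
      have : qform (A z) (B z) (C z) (z ^ m * f z) (z ^ m * g z)
        = (z ^ m) ^ 2 * qform (A z) (B z) (C z) (f z) (g z) := by unfold qform; ring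
      rw [this, hq0, mul_zero]
    rw [h4, sub_zero] at h3
    refine lt_of_le_of_lt h3 ?_
    have h5 : ‖A z - conj (B z)‖ ≤ Mw := hMw z hzb
    have h6 : |2 * (C z).re| ≤ Mh := hMh z hzb
    have h7 : (2 * ‖A z - conj (B z)‖ + 2 * |2 * (C z).re|) * (η * (2 * R + η))
        ≤ (2 * Mw + 2 * Mh) * (η * (2 * R + η)) := by gcongr
    have h8 : min ε r ≤ ε := min_le_left _ _
    nlinarith
  · have h3 : ∀ x y : ℂ, ‖x - y‖ < η → ‖y‖ ≤ R → |‖x‖ ^ 2 - ‖y‖ ^ 2| ≤ η * (2 * R + η) := by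
      intro x y hxy hy
      have h1 : |‖x‖ - ‖y‖| ≤ η := (abs_norm_sub_norm_le x y).trans hxy.le
      have h2 : ‖x‖ ≤ ‖y‖ + η := by linarith [(abs_le.mp h1).2]
      have e : ‖x‖ ^ 2 - ‖y‖ ^ 2 = (‖x‖ - ‖y‖) * (‖x‖ + ‖y‖) := by ring
      rw [e, abs_mul, abs_of_nonneg (a := ‖x‖ + ‖y‖) (by positivity)]
      apply mul_le_mul h1 (by linarith) (by positivity) hη0.le
    have h4 := abs_le.mp (h3 _ _ h1 hf1)
    have h5 := abs_le.mp (h3 _ _ h2 hg1)
    have h6 : ‖z ^ m * f z‖ ^ 2 + ‖z ^ m * g z‖ ^ 2 = r := by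
      have hzm : ∀ x : ℂ, ‖z ^ m * x‖ = ‖x‖ := by
        intro x; rw [norm_mul, norm_pow, hz, one_pow, one_mul]
      rw [hzm, hzm]; exact hfg z hz
    have h7 : η * (2 * R + η) ≤ r / 8 := by
      have h8 : min ε r ≤ r := min_le_right _ _
      nlinarith
    constructor <;> nlinarith [h4.1, h4.2, h5.1, h5.2]

end Pool.Agent.MinSurf
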