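import Mathlib

open Set Filter Complex
open scoped Topology ComplexConjugate Real

noncomputable section

namespace Pool.Agent.MinSurf

lemma peak_bound {ζ z : ℂ} (hζ : ‖ζ‖ = 1) (hz : ‖z‖ ≤ 1) :
    ‖(1 + conj ζ * z) / 2‖ ^ 2 ≤ 1 - ‖z - ζ‖ ^ 2 / 4 := by
  have h1 : ‖(1 + conj ζ * z) / 2‖ ^ 2 = ‖1 + conj ζ * z‖ ^ 2 / 4 := by
    rw [norm_div, div_pow]; norm_num
  have h2 : ‖z - ζ‖ = ‖1 - conj ζ * z‖ := by
    have e : 1 - conj ζ * z = -(conj ζ * (z - ζ)) := by
      have : conj ζ * ζ = 1 := by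
        rw [mul_comm, Complex.mul_conj, Complex.normSq_eq_norm_sq, hζ]; norm_num
      linear_combination -this
    rw [e, norm_neg, norm_mul, Complex.norm_conj, hζ, one_mul]
  have h3 := parallelogram_law_with_norm ℝ (1 : ℂ) (conj ζ * z)
  have h4 : ‖conj ζ * z‖ ≤ 1 := by rw [norm_mul, Complex.norm_conj, hζ, one_mul]; exact hz
  rw [norm_one] at h3
  have h5 : ‖conj ζ * z‖ * ‖conj ζ * z‖ ≤ 1 := by
    have := norm_nonneg (conj ζ * z)
    nlinarith
  rw [h1, h2]
  nlinarith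

/-- Boundary points and exponents of the peak functions. -/
lemma exists_peaks : ∃ (ζ : ℕ → ℂ) (k : ℕ → ℕ), (∀ n, ‖ζ n‖ = 1) ∧
    ∀ m : ℕ, ∀ z : ℂ, ‖z‖ ≤ 1 →
      ∑ n ∈ Finset.range m, ‖((1 + conj (ζ n) * z) / 2) ^ (k n)‖ ^ 2 ≤ 2 := by
  set y : ℕ → ℝ := fun n => (1 / 2) ^ (n + 1) with hy
  have hy0 : ∀ n, 0 < y n := fun n => by positivity
  have hy1 : ∀ n, y n ≤ 1 := fun n => pow_le_one₀ (by norm_num) (by norm_num)
  set ζ : ℕ → ℂ := fun n => ⟨Real.sqrt (1 - y n ^ 2), y n⟩ with hζ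
  have hζ1 : ∀ n, ‖ζ n‖ = 1 := by
    intro n
    have h1 : ‖ζ n‖ ^ 2 = 1 := by
      rw [Complex.sq_norm, Complex.normSq_apply]
      simp only [hζ]
      rw [Real.mul_self_sqrt (by nlinarith [hy0 n, hy1 n])]
      ring
    have h2 := norm_nonneg (ζ n)
    nlinarith
  set η : ℕ → ℝ := fun n => y n / 8 with hη
  have hη0 : ∀ n, 0 < η n := fun n => by have := hy0 n; simp only [hη]; positivity
  have hsep : ∀ n m, n < m → η n + η m ≤ ‖ζ n - ζ m‖ := by
    intro n m hnm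
    have h1 : |(ζ n - ζ m).im| ≤ ‖ζ n - ζ m‖ := abs_im_le_norm _
    have h2 : (ζ n - ζ m).im = y n - y m := by simp [hζ]
    have h3 : y m ≤ y n / 2 := by
      have : y m ≤ y (n + 1) := pow_le_pow_of_le_one (by norm_num) (by norm_num) (by omega)
      have e : y (n + 1) = y n / 2 := by simp only [hy]; ring
      linarith
    have h4 : y n - y m ≤ |(ζ n - ζ m).im| := by rw [h2]; exact le_abs_self _
    have := hy0 n
    simp only [hη]
    linarith
  have hk : ∀ n, ∃ k : ℕ, (1 - η n ^ 2 / 4) ^ k ≤ (1 / 2) ^ (n + 1) := by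
    intro n
    have h0 := hη0 n
    have h1 : η n ≤ 1 := by have := hy1 n; simp only [hη]; linarith [hy0 n]
    have h2 : 0 ≤ 1 - η n ^ 2 / 4 := by nlinarith
    have h3 : 1 - η n ^ 2 / 4 < 1 := by nlinarith [sq_pos_of_pos h0]
    obtain ⟨k, hk⟩ := exists_pow_lt_of_lt_one (show (0 : ℝ) < (1 / 2) ^ (n + 1) by positivity) h3
    exact ⟨k, hk.le⟩
  choose k hk using hk
  refine ⟨ζ, k, hζ1, ?_⟩
  intro m z hz
  set b : ℕ → ℝ := fun n => ‖((1 + conj (ζ n) * z) / 2) ^ (k n)‖ ^ 2 with hb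
  have hb1 : ∀ n, b n ≤ 1 := by
    intro n
    have h1 := peak_bound (hζ1 n) hz
    have h2 : ‖(1 + conj (ζ n) * z) / 2‖ ^ 2 ≤ 1 := by nlinarith [sq_nonneg ‖z - ζ n‖]
    simp only [hb]
    rw [norm_pow, ← pow_mul, mul_comm (k n) 2, pow_mul]
    exact pow_le_one₀ (by positivity) h2
  have hb2 : ∀ n, η n ≤ ‖z - ζ n‖ → b n ≤ (1 / 2) ^ (n + 1) := by
    intro n hn
    have h1 := peak_bound (hζ1 n) hz
    have h2 : ‖(1 + conj (ζ n) * z) / 2‖ ^ 2 ≤ 1 - η n ^ 2 / 4 := by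
      have := hη0 n
      nlinarith
    simp only [hb]
    rw [norm_pow, ← pow_mul, mul_comm (k n) 2, pow_mul]
    exact (pow_le_pow_left₀ (by positivity) h2 _).trans (hk n)
  have hgeo : ∑ n ∈ Finset.range m, ((1 : ℝ) / 2) ^ (n + 1) ≤ 1 := by
    have : ∀ m : ℕ, ∑ n ∈ Finset.range m, ((1 : ℝ) / 2) ^ (n + 1) = 1 - (1 / 2) ^ m := by
      intro m
      induction m with
      | zero => simp
      | succ m ih => rw [Finset.sum_range_succ, ih]; ring
    rw [this]
    have : (0 : ℝ) ≤ (1 / 2) ^ m := by positivity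
    linarith
  by_cases hex : ∃ n0, ‖z - ζ n0‖ < η n0
  · obtain ⟨n0, hn0⟩ := hex
    have h1 : ∀ n ∈ Finset.range m, b n ≤ (1 / 2) ^ (n + 1) + (if n = n0 then (1 : ℝ) else 0) := by
      intro n _
      by_cases hn : n = n0
      · rw [if_pos hn]
        have := hb1 n
        have : (0 : ℝ) ≤ (1 / 2) ^ (n + 1) := by positivity
        linarith
      · rw [if_neg hn, add_zero]
        apply hb2
        by_contra hcon
        push Not at hcon
        have h2 : ‖ζ n - ζ n0‖ < η n + η n0 := by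
          have e : ζ n - ζ n0 = (z - ζ n0) - (z - ζ n) := by ring
          rw [e]
          refine lt_of_le_of_lt (norm_sub_le _ _) ?_
          linarith
        rcases lt_or_gt_of_ne hn with h | h
        · exact absurd (hsep n n0 h) (not_le.mpr h2)
        · have := hsep n0 n h
          rw [norm_sub_rev] at this
          linarith
    calc ∑ n ∈ Finset.range m, b n
        ≤ ∑ n ∈ Finset.range m, ((1 / 2) ^ (n + 1) + (if n = n0 then (1 : ℝ) else 0)) :=
          Finset.sum_le_sum h1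
      _ = ∑ n ∈ Finset.range m, ((1 : ℝ) / 2) ^ (n + 1)
          + ∑ n ∈ Finset.range m, (if n = n0 then (1 : ℝ) else 0) := Finset.sum_add_distrib
      _ ≤ 1 + 1 := by
          apply add_le_add hgeo
          rw [Finset.sum_ite_eq']
          split_ifs <;> norm_num
      _ = 2 := by norm_num
  · push Not at hex
    calc ∑ n ∈ Finset.range m, b n ≤ ∑ n ∈ Finset.range m, ((1 : ℝ) / 2) ^ (n + 1) :=
          Finset.sum_le_sum fun n _ => hb2 n (hex n)
      _ ≤ 2 := by linarith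

end Pool.Agent.MinSurf
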