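import Pool.Agent.Lib_helper22.Defs

open Set Filter Complex
open scoped Topology

noncomputable section

namespace Pool.Agent.MinSurf

/-- If `G 0 = 0` and `|G'(z)| ≤ K |z|^N` on the closed unit disc then `|G| ≤ K / (N+1)` there. -/
lemma radial_bound {G G' : ℂ → ℂ} (hG : ∀ z, HasDerivAt G (G' z) z) (h0 : G 0 = 0)
    {K : ℝ} {N : ℕ} (hK : ∀ z, ‖z‖ ≤ 1 → ‖G' z‖ ≤ K * ‖z‖ ^ N) :
    ∀ z, ‖z‖ ≤ 1 → ‖G z‖ ≤ K / (N + 1) := by
  intro z hz
  have hK0 : 0 ≤ K := by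
    have := hK 1 (by simp)
    simp at this
    exact le_trans (norm_nonneg _) this
  have hd : ∀ t : ℝ, HasDerivAt (fun t : ℝ => G (t * z)) (G' (t * z) * z) t := by
    intro t
    have h1 : HasDerivAt (fun t : ℝ => (t : ℂ) * z) z t := by
      have := (Complex.ofRealCLM.hasDerivAt (x := t)).mul_const z
      simpa using this
    exact HasDerivAt.comp_of_eq t (hG (t * z)) h1 rfl
  have := image_norm_le_of_norm_deriv_right_le_deriv_boundary (a := 0) (b := 1)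
    (f := fun t : ℝ => G (t * z)) (f' := fun t : ℝ => G' (t * z) * z)
    (B := fun t => K / (N + 1) * t ^ (N + 1)) (B' := fun t => K * t ^ N)
    (fun t _ => (hd t).continuousAt.continuousWithinAt)
    (fun t _ => (hd t).hasDerivWithinAt) (by simp [h0])
    (by
      intro t
      have h1 := (hasDerivAt_pow (N + 1) t).const_mul (K / (N + 1))
      refine h1.congr_deriv ?_
      push_cast
      field_simp)
    (by
      intro t ht
      rw [norm_mul]
      have h1 : ‖(t : ℂ) * z‖ ≤ 1 := by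
        rw [norm_mul, Complex.norm_real, Real.norm_eq_abs, abs_of_nonneg ht.1]
        nlinarith [norm_nonneg z, ht.1, ht.2]
      have h2 := hK _ h1
      have h3 : ‖(t : ℂ) * z‖ ^ N ≤ t ^ N := by
        apply pow_le_pow_left₀ (norm_nonneg _)
        rw [norm_mul, Complex.norm_real, Real.norm_eq_abs, abs_of_nonneg ht.1]
        nlinarith [norm_nonneg z, ht.1, ht.2]
      calc ‖G' (t * z)‖ * ‖z‖ ≤ (K * t ^ N) * 1 := by
            apply mul_le_mul (h2.trans (by gcongr)) hz (norm_nonneg _)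
            have := ht.1; positivity
        _ = K * t ^ N := by ring)
    (x := 1) (by simp)
  simpa using this

/-- One component of the Riemann-Hilbert deformation. -/
lemma rh_component {f1 f2 P1 P2 H : ℂ → ℂ} (hf1 : Differentiable ℂ f1)
    (hf2 : Differentiable ℂ f2) (hP1 : Differentiable ℂ P1) (hP2 : Differentiable ℂ P2)
    (hH : ∀ z, HasDerivAt H (f1 z * f2 z) z) :
    ∃ M : ℝ, 0 ≤ M ∧ ∀ N : ℕ, ∃ HN : ℂ → ℂ,
      (∀ z, HasDerivAt HN ((f1 z + (Real.sqrt (2 * N + 1) : ℂ) * z ^ N * P1 z) *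
        (f2 z + (Real.sqrt (2 * N + 1) : ℂ) * z ^ N * P2 z)) z) ∧
      ∀ z, ‖z‖ ≤ 1 → ‖HN z - H z - z ^ (2 * N + 1) * (P1 z * P2 z)‖
        ≤ M * Real.sqrt (2 * N + 1) / (N + 1) := by
  have hP : Differentiable ℂ (fun z => P1 z * P2 z) := hP1.mul hP2
  have hP' : Differentiable ℂ (deriv (fun z => P1 z * P2 z)) := by
    intro z
    exact (hP.analyticAt z).deriv.differentiableAt
  obtain ⟨M1, hM1⟩ := (isCompact_closedBall (0 : ℂ) 1).exists_bound_of_continuousOn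
    (f := fun z => f1 z * P2 z + f2 z * P1 z)
    ((hf1.continuous.mul hP2.continuous).add (hf2.continuous.mul hP1.continuous)).continuousOn
  obtain ⟨M2, hM2⟩ := (isCompact_closedBall (0 : ℂ) 1).exists_bound_of_continuousOn
    (f := deriv (fun z => P1 z * P2 z)) hP'.continuous.continuousOn
  have hM10 : 0 ≤ M1 := le_trans (norm_nonneg _) (hM1 0 (by simp))
  have hM20 : 0 ≤ M2 := le_trans (norm_nonneg _) (hM2 0 (by simp))
  refine ⟨M1 + M2, by positivity, ?_⟩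
  intro N
  set c : ℝ := Real.sqrt (2 * N + 1) with hc
  have hc1 : 1 ≤ c := by
    rw [hc]; apply Real.one_le_sqrt.mpr; have : (0 : ℝ) ≤ N := Nat.cast_nonneg N; linarith
  have hcc : (c : ℂ) * c = 2 * N + 1 := by
    have : c * c = 2 * N + 1 := Real.mul_self_sqrt (by positivity)
    exact_mod_cast this
  have hg : Differentiable ℂ (fun z => (c : ℂ) * z ^ N * (f1 z * P2 z + f2 z * P1 z)
      - z ^ (2 * N + 1) * deriv (fun z => P1 z * P2 z) z) := by
    fun_prop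
  obtain ⟨G, hG0, hG⟩ := hg.isExactOn_univ.with_val_at 0 0
  refine ⟨fun z => H z + z ^ (2 * N + 1) * (P1 z * P2 z) + G z, ?_, ?_⟩
  · intro z
    have h1 : HasDerivAt (fun z => z ^ (2 * N + 1) * (P1 z * P2 z))
        (((2 * N + 1 : ℕ) : ℂ) * z ^ (2 * N) * (P1 z * P2 z)
          + z ^ (2 * N + 1) * deriv (fun z => P1 z * P2 z) z) z := by
      have h2 := hasDerivAt_pow (2 * N + 1) z
      have h3 := (hP z).hasDerivAt
      exact h2.mul h3
    have h2 := ((hH z).add h1).add (hG z (mem_univ z))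
    refine h2.congr_deriv ?_
    have e : z ^ (2 * N) = z ^ N * z ^ N := by rw [← pow_add]; congr 1; ring
    rw [e]
    push_cast
    linear_combination (-(z ^ N * z ^ N * P1 z * P2 z)) * hcc
  · intro z hz
    have e : (H z + z ^ (2 * N + 1) * (P1 z * P2 z) + G z) - H z - z ^ (2 * N + 1) * (P1 z * P2 z)
      = G z := by ring
    rw [e]
    refine radial_bound (K := (M1 + M2) * c) (N := N) (fun z => hG z (mem_univ z)) hG0 ?_ z hz
    intro z hz
    have hzb : z ∈ Metric.closedBall (0 : ℂ) 1 := by simpa using hz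
    have h1 := hM1 z hzb
    have h2 := hM2 z hzb
    have h3 : ‖z‖ ^ (2 * N + 1) ≤ ‖z‖ ^ N := pow_le_pow_of_le_one (norm_nonneg _) hz (by omega)
    calc ‖(c : ℂ) * z ^ N * (f1 z * P2 z + f2 z * P1 z)
          - z ^ (2 * N + 1) * deriv (fun z => P1 z * P2 z) z‖
        ≤ ‖(c : ℂ) * z ^ N * (f1 z * P2 z + f2 z * P1 z)‖
          + ‖z ^ (2 * N + 1) * deriv (fun z => P1 z * P2 z) z‖ := norm_sub_le _ _
      _ ≤ c * ‖z‖ ^ N * M1 + c * ‖z‖ ^ N * M2 := by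
          apply add_le_add
          · rw [norm_mul, norm_mul, norm_pow, Complex.norm_real, Real.norm_eq_abs, abs_of_nonneg (by positivity)]
            gcongr
          · rw [norm_mul, norm_pow]
            apply mul_le_mul _ h2 (norm_nonneg _) (by positivity)
            calc ‖z‖ ^ (2 * N + 1) ≤ 1 * ‖z‖ ^ N := by rw [one_mul]; exact h3
              _ ≤ c * ‖z‖ ^ N := by gcongr
      _ = (M1 + M2) * c * ‖z‖ ^ N := by ring

/-- Effect of adding constants to the factors. -/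
lemma add_const {f1 f2 H : ℂ → ℂ} (hf1 : Differentiable ℂ f1)
    (hf2 : Differentiable ℂ f2) (hH : ∀ z, HasDerivAt H (f1 z * f2 z) z) :
    ∃ K : ℝ, 0 ≤ K ∧ ∀ c1 c2 : ℂ, ‖c1‖ ≤ 1 → ‖c2‖ ≤ 1 → ∃ H' : ℂ → ℂ,
      (∀ z, HasDerivAt H' ((f1 z + c1) * (f2 z + c2)) z) ∧
      ∀ z, ‖z‖ ≤ 1 → ‖H' z - H z‖ ≤ K * (‖c1‖ + ‖c2‖) := by
  obtain ⟨F1, -, hF1⟩ := hf1.isExactOn_univ.with_val_at 0 0
  obtain ⟨F2, -, hF2⟩ := hf2.isExactOn_univ.with_val_at 0 0
  have hF1c : Continuous F1 := continuous_iff_continuousAt.mpr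
    fun z => (hF1 z (mem_univ z)).continuousAt
  have hF2c : Continuous F2 := continuous_iff_continuousAt.mpr
    fun z => (hF2 z (mem_univ z)).continuousAt
  obtain ⟨M1, hM1⟩ := (isCompact_closedBall (0 : ℂ) 1).exists_bound_of_continuousOn
    hF1c.continuousOn
  obtain ⟨M2, hM2⟩ := (isCompact_closedBall (0 : ℂ) 1).exists_bound_of_continuousOn
    hF2c.continuousOn
  have hM10 : 0 ≤ M1 := le_trans (norm_nonneg _) (hM1 0 (by simp))
  have hM20 : 0 ≤ M2 := le_trans (norm_nonneg _) (hM2 0 (by simp))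
  refine ⟨M1 + M2 + 1, by positivity, ?_⟩
  intro c1 c2 hc1 hc2
  refine ⟨fun z => H z + c1 * F2 z + c2 * F1 z + c1 * c2 * z, ?_, ?_⟩
  · intro z
    have h := (((hH z).add ((hF2 z (mem_univ z)).const_mul c1)).add
      ((hF1 z (mem_univ z)).const_mul c2)).add ((hasDerivAt_id z).const_mul (c1 * c2))
    refine h.congr_deriv ?_
    ring
  · intro z hz
    have hzb : z ∈ Metric.closedBall (0 : ℂ) 1 := by simpa using hz
    have h1 := hM1 z hzb
    have h2 := hM2 z hzb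
    have e : (H z + c1 * F2 z + c2 * F1 z + c1 * c2 * z) - H z
      = c1 * F2 z + c2 * F1 z + c1 * c2 * z := by ring
    rw [e]
    calc ‖c1 * F2 z + c2 * F1 z + c1 * c2 * z‖
        ≤ ‖c1 * F2 z‖ + ‖c2 * F1 z‖ + ‖c1 * c2 * z‖ := norm_add₃_le
      _ ≤ ‖c1‖ * M2 + ‖c2‖ * M1 + ‖c1‖ * 1 * 1 := by
          rw [norm_mul, norm_mul, norm_mul, norm_mul]
          gcongr
      _ ≤ (M1 + M2 + 1) * (‖c1‖ + ‖c2‖) := by
          nlinarith [norm_nonneg c1, norm_nonneg c2, mul_nonneg hM10 (norm_nonneg c1),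
            mul_nonneg hM20 (norm_nonneg c2)]

/-- Generic small constants avoid common zeros. -/
lemma exists_const_ne {f1 f2 : ℂ → ℂ} (hf1 : Differentiable ℂ f1)
    (hf2 : Differentiable ℂ f2) {δ : ℝ} (hδ : 0 < δ) :
    ∃ c1 c2 : ℂ, ‖c1‖ < δ ∧ ‖c2‖ < δ ∧ ∀ z, f1 z + c1 ≠ 0 ∨ f2 z + c2 ≠ 0 := by
  have hc : ContDiff ℝ 1 (fun z : ℂ => (-(f1 z), -(f2 z))) := by
    have h1 : ContDiff ℝ 1 f1 := (hf1.contDiff (n := 1)).restrict_scalars ℝ
    have h2 : ContDiff ℝ 1 f2 := (hf2.contDiff (n := 1)).restrict_scalars ℝ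
    exact h1.neg.prodMk h2.neg
  have hd := hc.dense_compl_range_of_finrank_lt_finrank (by
    rw [Module.finrank_prod, Complex.finrank_real_complex]; norm_num)
  obtain ⟨p, hp, hpd⟩ := hd.exists_dist_lt (0 : ℂ × ℂ) hδ
  rw [dist_comm, dist_zero_right] at hpd
  refine ⟨p.1, p.2, lt_of_le_of_lt (norm_fst_le p) hpd, lt_of_le_of_lt (norm_snd_le p) hpd, ?_⟩
  intro z
  by_contra h
  push Not at h
  apply hp
  refine ⟨z, ?_⟩
  ext
  · simp only; linear_combination -h.1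
  · simp only; linear_combination -h.2

/-- Spinor data of a minimal surface: `u, v` entire, with primitives of `u², v², uv`. -/
structure Datum where
  u : ℂ → ℂ
  v : ℂ → ℂ
  A : ℂ → ℂ
  B : ℂ → ℂ
  C : ℂ → ℂ
  hu : Differentiable ℂ u
  hv : Differentiable ℂ v
  hA : ∀ z, HasDerivAt A (u z * u z) z
  hB : ∀ z, HasDerivAt B (v z * v z) z
  hC : ∀ z, HasDerivAt C (u z * v z) z

/-- Closeness of two data on the disc of radius `ρ`. -/
def CloseOn (D D' : Datum) (ρ ε : ℝ) : Prop :=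
  ∀ z, ‖z‖ ≤ ρ → ‖D'.u z - D.u z‖ ≤ ε ∧ ‖D'.v z - D.v z‖ ≤ ε ∧
    ‖D'.A z - D.A z‖ ≤ ε ∧ ‖D'.B z - D.B z‖ ≤ ε ∧ ‖D'.C z - D.C z‖ ≤ ε

lemma tendsto_aux1 : Tendsto (fun N : ℕ => Real.sqrt (2 * N + 1) / (N + 1)) atTop (𝓝 0) := by
  have h1 : Tendsto (fun N : ℕ => 2 / Real.sqrt (N + 1)) atTop (𝓝 0) := by
    apply Tendsto.const_div_atTop
    apply Real.tendsto_sqrt_atTop.comp
    exact tendsto_atTop_add_const_right _ _ tendsto_natCast_atTop_atTop
  refine squeeze_zero (fun N => by positivity) (fun N => ?_) h1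
  rw [div_le_div_iff₀ (by positivity) (by positivity)]
  have h2 : Real.sqrt (2 * N + 1) ≤ 2 * Real.sqrt (N + 1) := by
    rw [show (2 : ℝ) * Real.sqrt (N + 1) = Real.sqrt (4 * (N + 1)) by
      rw [Real.sqrt_mul (by norm_num)]; congr 1; rw [show (4 : ℝ) = 2 ^ 2 by norm_num]; simp]
    apply Real.sqrt_le_sqrt
    have : (0 : ℝ) ≤ N := Nat.cast_nonneg N
    linarith
  have h3 : Real.sqrt (N + 1) * Real.sqrt (N + 1) = (N : ℝ) + 1 := Real.mul_self_sqrt (by positivity)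
  nlinarith [Real.sqrt_nonneg (N + 1)]

lemma tendsto_aux2 {ρ : ℝ} (h0 : 0 ≤ ρ) (h1 : ρ < 1) :
    Tendsto (fun N : ℕ => Real.sqrt (2 * N + 1) * ρ ^ N) atTop (𝓝 0) := by
  have h2 : Tendsto (fun N : ℕ => 2 * ((N : ℝ) ^ 1 * ρ ^ N) + ρ ^ N) atTop (𝓝 (2 * 0 + 0)) := by
    apply Tendsto.add
    · apply Tendsto.const_mul
      exact tendsto_pow_const_mul_const_pow_of_abs_lt_one 1 (by rwa [abs_of_nonneg h0])
    · exact tendsto_pow_atTop_nhds_zero_of_lt_one h0 h1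
  rw [mul_zero, add_zero] at h2
  refine squeeze_zero (fun N => by positivity) (fun N => ?_) h2
  have h3 : Real.sqrt (2 * N + 1) ≤ 2 * N + 1 := by
    have h4 : (1 : ℝ) ≤ 2 * N + 1 := by
      have : (0 : ℝ) ≤ N := Nat.cast_nonneg N
      linarith
    rw [Real.sqrt_le_left (by linarith)]
    nlinarith
  calc Real.sqrt (2 * N + 1) * ρ ^ N ≤ (2 * N + 1) * ρ ^ N := by gcongr
    _ = _ := by ring

/-- The Riemann-Hilbert deformation step. -/
lemma rh_step (D : Datum) {P Q : ℂ → ℂ} (hP : Differentiable ℂ P) (hQ : Differentiable ℂ Q)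
    {ε : ℝ} (hε : 0 < ε) {ρ : ℝ} (hρ0 : 0 ≤ ρ) (hρ : ρ < 1) :
    ∃ N₀ : ℕ, ∀ N ≥ N₀, ∃ D' : Datum, CloseOn D D' ρ ε ∧
      (∀ z, ‖z‖ ≤ 1 → ‖D'.A z - D.A z - z ^ (2 * N + 1) * (P z * P z)‖ ≤ ε ∧
        ‖D'.B z - D.B z - z ^ (2 * N + 1) * (Q z * Q z)‖ ≤ ε ∧
        ‖D'.C z - D.C z - z ^ (2 * N + 1) * (P z * Q z)‖ ≤ ε) ∧
      (∀ z, ‖z‖ ≤ 1 → ‖D'.u z - (D.u z + (Real.sqrt (2 * N + 1) : ℂ) * z ^ N * P z)‖ ≤ ε ∧
        ‖D'.v z - (D.v z + (Real.sqrt (2 * N + 1) : ℂ) * z ^ N * Q z)‖ ≤ ε) ∧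
      (∀ z, D'.u z ≠ 0 ∨ D'.v z ≠ 0) := by
  obtain ⟨M1, hM10, hM1⟩ := rh_component D.hu D.hu hP hP D.hA
  obtain ⟨M2, hM20, hM2⟩ := rh_component D.hv D.hv hQ hQ D.hB
  obtain ⟨M3, hM30, hM3⟩ := rh_component D.hu D.hv hP hQ D.hC
  obtain ⟨KP, hKP⟩ := (isCompact_closedBall (0 : ℂ) 1).exists_bound_of_continuousOn
    hP.continuous.continuousOn
  obtain ⟨KQ, hKQ⟩ := (isCompact_closedBall (0 : ℂ) 1).exists_bound_of_continuousOn
    hQ.continuous.continuousOn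
  have hKP0 : 0 ≤ KP := le_trans (norm_nonneg _) (hKP 0 (by simp))
  have hKQ0 : 0 ≤ KQ := le_trans (norm_nonneg _) (hKQ 0 (by simp))
  -- choose `N₀`
  have t1 : ∀ M : ℝ, ∀ᶠ N : ℕ in atTop, M * Real.sqrt (2 * N + 1) / (N + 1) < ε / 4 := by
    intro M
    have h := tendsto_aux1.const_mul M
    rw [mul_zero] at h
    have h2 := h.eventually (gt_mem_nhds (show (0 : ℝ) < ε / 4 by positivity))
    filter_upwards [h2] with N hN
    rw [mul_div_assoc]; exact hN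
  have t2 : ∀ᶠ N : ℕ in atTop, (KP + KQ) * (Real.sqrt (2 * N + 1) * ρ ^ N) < ε / 4 := by
    have h := (tendsto_aux2 hρ0 hρ).const_mul (KP + KQ)
    rw [mul_zero] at h
    exact h.eventually (gt_mem_nhds (show (0 : ℝ) < ε / 4 by positivity))
  have t3 : ∀ᶠ N : ℕ in atTop, (KP + KQ) ^ 2 * ρ ^ N < ε / 4 := by
    have h := (tendsto_pow_atTop_nhds_zero_of_lt_one hρ0 hρ).const_mul ((KP + KQ) ^ 2)
    rw [mul_zero] at h
    exact h.eventually (gt_mem_nhds (show (0 : ℝ) < ε / 4 by positivity))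
  obtain ⟨N₀, hN₀⟩ := (((t1 M1).and ((t1 M2).and (t1 M3))).and (t2.and t3)).exists_forall_of_atTop
  refine ⟨N₀, ?_⟩
  intro N hN
  obtain ⟨⟨n1, n2, n3⟩, n4, n5⟩ := hN₀ N hN
  obtain ⟨A1, hA1, hA1'⟩ := hM1 N
  obtain ⟨B1, hB1, hB1'⟩ := hM2 N
  obtain ⟨C1, hC1, hC1'⟩ := hM3 N
  set c : ℝ := Real.sqrt (2 * N + 1) with hc
  have hc0 : 0 ≤ c := Real.sqrt_nonneg _
  set u1 : ℂ → ℂ := fun z => D.u z + (c : ℂ) * z ^ N * P z with hu1
  set v1 : ℂ → ℂ := fun z => D.v z + (c : ℂ) * z ^ N * Q z with hv1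
  have hu1d : Differentiable ℂ u1 := by have := D.hu; fun_prop
  have hv1d : Differentiable ℂ v1 := by have := D.hv; fun_prop
  obtain ⟨K1, hK10, hK1⟩ := add_const hu1d hu1d hA1
  obtain ⟨K2, hK20, hK2⟩ := add_const hv1d hv1d hB1
  obtain ⟨K3, hK30, hK3⟩ := add_const hu1d hv1d hC1
  set δ : ℝ := min 1 (ε / (8 * (K1 + K2 + K3 + 1))) with hδ
  have hδ0 : 0 < δ := by positivity
  obtain ⟨c1, c2, hc1, hc2, hne⟩ := exists_const_ne hu1d hv1d hδ0
  have hδ1 : δ ≤ 1 := min_le_left _ _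
  have hδ2 : δ ≤ ε / (8 * (K1 + K2 + K3 + 1)) := min_le_right _ _
  have hδ3 : (K1 + K2 + K3 + 1) * δ ≤ ε / 8 := by
    calc (K1 + K2 + K3 + 1) * δ ≤ (K1 + K2 + K3 + 1) * (ε / (8 * (K1 + K2 + K3 + 1))) := by gcongr
      _ = ε / 8 := by field_simp
  have hδε : δ ≤ ε / 8 := by nlinarith
  obtain ⟨A2, hA2, hA2'⟩ := hK1 c1 c1 (hc1.le.trans hδ1) (hc1.le.trans hδ1)
  obtain ⟨B2, hB2, hB2'⟩ := hK2 c2 c2 (hc2.le.trans hδ1) (hc2.le.trans hδ1)
  obtain ⟨C2, hC2, hC2'⟩ := hK3 c1 c2 (hc1.le.trans hδ1) (hc2.le.trans hδ1)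
  have hKA : ∀ K a b : ℝ, 0 ≤ K → K ≤ K1 + K2 + K3 → a < δ → b < δ → K * (a + b) ≤ ε / 4 := by
    intro K a b hK hK' ha hb
    have : K * (a + b) ≤ K * (2 * δ) := by apply mul_le_mul_of_nonneg_left _ hK; linarith
    nlinarith
  have mainA : ∀ z, ‖z‖ ≤ 1 → ‖A2 z - D.A z - z ^ (2 * N + 1) * (P z * P z)‖ ≤ ε / 2 := by
    intro z hz
    have e : A2 z - D.A z - z ^ (2 * N + 1) * (P z * P z)
      = (A2 z - A1 z) + (A1 z - D.A z - z ^ (2 * N + 1) * (P z * P z)) := by ring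
    rw [e]
    refine (norm_add_le _ _).trans ?_
    have h1 := hA1' z hz
    have h2 := hA2' z hz
    have h3 := hKA K1 _ _ hK10 (by linarith) hc1 hc1
    linarith
  have mainB : ∀ z, ‖z‖ ≤ 1 → ‖B2 z - D.B z - z ^ (2 * N + 1) * (Q z * Q z)‖ ≤ ε / 2 := by
    intro z hz
    have e : B2 z - D.B z - z ^ (2 * N + 1) * (Q z * Q z)
      = (B2 z - B1 z) + (B1 z - D.B z - z ^ (2 * N + 1) * (Q z * Q z)) := by ring
    rw [e]
    refine (norm_add_le _ _).trans ?_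
    have h1 := hB1' z hz
    have h2 := hB2' z hz
    have h3 := hKA K2 _ _ hK20 (by linarith) hc2 hc2
    linarith
  have mainC : ∀ z, ‖z‖ ≤ 1 → ‖C2 z - D.C z - z ^ (2 * N + 1) * (P z * Q z)‖ ≤ ε / 2 := by
    intro z hz
    have e : C2 z - D.C z - z ^ (2 * N + 1) * (P z * Q z)
      = (C2 z - C1 z) + (C1 z - D.C z - z ^ (2 * N + 1) * (P z * Q z)) := by ring
    rw [e]
    refine (norm_add_le _ _).trans ?_
    have h1 := hC1' z hz
    have h2 := hC2' z hz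
    have h3 := hKA K3 _ _ hK30 (by linarith) hc1 hc2
    linarith
  -- smallness of the new terms on the disc of radius `ρ`
  have small1 : ∀ (R : ℂ → ℂ) (KR : ℝ), (∀ z ∈ Metric.closedBall (0 : ℂ) 1, ‖R z‖ ≤ KR) →
      0 ≤ KR → KR ≤ KP + KQ → ∀ z, ‖z‖ ≤ ρ → ‖(c : ℂ) * z ^ N * R z‖ ≤ ε / 4 := by
    intro R KR hR hR0 hR' z hz
    have hzb : z ∈ Metric.closedBall (0 : ℂ) 1 := by simpa using hz.trans hρ.le
    rw [norm_mul, norm_mul, norm_pow, Complex.norm_real, Real.norm_eq_abs, abs_of_nonneg hc0]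
    calc c * ‖z‖ ^ N * ‖R z‖ ≤ c * ρ ^ N * (KP + KQ) := by
          have := hR z hzb
          gcongr
          linarith
      _ = (KP + KQ) * (c * ρ ^ N) := by ring
      _ ≤ ε / 4 := n4.le
  have small2 : ∀ (R S : ℂ → ℂ), (∀ z ∈ Metric.closedBall (0 : ℂ) 1, ‖R z‖ ≤ KP + KQ) →
      (∀ z ∈ Metric.closedBall (0 : ℂ) 1, ‖S z‖ ≤ KP + KQ) →
      ∀ z, ‖z‖ ≤ ρ → ‖z ^ (2 * N + 1) * (R z * S z)‖ ≤ ε / 4 := by
    intro R S hR hS z hz
    have hzb : z ∈ Metric.closedBall (0 : ℂ) 1 := by simpa using hz.trans hρ.le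
    rw [norm_mul, norm_mul, norm_pow]
    have h3 : ‖z‖ ^ (2 * N + 1) ≤ ρ ^ N := by
      calc ‖z‖ ^ (2 * N + 1) ≤ ρ ^ (2 * N + 1) := by gcongr
        _ ≤ ρ ^ N := pow_le_pow_of_le_one hρ0 hρ.le (by omega)
    calc ‖z‖ ^ (2 * N + 1) * (‖R z‖ * ‖S z‖) ≤ ρ ^ N * ((KP + KQ) * (KP + KQ)) := by
          have h1 := hR z hzb
          have h2 := hS z hzb
          gcongr
      _ = (KP + KQ) ^ 2 * ρ ^ N := by ring
      _ ≤ ε / 4 := n5.le
  have hP2 : ∀ z ∈ Metric.closedBall (0 : ℂ) 1, ‖P z‖ ≤ KP + KQ := fun z hz =>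
    (hKP z hz).trans (by linarith)
  have hQ2 : ∀ z ∈ Metric.closedBall (0 : ℂ) 1, ‖Q z‖ ≤ KP + KQ := fun z hz =>
    (hKQ z hz).trans (by linarith)
  refine ⟨⟨fun z => u1 z + c1, fun z => v1 z + c2, A2, B2, C2, hu1d.add_const _, hv1d.add_const _,
    hA2, hB2, hC2⟩, ?_, ?_, ?_, hne⟩
  · intro z hz
    have hz1 : ‖z‖ ≤ 1 := hz.trans hρ.le
    refine ⟨?_, ?_, ?_, ?_, ?_⟩
    · have e : (u1 z + c1) - D.u z = (c : ℂ) * z ^ N * P z + c1 := by simp only [hu1]; ring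
      simp only [e]
      refine (norm_add_le _ _).trans ?_
      have := small1 P KP hKP hKP0 (by linarith) z hz
      linarith
    · have e : (v1 z + c2) - D.v z = (c : ℂ) * z ^ N * Q z + c2 := by simp only [hv1]; ring
      simp only [e]
      refine (norm_add_le _ _).trans ?_
      have := small1 Q KQ hKQ hKQ0 (by linarith) z hz
      linarith
    · have e : A2 z - D.A z = (A2 z - D.A z - z ^ (2 * N + 1) * (P z * P z))
        + z ^ (2 * N + 1) * (P z * P z) := by ring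
      simp only
      rw [e]
      refine (norm_add_le _ _).trans ?_
      have := mainA z hz1
      have := small2 P P hP2 hP2 z hz
      linarith
    · have e : B2 z - D.B z = (B2 z - D.B z - z ^ (2 * N + 1) * (Q z * Q z))
        + z ^ (2 * N + 1) * (Q z * Q z) := by ring
      simp only
      rw [e]
      refine (norm_add_le _ _).trans ?_
      have := mainB z hz1
      have := small2 Q Q hQ2 hQ2 z hz
      linarith
    · have e : C2 z - D.C z = (C2 z - D.C z - z ^ (2 * N + 1) * (P z * Q z))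
        + z ^ (2 * N + 1) * (P z * Q z) := by ring
      simp only
      rw [e]
      refine (norm_add_le _ _).trans ?_
      have := mainC z hz1
      have := small2 P Q hP2 hQ2 z hz
      linarith
  · intro z hz
    exact ⟨(mainA z hz).trans (by linarith), (mainB z hz).trans (by linarith),
      (mainC z hz).trans (by linarith)⟩
  · intro z hz
    constructor
    · have e : (u1 z + c1) - (D.u z + (c : ℂ) * z ^ N * P z) = c1 := by simp only [hu1]; ring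
      simp only [e]
      linarith
    · have e : (v1 z + c2) - (D.v z + (c : ℂ) * z ^ N * Q z) = c2 := by simp only [hv1]; ring
      simp only [e]
      linarith

end Pool.Agent.MinSurf
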