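import Pool.Agent.Lib_helper22.Steps
import Pool.Agent.Lib_helper22.Peaks

open Set Filter Complex
open scoped Topology ComplexConjugate Real

noncomputable section

namespace Pool.Agent.MinSurf

/-- State of the recursion. -/
structure St where
  D : Datum
  ρ : ℝ
  τ : ℝ
  hρ0 : 1 / 2 ≤ ρ
  hρ1 : ρ < 1
  hτ : 0 < τ

/-- One step of the recursion. `b` is the peak function used at this step. -/
structure StepRel (n : ℕ) (b : ℂ → ℝ) (s s' : St) : Prop where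
  close : CloseOn s.D s'.D s.ρ s.τ
  tau : s'.τ ≤ s.τ / 2
  rho : s.ρ < s'.ρ
  rho' : 1 - 1 / ((n : ℝ) + 2) ≤ s'.ρ
  upper : ∀ z, ‖z‖ ≤ 1 → ‖s'.D.X z‖ ≤
    Real.sqrt (‖s.D.X z‖ ^ 2 + 4 * (1 / ((n : ℝ) + 1)) ^ 2 + (1 / 2) ^ n) + (b z + (1 / 2) ^ n / 16)
  lower : ∀ z, ‖z‖ ≤ 1 → ‖s.D.X z‖ - b z - (1 / 2) ^ n / 8 ≤ ‖s'.D.X z‖
  robust : ∀ z, ‖z‖ ≤ 1 → 4 * s'.τ ≤ s'.D.m z
  annulus : ∃ α β ℓ : ℝ, s.ρ < α ∧ α < β ∧ β < s'.ρ ∧ 0 < ℓ ∧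
    1 / ((n : ℝ) + 1) / 64 ≤ ℓ ^ 2 * (β - α) ∧ ∀ z, α ≤ ‖z‖ → ‖z‖ ≤ β → ℓ / 2 ≤ s'.D.m z
  ball : ∃ w : ℂ, ∃ ϱ ℓ : ℝ, 0 < ϱ ∧ 0 < ℓ ∧ 1 / 128 ≤ ℓ ^ 2 * ϱ ∧
    ∀ z ∈ Metric.closedBall w ϱ, s.ρ < ‖z‖ ∧ ‖z‖ ≤ s'.ρ ∧ ℓ ≤ s'.D.m z

lemma CloseOn.trans {D D' D'' : Datum} {ρ ρ' ε ε' : ℝ} (h : CloseOn D D' ρ ε)
    (h' : CloseOn D' D'' ρ' ε') (hρ : ρ ≤ ρ') : CloseOn D D'' ρ (ε + ε') := by
  intro z hz
  obtain ⟨h1, h2, h3, h4, h5⟩ := h z hz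
  obtain ⟨g1, g2, g3, g4, g5⟩ := h' z (hz.trans hρ)
  have key : ∀ x y w : ℂ, ‖y - x‖ ≤ ε → ‖w - y‖ ≤ ε' → ‖w - x‖ ≤ ε + ε' := by
    intro x y w hxy hyw
    have e : w - x = (y - x) + (w - y) := by ring
    rw [e]
    exact (norm_add_le _ _).trans (add_le_add hxy hyw)
  exact ⟨key _ _ _ h1 g1, key _ _ _ h2 g2, key _ _ _ h3 g3, key _ _ _ h4 g4, key _ _ _ h5 g5⟩

lemma Datum.m_sub_le {D D' : Datum} {ρ ε : ℝ} (h : CloseOn D D' ρ ε) {z : ℂ} (hz : ‖z‖ ≤ ρ) :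
    D.m z - ε ≤ D'.m z := by
  obtain ⟨h1, h2, -, -, -⟩ := h z hz
  have e1 : ‖D.u z‖ ≤ ‖D'.u z‖ + ε := by
    have := norm_sub_norm_le (D.u z) (D'.u z)
    rw [norm_sub_rev] at this
    linarith
  have e2 : ‖D.v z‖ ≤ ‖D'.v z‖ + ε := by
    have := norm_sub_norm_le (D.v z) (D'.v z)
    rw [norm_sub_rev] at this
    linarith
  have : D.m z ≤ D'.m z + ε := by
    apply max_le
    · exact e1.trans (by gcongr; exact le_max_left _ _)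
    · exact e2.trans (by gcongr; exact le_max_right _ _)
  linarith

lemma exists_step (n : ℕ) {ζ : ℂ} (hζ : ‖ζ‖ = 1) (k : ℕ) (s : St) :
    ∃ s' : St, StepRel n (fun z => ‖((1 + conj ζ * z) / 2) ^ k‖ ^ 2) s s' := by
  set δ : ℝ := (1 / 2) ^ n / 16 with hδ
  have hδ0 : 0 < δ := by positivity
  have hδ1 : δ ≤ 1 / 16 := by
    have : ((1 : ℝ) / 2) ^ n ≤ 1 := pow_le_one₀ (by norm_num) (by norm_num)
    linarith
  have hτ := s.hτ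
  have hρ0 : 0 ≤ s.ρ := by linarith [s.hρ0]
  obtain ⟨D1, α, β, ℓ, c1, -, x1, r1, r2, r3, l1, l2, l3⟩ := step_orth s.D
    (r := 1 / ((n : ℝ) + 1)) (ε := min (s.τ / 2) (δ ^ 2)) (ρ := s.ρ) (by positivity)
    (by positivity) hρ0 s.hρ1
  obtain ⟨D2, w, ϱ, β', ℓ', c2, ne2, x2, q1, q2, q3, m1, m2, m3⟩ := step_peak D1 hζ k
    (ε := min (s.τ / 2) (min δ (ℓ / 2))) (ρ := β) (by positivity) (by linarith) r3
  set ρ' : ℝ := max β' (1 - 1 / ((n : ℝ) + 2)) with hρ'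
  have hn2 : (0 : ℝ) < 1 / ((n : ℝ) + 2) := by positivity
  have hρ'1 : ρ' < 1 := max_lt q3 (by linarith)
  have hρ'β : β' ≤ ρ' := le_max_left _ _
  -- minimum of `m`
  obtain ⟨z0, hz0, hmin⟩ := (isCompact_closedBall (0 : ℂ) 1).exists_isMinOn
    ⟨0, by simp⟩ D2.continuous_m.continuousOn
  have hm0 : 0 < D2.m z0 := by
    rcases ne2 z0 with h | h
    · exact lt_of_lt_of_le (norm_pos_iff.mpr h) (le_max_left _ _)
    · exact lt_of_lt_of_le (norm_pos_iff.mpr h) (le_max_right _ _)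
  refine ⟨⟨D2, ρ', min (s.τ / 2) (D2.m z0 / 4), ?_, hρ'1, by positivity⟩, ?_⟩
  · have := s.hρ0; linarith
  refine ⟨?_, min_le_left _ _, by simp only; linarith, le_max_right _ _, ?_, ?_, ?_, ?_, ?_⟩
  · -- closeness
    have h := c1.trans c2 (by linarith)
    intro z hz
    obtain ⟨h1, h2, h3, h4, h5⟩ := h z hz
    have e : min (s.τ / 2) (δ ^ 2) + min (s.τ / 2) (min δ (ℓ / 2)) ≤ s.τ := by
      have := min_le_left (s.τ / 2) (δ ^ 2)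
      have := min_le_left (s.τ / 2) (min δ (ℓ / 2))
      linarith
    exact ⟨h1.trans e, h2.trans e, h3.trans e, h4.trans e, h5.trans e⟩
  · -- upper bound
    intro z hz
    obtain ⟨h1, -⟩ := x1 z hz
    have h2 := x2 z hz
    have e1 : min (s.τ / 2) (δ ^ 2) ≤ (1 / 2) ^ n := by
      refine (min_le_right _ _).trans ?_
      have : (1 / 2 : ℝ) ^ n = 16 * δ := by rw [hδ]; ring
      rw [this]; nlinarith
    have e2 : min (s.τ / 2) (min δ (ℓ / 2)) ≤ δ :=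
      (min_le_right _ _).trans (min_le_left _ _)
    have h3 : ‖D1.X z‖ ≤ Real.sqrt (‖s.D.X z‖ ^ 2 + 4 * (1 / ((n : ℝ) + 1)) ^ 2 + (1 / 2) ^ n) := by
      apply Real.le_sqrt_of_sq_le
      linarith
    have h4 : ‖D2.X z‖ ≤ ‖D1.X z‖ + ‖D2.X z - D1.X z‖ := by
      have := norm_add_le (D1.X z) (D2.X z - D1.X z)
      rwa [add_sub_cancel] at this
    simp only
    linarith
  · -- lower bound
    intro z hz
    obtain ⟨-, h1⟩ := x1 z hz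
    have h2 := x2 z hz
    have e1 : min (s.τ / 2) (δ ^ 2) ≤ δ ^ 2 := min_le_right _ _
    have e2 : min (s.τ / 2) (min δ (ℓ / 2)) ≤ δ :=
      (min_le_right _ _).trans (min_le_left _ _)
    have h3 : ‖s.D.X z‖ - δ ≤ ‖D1.X z‖ := by
      rcases le_or_gt (‖s.D.X z‖) δ with h | h
      · linarith [norm_nonneg (D1.X z)]
      · apply le_of_sq_le_sq _ (norm_nonneg _)
        nlinarith
    have h4 : ‖D1.X z‖ ≤ ‖D2.X z‖ + ‖D2.X z - D1.X z‖ := by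
      have := norm_sub_le (D2.X z) (D2.X z - D1.X z)
      rwa [sub_sub_cancel] at this
    have h5 : (1 / 2 : ℝ) ^ n / 8 = 2 * δ := by rw [hδ]; ring
    simp only
    rw [h5]
    linarith
  · -- robust
    intro z hz
    have h1 : D2.m z0 ≤ D2.m z := hmin (by simpa using hz)
    have h2 : min (s.τ / 2) (D2.m z0 / 4) ≤ D2.m z0 / 4 := min_le_right _ _
    simp only
    linarith
  · -- annulus
    refine ⟨α, β, ℓ, r1, r2, by simp only; linarith, l1, l2, ?_⟩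
    intro z hz1 hz2
    have h1 := l3 z hz1 hz2
    have h2 := Datum.m_sub_le c2 hz2
    have e2 : min (s.τ / 2) (min δ (ℓ / 2)) ≤ ℓ / 2 :=
      (min_le_right _ _).trans (min_le_right _ _)
    simp only
    linarith
  · -- ball
    refine ⟨w, ϱ, ℓ', q1, m1, m2, ?_⟩
    intro z hz
    obtain ⟨h1, h2, h3⟩ := m3 z hz
    refine ⟨by linarith, h2.trans hρ'β, h3⟩

end Pool.Agent.MinSurf
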