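import Pool.Agent.Lib_helper22.Orth

open Set Filter Complex
open scoped Topology ComplexConjugate Real

noncomputable section

namespace Pool.Agent.MinSurf

lemma pow_ge_of_annulus {N : ℕ} (hN : 1 ≤ N) {t : ℝ} (ht : 1 - 1 / (4 * N) ≤ t) :
    3 / 4 ≤ t ^ N := by
  have hN' : (1 : ℝ) ≤ N := by exact_mod_cast hN
  have h0 : (1 : ℝ) / (4 * N) ≤ 1 / 4 := by
    rw [div_le_div_iff₀ (by positivity) (by norm_num)]; linarith
  have h1 : (1 : ℝ) + N * (-(1 / (4 * N))) ≤ (1 + -(1 / (4 * N))) ^ N :=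
    one_add_mul_le_pow (by linarith) N
  have h2 : (1 : ℝ) + N * (-(1 / (4 * N))) = 3 / 4 := by field_simp; norm_num
  rw [h2] at h1
  refine h1.trans ?_
  apply pow_le_pow_left₀ (by linarith)
  linarith

lemma spinor_lower {N : ℕ} {x y P z : ℂ} {M p : ℝ} (hx : ‖x‖ ≤ M)
    (hy : ‖y - (x + (Real.sqrt (2 * N + 1) : ℂ) * z ^ N * P)‖ ≤ 1) (hz : 3 / 4 ≤ ‖z‖ ^ N)
    (hp0 : 0 ≤ p) (hp : p ≤ ‖P‖) (hN : M + 1 ≤ Real.sqrt (2 * N + 1) * p / 4) :
    Real.sqrt (2 * N + 1) * p / 2 ≤ ‖y‖ := by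
  set c := Real.sqrt (2 * N + 1) with hc
  have hc0 : 0 ≤ c := Real.sqrt_nonneg _
  have h1 : ‖(c : ℂ) * z ^ N * P‖ = c * ‖z‖ ^ N * ‖P‖ := by
    rw [norm_mul, norm_mul, norm_pow, Complex.norm_real, Real.norm_eq_abs, abs_of_nonneg hc0]
  have h2 : c * (3 / 4) * p ≤ c * ‖z‖ ^ N * ‖P‖ := by gcongr
  have e : (c : ℂ) * z ^ N * P = y - x - (y - (x + (c : ℂ) * z ^ N * P)) := by ring
  have h3 : ‖(c : ℂ) * z ^ N * P‖ ≤ ‖y‖ + ‖x‖ + ‖y - (x + (c : ℂ) * z ^ N * P)‖ := by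
    conv_lhs => rw [e]
    exact (norm_sub_le _ _).trans (by gcongr; exact norm_sub_le _ _)
  rw [h1] at h3
  nlinarith

lemma Datum.X_sub_le {D D' : Datum} {ρ ε : ℝ} (h : CloseOn D D' ρ ε) {z : ℂ} (hz : ‖z‖ ≤ ρ) :
    ‖D'.X z - D.X z‖ ≤ 6 * ε := by
  obtain ⟨-, -, hA, hB, hC⟩ := h z hz
  rw [Datum.X, Datum.X, ← vec_sub]
  refine (norm_vec_le _ _ _).trans ?_
  linarith

/-- The step increasing the intrinsic radius. -/
lemma step_orth (D : Datum) {r ε ρ : ℝ} (hr : 0 < r) (hε : 0 < ε) (hρ0 : 0 ≤ ρ) (hρ : ρ < 1) :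
    ∃ D' : Datum, ∃ α β ℓ : ℝ, CloseOn D D' ρ ε ∧ (∀ z, D'.u z ≠ 0 ∨ D'.v z ≠ 0) ∧
      (∀ z, ‖z‖ ≤ 1 → ‖D'.X z‖ ^ 2 ≤ ‖D.X z‖ ^ 2 + 4 * r ^ 2 + ε ∧
        ‖D.X z‖ ^ 2 - ε ≤ ‖D'.X z‖ ^ 2) ∧
      ρ < α ∧ α < β ∧ β < 1 ∧ 0 < ℓ ∧ r / 64 ≤ ℓ ^ 2 * (β - α) ∧
      ∀ z, α ≤ ‖z‖ → ‖z‖ ≤ β → ℓ ≤ D'.m z := by
  -- bound for `X` on the closed disc
  obtain ⟨K, hK⟩ := (isCompact_closedBall (0 : ℂ) 1).exists_bound_of_continuousOn
    D.continuous_X.continuousOn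
  have hK0 : 0 ≤ K := le_trans (norm_nonneg _) (hK 0 (by simp))
  have hK' : ∀ z, ‖z‖ ≤ 1 → ‖D.X z‖ ≤ K := fun z hz => hK z (by simpa using hz)
  set κ : ℝ := K + 2 * r + 10 with hκ
  set ε₁ : ℝ := min 1 (min ε 1 / (100 * κ)) with hε₁
  have hκ0 : 0 < κ := by positivity
  have hε₁0 : 0 < ε₁ := by positivity
  have hε₁1 : ε₁ ≤ 1 := min_le_left _ _
  have hε₁2 : ε₁ * (100 * κ) ≤ min ε 1 := by
    have : ε₁ ≤ min ε 1 / (100 * κ) := min_le_right _ _
    rwa [le_div_iff₀ (by positivity)] at this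
  have hε₁3 : ε₁ * (100 * κ) ≤ ε := hε₁2.trans (min_le_left _ _)
  have hε₁4 : ε₁ * 1000 ≤ ε := by
    have : ε₁ * 1000 ≤ ε₁ * (100 * κ) := by
      apply mul_le_mul_of_nonneg_left _ hε₁0.le
      linarith
    linarith
  -- the shift
  obtain ⟨t, htd, ht⟩ : ∃ t : ℂ, ‖t‖ < ε₁ ∧ ∀ z, ‖z‖ = 1 → (D.A z + t) - conj (D.B z) ≠ 0 := by
    have hA1 : ContDiff ℝ 1 D.A := by
      have : Differentiable ℂ D.A := fun z => (D.hA z).differentiableAt
      exact (this.contDiff (n := 1)).restrict_scalars ℝ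
    have hB1 : ContDiff ℝ 1 D.B := by
      have : Differentiable ℂ D.B := fun z => (D.hB z).differentiableAt
      exact (this.contDiff (n := 1)).restrict_scalars ℝ
    have he : ContDiff ℝ 1 (fun θ : ℝ => Complex.exp (θ * I)) := by
      have h1 : ContDiff ℝ 1 (fun θ : ℝ => (θ : ℂ) * I) :=
        (Complex.ofRealCLM.contDiff).mul contDiff_const
      exact (Complex.contDiff_exp (𝕜 := ℝ)).comp h1
    have hc : ContDiff ℝ 1 (fun θ : ℝ => -(D.A (Complex.exp (θ * I))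
        - conj (D.B (Complex.exp (θ * I))))) := by
      apply ContDiff.neg
      apply ContDiff.sub (hA1.comp he)
      exact (Complex.conjCLE.contDiff).comp (hB1.comp he)
    have hd := hc.dense_compl_range_of_finrank_lt_finrank (by
      rw [Module.finrank_self, Complex.finrank_real_complex]; norm_num)
    obtain ⟨t, ht, htd⟩ := hd.exists_dist_lt (0 : ℂ) hε₁0
    rw [dist_comm, dist_zero_right] at htd
    refine ⟨t, htd, ?_⟩
    intro z hz h0
    apply ht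
    refine ⟨arg z, ?_⟩
    have h1 := Complex.norm_mul_exp_arg_mul_I z
    rw [hz, Complex.ofReal_one, one_mul] at h1
    simp only [h1]
    linear_combination -h0
  set D1 : Datum := ⟨D.u, D.v, fun z => D.A z + t, D.B, D.C, D.hu, D.hv,
    fun z => by simpa using (D.hA z).add_const t, D.hB, D.hC⟩ with hD1
  have hX1 : ∀ z, D1.X z = D.X z + vec t 0 0 := by
    intro z
    have : D1.X z = vec (D.A z + t) (D.B z + 0) (D.C z + 0) := by simp [hD1, Datum.X]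
    rw [this, vec_add]; rfl
  have hvt : ‖vec t 0 0‖ ≤ 2 * ε₁ := by
    refine (norm_vec_le _ _ _).trans ?_
    simp; linarith
  have hXd : ∀ z, ‖D1.X z - D.X z‖ ≤ 2 * ε₁ := by
    intro z; rw [hX1, add_sub_cancel_left]; exact hvt
  have hX1K : ∀ z, ‖z‖ ≤ 1 → ‖D1.X z‖ ≤ K + 2 := by
    intro z hz
    have h1 := hXd z
    have h2 := hK' z hz
    have h3 : ‖D1.X z‖ ≤ ‖D1.X z - D.X z‖ + ‖D.X z‖ := by
      have := norm_add_le (D1.X z - D.X z) (D.X z); simpa using this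
    linarith
  -- spinor
  obtain ⟨P, Q, hP, hQ, hPQ⟩ := orth_spinor (A := D1.A) (B := D1.B) (C := D1.C)
    D1.continuous_A D1.continuous_B D1.continuous_C ht hr (ε := ε / 100) (by positivity)
  -- annulus near the boundary
  have hqc : Continuous (fun z => ‖qform (D1.A z) (D1.B z) (D1.C z) (P z) (Q z)‖) := by
    apply Continuous.norm
    unfold qform
    have h1 := D1.continuous_A
    have h2 := D1.continuous_B
    have h3 := D1.continuous_C
    have h4 := hP.continuous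
    have h5 := hQ.continuous
    have h6 : Continuous fun z => conj (D1.B z) := Complex.continuous_conj.comp h2
    have h7 : Continuous fun z => conj (D1.A z - conj (D1.B z)) := Complex.continuous_conj.comp (h1.sub h6)
    have h8 : Continuous fun z => ((2 * (D1.C z).re : ℝ) : ℂ) :=
      Complex.continuous_ofReal.comp (continuous_const.mul (Complex.continuous_re.comp h3))
    exact ((h7.mul (h4.mul h4)).add ((continuous_const.mul h8).mul (h4.mul h5))).sub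
      ((h1.sub h6).mul (h5.mul h5))
  have hSc : Continuous (fun z => ‖P z‖ ^ 2 + ‖Q z‖ ^ 2) :=
    (hP.continuous.norm.pow 2).add (hQ.continuous.norm.pow 2)
  obtain ⟨δ1, hδ10, hδ11, hδ1⟩ := exists_annulus hqc (fun z hz => (hPQ z hz).1)
  obtain ⟨δ2, hδ20, hδ21, hδ2⟩ := exists_annulus hSc (fun z hz => (hPQ z hz).2.2)
  obtain ⟨δ3, hδ30, hδ31, hδ3⟩ := exists_annulus (hSc.neg) (c := -(r / 2))
    (fun z hz => neg_lt_neg (hPQ z hz).2.1)
  set δ : ℝ := min δ1 (min δ2 δ3) with hδ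
  have hδ0 : 0 < δ := by positivity
  have hδ1' : δ ≤ δ1 := min_le_left _ _
  have hδ2' : δ ≤ δ2 := (min_le_right _ _).trans (min_le_left _ _)
  have hδ3' : δ ≤ δ3 := (min_le_right _ _).trans (min_le_right _ _)
  have hδlt : δ < 1 := lt_of_le_of_lt hδ1' hδ11
  set ρ' : ℝ := max ρ (1 - δ) with hρ'
  have hρ'1 : ρ' < 1 := max_lt hρ (by linarith)
  have hρ'0 : 0 ≤ ρ' := le_max_of_le_left hρ0
  obtain ⟨N₀, hN₀⟩ := rh_step D1 hP hQ (ε := ε₁) hε₁0 hρ'0 hρ'1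
  -- bound for the spinor
  obtain ⟨M, hM⟩ := (isCompact_closedBall (0 : ℂ) 1).exists_bound_of_continuousOn
    D.hu.continuous.continuousOn
  obtain ⟨M', hM'⟩ := (isCompact_closedBall (0 : ℂ) 1).exists_bound_of_continuousOn
    D.hv.continuous.continuousOn
  set p : ℝ := Real.sqrt r / 2 with hp
  have hp0 : 0 < p := by have := Real.sqrt_pos.mpr hr; positivity
  have hp2 : p ^ 2 = r / 4 := by
    rw [hp, div_pow, Real.sq_sqrt hr.le]; norm_num
  -- choose `N`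
  have ev1 : ∀ᶠ N : ℕ in atTop, 1 / (4 * (N : ℝ)) < 1 - ρ' := by
    have h1 : Tendsto (fun N : ℕ => 1 / (4 * (N : ℝ))) atTop (𝓝 0) := by
      apply Tendsto.const_div_atTop
      exact tendsto_natCast_atTop_atTop.const_mul_atTop (by norm_num)
    exact h1.eventually (gt_mem_nhds (by linarith))
  have ev2 : ∀ᶠ N : ℕ in atTop, max M M' + 1 ≤ Real.sqrt (2 * N + 1) * p / 4 := by
    have h1 : Tendsto (fun N : ℕ => Real.sqrt (2 * (N : ℝ) + 1) * p / 4) atTop atTop := by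
      apply Tendsto.atTop_div_const (by norm_num)
      apply Tendsto.atTop_mul_const hp0
      apply Real.tendsto_sqrt_atTop.comp
      apply tendsto_atTop_add_const_right
      exact tendsto_natCast_atTop_atTop.const_mul_atTop (by norm_num)
    exact h1.eventually_ge_atTop _
  obtain ⟨N, ⟨hNa, hNb⟩, hNc, hNd⟩ := ((ev1.and ev2).and
    ((eventually_ge_atTop N₀).and (eventually_ge_atTop 1))).exists
  have hN1 : (1 : ℝ) ≤ N := by exact_mod_cast hNd
  obtain ⟨D', hclose, hABC, huv, hne⟩ := hN₀ N hNc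
  have hD1D : ∀ z, D1.u z = D.u z ∧ D1.v z = D.v z ∧ D1.B z = D.B z ∧ D1.C z = D.C z ∧
    D1.A z = D.A z + t := fun z => ⟨rfl, rfl, rfl, rfl, rfl⟩
  refine ⟨D', 1 - 1 / (4 * N), 1 - 1 / (8 * N), Real.sqrt (2 * N + 1) * p / 2, ?_, hne, ?_,
    ?_, ?_, ?_, by positivity, ?_, ?_⟩
  · -- closeness
    intro z hz
    obtain ⟨h1, h2, h3, h4, h5⟩ := hclose z (hz.trans (le_max_left _ _))
    refine ⟨h1.trans (by linarith), h2.trans (by linarith), ?_, h4.trans (by linarith),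
      h5.trans (by linarith)⟩
    have e : D'.A z - D.A z = (D'.A z - D1.A z) + t := by rw [(hD1D z).2.2.2.2]; ring
    rw [e]
    refine (norm_add_le _ _).trans ?_
    linarith
  · -- norm estimates
    intro z hz
    have hXX : |‖D1.X z‖ ^ 2 - ‖D.X z‖ ^ 2| ≤ (2 * ε₁) * (2 * K + 2 * ε₁) :=
      norm_sq_sub_le (hXd z) (hK' z hz)
    have hsmall1 : (2 * ε₁) * (2 * K + 2 * ε₁) ≤ ε / 10 := by
      have h1 : (2 * ε₁) * (2 * K + 2 * ε₁) ≤ ε₁ * (10 * κ) := by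
        rw [hκ]; nlinarith
      linarith
    have hXX' := abs_le.mp hXX
    rcases le_or_gt ‖z‖ ρ' with hzρ | hzρ
    · -- interior
      have h1 := Datum.X_sub_le hclose hzρ
      have h2 := norm_sq_sub_le h1 (hX1K z hz)
      have h3 : 6 * ε₁ * (2 * (K + 2) + 6 * ε₁) ≤ ε / 2 := by
        have h1 : 6 * ε₁ * (2 * (K + 2) + 6 * ε₁) ≤ ε₁ * (12 * κ) := by
          rw [hκ]; nlinarith
        linarith
      have h2' := abs_le.mp h2
      constructor
      · linarith [sq_nonneg r]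
      · linarith
    · -- near the boundary
      have hz1 : 1 - δ ≤ ‖z‖ := (le_max_right _ _).trans hzρ.le
      have q1 : ‖qform (D1.A z) (D1.B z) (D1.C z) (P z) (Q z)‖ < ε / 100 :=
        hδ1 z (by linarith) hz
      have q2 : ‖P z‖ ^ 2 + ‖Q z‖ ^ 2 < 2 * r := hδ2 z (by linarith) hz
      obtain ⟨a1, a2, a3⟩ := hABC z hz
      set e : ℂ := z ^ (2 * N + 1) with he
      have he1 : ‖e‖ ≤ 1 := by
        rw [he, norm_pow]; exact pow_le_one₀ (norm_nonneg _) hz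
      set Y : R3 := vec (e * (P z * P z)) (e * (Q z * Q z)) (e * (P z * Q z)) with hY
      have hYn : ‖Y‖ ≤ 2 * r := by
        rw [hY, norm_vec_null]
        calc ‖e‖ * (‖P z‖ ^ 2 + ‖Q z‖ ^ 2) ≤ 1 * (‖P z‖ ^ 2 + ‖Q z‖ ^ 2) := by gcongr
          _ ≤ 2 * r := by linarith
      have hYi : |(inner ℝ (D1.X z) Y : ℝ)| ≤ ε / 100 := by
        rw [hY, Datum.X, inner_vec_null]
        refine (Complex.abs_re_le_norm _).trans ?_
        rw [norm_mul]
        calc ‖e‖ * ‖qform (D1.A z) (D1.B z) (D1.C z) (P z) (Q z)‖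
            ≤ 1 * (ε / 100) := by gcongr
          _ = ε / 100 := one_mul _
      have hX' : ‖D'.X z - (D1.X z + Y)‖ ≤ 6 * ε₁ := by
        have e1 : D'.X z - (D1.X z + Y) = vec (D'.A z - D1.A z - e * (P z * P z))
            (D'.B z - D1.B z - e * (Q z * Q z)) (D'.C z - D1.C z - e * (P z * Q z)) := by
          rw [vec_sub, vec_sub, Datum.X, Datum.X, hY]; abel
        rw [e1]
        refine (norm_vec_le _ _ _).trans ?_
        linarith
      have hXY : ‖D1.X z + Y‖ ≤ K + 2 + 2 * r :=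
        (norm_add_le _ _).trans (add_le_add (hX1K z hz) hYn)
      have h2 := abs_le.mp (norm_sq_sub_le hX' hXY)
      have h3 : ‖D1.X z + Y‖ ^ 2 = ‖D1.X z‖ ^ 2 + 2 * (inner ℝ (D1.X z) Y : ℝ) + ‖Y‖ ^ 2 :=
        norm_add_sq_real _ _
      have h4 : 6 * ε₁ * (2 * (K + 2 + 2 * r) + 6 * ε₁) ≤ ε / 2 := by
        have h1 : 6 * ε₁ * (2 * (K + 2 + 2 * r) + 6 * ε₁) ≤ ε₁ * (24 * κ) := by
          rw [hκ]; nlinarith
        linarith
      have h5 := abs_le.mp hYi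
      have h6 : ‖Y‖ ^ 2 ≤ 4 * r ^ 2 := by
        have := norm_nonneg Y
        nlinarith
      constructor
      · linarith
      · linarith [sq_nonneg ‖Y‖]
  · have : ρ ≤ ρ' := le_max_left _ _
    linarith
  · have h1 : (1 : ℝ) / (8 * N) < 1 / (4 * N) := by
      rw [div_lt_div_iff₀ (by positivity) (by positivity)]; linarith
    linarith
  · have : (0 : ℝ) < 1 / (8 * N) := by positivity
    linarith
  · have e1 : (Real.sqrt (2 * N + 1) * p / 2) ^ 2 = (2 * N + 1) * r / 16 := by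
      rw [div_pow, mul_pow, Real.sq_sqrt (by positivity), hp2]; ring
    have e2 : (1 : ℝ) - 1 / (8 * N) - (1 - 1 / (4 * N)) = 1 / (8 * N) := by
      field_simp; ring
    rw [e1, e2, div_mul_div_comm, div_le_div_iff₀ (by positivity) (by positivity)]
    nlinarith
  · intro z hz1 hz2
    have hz : ‖z‖ ≤ 1 := by
      have : (0 : ℝ) < 1 / (8 * N) := by positivity
      linarith
    have hzb : z ∈ Metric.closedBall (0 : ℂ) 1 := by simpa using hz
    have hzN := pow_ge_of_annulus hNd hz1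
    obtain ⟨b1, b2⟩ := huv z hz
    have q3 : -(‖P z‖ ^ 2 + ‖Q z‖ ^ 2) < -(r / 2) := hδ3 z (by
      have : 1 - δ ≤ ρ' := le_max_right _ _
      linarith) hz
    have hPor : p ≤ ‖P z‖ ∨ p ≤ ‖Q z‖ := by
      by_contra hcon
      push Not at hcon
      have h1 : ‖P z‖ ^ 2 < p ^ 2 := by
        have := norm_nonneg (P z); nlinarith [hcon.1]
      have h2 : ‖Q z‖ ^ 2 < p ^ 2 := by
        have := norm_nonneg (Q z); nlinarith [hcon.2]
      rw [hp2] at h1 h2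
      linarith
    rcases hPor with h | h
    · have h1 : ‖D.u z‖ ≤ max M M' := (hM z hzb).trans (le_max_left _ _)
      have := spinor_lower h1 (b1.trans hε₁1) hzN hp0.le h hNb
      exact this.trans (le_max_left _ _)
    · have h1 : ‖D.v z‖ ≤ max M M' := (hM' z hzb).trans (le_max_right _ _)
      have := spinor_lower h1 (b2.trans hε₁1) hzN hp0.le h hNb
      exact this.trans (le_max_right _ _)

/-- The step creating a large disc near the boundary point `ζ`. -/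
lemma step_peak (D : Datum) {ζ : ℂ} (hζ : ‖ζ‖ = 1) (k : ℕ) {ε ρ : ℝ} (hε : 0 < ε)
    (hρ0 : 0 ≤ ρ) (hρ : ρ < 1) :
    ∃ D' : Datum, ∃ w : ℂ, ∃ ϱ β ℓ : ℝ, CloseOn D D' ρ ε ∧ (∀ z, D'.u z ≠ 0 ∨ D'.v z ≠ 0) ∧
      (∀ z, ‖z‖ ≤ 1 → ‖D'.X z - D.X z‖ ≤ ‖((1 + conj ζ * z) / 2) ^ k‖ ^ 2 + ε) ∧
      0 < ϱ ∧ ρ < β ∧ β < 1 ∧ 0 < ℓ ∧ 1 / 128 ≤ ℓ ^ 2 * ϱ ∧
      ∀ z ∈ Metric.closedBall w ϱ, ρ < ‖z‖ ∧ ‖z‖ ≤ β ∧ ℓ ≤ D'.m z := by
  set P : ℂ → ℂ := fun z => ((1 + conj ζ * z) / 2) ^ k with hPdef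
  have hP : Differentiable ℂ P := by rw [hPdef]; fun_prop
  have hQ : Differentiable ℂ (fun _ : ℂ => (0 : ℂ)) := by fun_prop
  set ε₁ : ℝ := min 1 (ε / 10) with hε₁
  have hε₁0 : 0 < ε₁ := by positivity
  have hε₁1 : ε₁ ≤ 1 := min_le_left _ _
  have hε₁2 : ε₁ ≤ ε / 10 := min_le_right _ _
  obtain ⟨N₀, hN₀⟩ := rh_step D hP hQ (ε := ε₁) hε₁0 hρ0 hρ
  obtain ⟨M, hM⟩ := (isCompact_closedBall (0 : ℂ) 1).exists_bound_of_continuousOn
    D.hu.continuous.continuousOn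
  have hPζ : P ζ = 1 := by
    have : conj ζ * ζ = 1 := by
      rw [mul_comm, Complex.mul_conj, Complex.normSq_eq_norm_sq, hζ]; norm_num
    simp only [hPdef, this]
    norm_num
  obtain ⟨δ, hδ0, hδ⟩ : ∃ δ > 0, ∀ z, ‖z - ζ‖ < δ → 1 / 2 ≤ ‖P z‖ := by
    have h1 : ContinuousAt (fun z => ‖P z‖) ζ := hP.continuous.norm.continuousAt
    have h2 : (1 / 2 : ℝ) < ‖P ζ‖ := by rw [hPζ]; norm_num
    have h3 := h1.eventually (lt_mem_nhds h2)
    obtain ⟨δ, hδ0, h4⟩ := Metric.eventually_nhds_iff.mp h3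
    exact ⟨δ, hδ0, fun z hz => (h4 (by rwa [dist_eq_norm])).le⟩
  have ev1 : ∀ᶠ N : ℕ in atTop, 1 / (4 * (N : ℝ)) < min (1 - ρ) δ := by
    have h1 : Tendsto (fun N : ℕ => 1 / (4 * (N : ℝ))) atTop (𝓝 0) := by
      apply Tendsto.const_div_atTop
      exact tendsto_natCast_atTop_atTop.const_mul_atTop (by norm_num)
    exact h1.eventually (gt_mem_nhds (lt_min (by linarith) hδ0))
  have ev2 : ∀ᶠ N : ℕ in atTop, M + 1 ≤ Real.sqrt (2 * N + 1) * (1 / 2) / 4 := by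
    have h1 : Tendsto (fun N : ℕ => Real.sqrt (2 * (N : ℝ) + 1) * (1 / 2) / 4) atTop atTop := by
      apply Tendsto.atTop_div_const (by norm_num)
      apply Tendsto.atTop_mul_const (by norm_num)
      apply Real.tendsto_sqrt_atTop.comp
      apply tendsto_atTop_add_const_right
      exact tendsto_natCast_atTop_atTop.const_mul_atTop (by norm_num)
    exact h1.eventually_ge_atTop _
  obtain ⟨N, ⟨hNa, hNb⟩, hNc, hNd⟩ := ((ev1.and ev2).and
    ((eventually_ge_atTop N₀).and (eventually_ge_atTop 1))).exists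
  have hN1 : (1 : ℝ) ≤ N := by exact_mod_cast hNd
  have hNa1 : 1 / (4 * (N : ℝ)) < 1 - ρ := hNa.trans_le (min_le_left _ _)
  have hNa2 : 1 / (4 * (N : ℝ)) < δ := hNa.trans_le (min_le_right _ _)
  obtain ⟨D', hclose, hABC, huv, hne⟩ := hN₀ N hNc
  have s1 : (1 : ℝ) / (4 * N) = 4 * (1 / (16 * N)) := by field_simp; norm_num
  have s2 : (1 : ℝ) / (8 * N) = 2 * (1 / (16 * N)) := by field_simp; norm_num
  have s0 : (0 : ℝ) < 1 / (16 * N) := by positivity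
  have s3 : (1 : ℝ) / (16 * N) ≤ 1 / 16 := by
    rw [div_le_div_iff₀ (by positivity) (by norm_num)]; linarith
  set s : ℝ := 1 / (16 * N) with hs
  rw [s1] at hNa1 hNa2
  refine ⟨D', ((1 - 3 * s : ℝ) : ℂ) * ζ, s, 1 - 2 * s, Real.sqrt (2 * N + 1) * (1 / 2) / 2,
    ?_, hne, ?_, s0, by linarith, by linarith, by positivity, ?_, ?_⟩
  · intro z hz
    obtain ⟨h1, h2, h3, h4, h5⟩ := hclose z hz
    exact ⟨h1.trans (by linarith), h2.trans (by linarith), h3.trans (by linarith),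
      h4.trans (by linarith), h5.trans (by linarith)⟩
  · intro z hz
    obtain ⟨a1, a2, a3⟩ := hABC z hz
    set e : ℂ := z ^ (2 * N + 1) with he
    have he1 : ‖e‖ ≤ 1 := by
      rw [he, norm_pow]; exact pow_le_one₀ (norm_nonneg _) hz
    have hYn := norm_vec_null e (P z) 0
    have e1 : D'.X z - D.X z = vec (D'.A z - D.A z - e * (P z * P z))
        (D'.B z - D.B z - e * (0 * 0)) (D'.C z - D.C z - e * (P z * 0))
        + vec (e * (P z * P z)) (e * (0 * 0)) (e * (P z * 0)) := by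
      rw [vec_sub, vec_sub, Datum.X, Datum.X]; abel
    rw [e1]
    change _ ≤ ‖P z‖ ^ 2 + ε
    refine (norm_add_le _ _).trans ?_
    rw [hYn]
    have h1 := norm_vec_le (D'.A z - D.A z - e * (P z * P z))
        (D'.B z - D.B z - e * (0 * 0)) (D'.C z - D.C z - e * (P z * 0))
    have h2 : ‖e‖ * (‖P z‖ ^ 2 + ‖(0 : ℂ)‖ ^ 2) ≤ ‖P z‖ ^ 2 := by
      rw [norm_zero]
      calc ‖e‖ * (‖P z‖ ^ 2 + 0 ^ 2) ≤ 1 * (‖P z‖ ^ 2 + 0 ^ 2) := by gcongr
        _ = ‖P z‖ ^ 2 := by ring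
    linarith
  · have e1 : (Real.sqrt (2 * N + 1) * (1 / 2) / 2) ^ 2 = (2 * N + 1) / 16 := by
      rw [div_pow, mul_pow, Real.sq_sqrt (by positivity)]; ring
    rw [e1, hs, div_mul_div_comm, div_le_div_iff₀ (by norm_num) (by positivity)]
    nlinarith
  · intro z hz
    rw [Metric.mem_closedBall, dist_eq_norm] at hz
    have hw : ‖((1 - 3 * s : ℝ) : ℂ) * ζ‖ = 1 - 3 * s := by
      rw [norm_mul, hζ, mul_one, Complex.norm_real, Real.norm_eq_abs, abs_of_nonneg (by linarith)]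
    have h1 : ‖z‖ ≤ 1 - 2 * s := by
      have : ‖z‖ ≤ ‖z - ((1 - 3 * s : ℝ) : ℂ) * ζ‖ + ‖((1 - 3 * s : ℝ) : ℂ) * ζ‖ := by
        have := norm_add_le (z - ((1 - 3 * s : ℝ) : ℂ) * ζ) (((1 - 3 * s : ℝ) : ℂ) * ζ)
        simpa using this
      linarith
    have h2 : 1 - 4 * s ≤ ‖z‖ := by
      have : ‖((1 - 3 * s : ℝ) : ℂ) * ζ‖ ≤ ‖z - ((1 - 3 * s : ℝ) : ℂ) * ζ‖ + ‖z‖ := by
        have := norm_add_le (((1 - 3 * s : ℝ) : ℂ) * ζ - z) z
        rw [norm_sub_rev] at this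
        simpa using this
      linarith
    have hz1 : ‖z‖ ≤ 1 := by linarith
    have hzb : z ∈ Metric.closedBall (0 : ℂ) 1 := by simpa using hz1
    refine ⟨by linarith, h1, ?_⟩
    have hzN := pow_ge_of_annulus hNd (t := ‖z‖) (by rw [s1]; exact h2)
    have h3 : ‖z - ζ‖ < δ := by
      have e : z - ζ = (z - ((1 - 3 * s : ℝ) : ℂ) * ζ) - ((3 * s : ℝ) : ℂ) * ζ := by
        push_cast; ring
      have h4 : ‖((3 * s : ℝ) : ℂ) * ζ‖ = 3 * s := by
        rw [norm_mul, hζ, mul_one, Complex.norm_real, Real.norm_eq_abs, abs_of_nonneg (by linarith)]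
      rw [e]
      refine lt_of_le_of_lt (norm_sub_le _ _) ?_
      rw [h4]; linarith
    obtain ⟨b1, b2⟩ := huv z hz1
    have := spinor_lower (hM z hzb) (b1.trans hε₁1) hzN (by norm_num) (hδ z h3) hNb
    exact this.trans (le_max_left _ _)

end Pool.Agent.MinSurf
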