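import Pool.Agent.Lib_helper22.RH

open Set Filter Complex
open scoped Topology ComplexConjugate

noncomputable section

namespace Pool.Agent.MinSurf

/-- The real linear map `(a, b, c) ↦ Re (a - b, -i (a + b), 2 c)`. -/
def vec (a b c : ℂ) : R3 := !₂[(a - b).re, (a + b).im, 2 * c.re]

lemma norm_vec_sq (a b c : ℂ) :
    ‖vec a b c‖ ^ 2 = (a - b).re ^ 2 + (a + b).im ^ 2 + (2 * c.re) ^ 2 := by
  rw [EuclideanSpace.real_norm_sq_eq, Fin.sum_univ_three]
  simp [vec]

lemma inner_vec_vec (a b c a' b' c' : ℂ) :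
    (inner ℝ (vec a b c) (vec a' b' c') : ℝ) =
      (a - b).re * (a' - b').re + (a + b).im * (a' + b').im + (2 * c.re) * (2 * c'.re) := by
  simp [vec, PiLp.inner_apply, Fin.sum_univ_three]
  ring

lemma vec_add (a b c a' b' c' : ℂ) :
    vec (a + a') (b + b') (c + c') = vec a b c + vec a' b' c' := by
  ext i
  fin_cases i <;> simp [vec] <;> ring

lemma vec_sub (a b c a' b' c' : ℂ) :
    vec (a - a') (b - b') (c - c') = vec a b c - vec a' b' c' := by
  ext i
  fin_cases i <;> simp [vec] <;> ring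

lemma norm_vec_le (a b c : ℂ) : ‖vec a b c‖ ≤ 2 * (‖a‖ + ‖b‖ + ‖c‖) := by
  have h := norm_vec_sq a b c
  have h1 : |(a - b).re| ≤ ‖a‖ + ‖b‖ := (abs_re_le_norm _).trans (norm_sub_le _ _)
  have h2 : |(a + b).im| ≤ ‖a‖ + ‖b‖ := (abs_im_le_norm _).trans (norm_add_le _ _)
  have h3 : |c.re| ≤ ‖c‖ := abs_re_le_norm _
  have h1' := sq_le_sq' (abs_le.mp h1).1 (abs_le.mp h1).2
  have h2' := sq_le_sq' (abs_le.mp h2).1 (abs_le.mp h2).2
  have h3' := sq_le_sq' (abs_le.mp h3).1 (abs_le.mp h3).2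
  have h4 : ‖vec a b c‖ ^ 2 ≤ (2 * (‖a‖ + ‖b‖ + ‖c‖)) ^ 2 := by
    rw [h]
    nlinarith [norm_nonneg a, norm_nonneg b, norm_nonneg c, mul_nonneg (norm_nonneg a) (norm_nonneg b),
      mul_nonneg (norm_nonneg a) (norm_nonneg c), mul_nonneg (norm_nonneg b) (norm_nonneg c)]
  exact le_of_sq_le_sq h4 (by positivity)

lemma norm_vec_null (e p q : ℂ) :
    ‖vec (e * (p * p)) (e * (q * q)) (e * (p * q))‖ = ‖e‖ * (‖p‖ ^ 2 + ‖q‖ ^ 2) := by
  have h := norm_vec_sq (e * (p * p)) (e * (q * q)) (e * (p * q))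
  have h0 : (0 : ℝ) ≤ ‖e‖ * (‖p‖ ^ 2 + ‖q‖ ^ 2) := by positivity
  rw [← sq_eq_sq₀ (norm_nonneg _) h0, h, mul_pow ‖e‖ _ 2]
  have e1 : ∀ z : ℂ, ‖z‖ ^ 2 = z.re ^ 2 + z.im ^ 2 := by
    intro z; rw [Complex.sq_norm, Complex.normSq_apply]; ring
  rw [e1 e, e1 p, e1 q]
  simp only [Complex.sub_re, Complex.add_im, Complex.mul_re, Complex.mul_im]
  ring

/-- The complex quadratic form governing orthogonality to the position vector. -/
def qform (a b c p q : ℂ) : ℂ :=
  conj (a - conj b) * (p * p) + 2 * ((2 * c.re : ℝ) : ℂ) * (p * q) - (a - conj b) * (q * q)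

lemma inner_vec_null (a b c e p q : ℂ) :
    (inner ℝ (vec a b c) (vec (e * (p * p)) (e * (q * q)) (e * (p * q))) : ℝ) =
      (e * qform a b c p q).re := by
  rw [inner_vec_vec]
  simp only [qform, Complex.sub_re, Complex.add_im, Complex.mul_re, Complex.mul_im, Complex.sub_im,
    Complex.add_re, Complex.conj_re, Complex.conj_im, Complex.ofReal_re, Complex.ofReal_im,
    Complex.re_ofNat, Complex.im_ofNat]
  ring

/-- The surface of a datum. -/
def Datum.X (D : Datum) (z : ℂ) : R3 := vec (D.A z) (D.B z) (D.C z)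

lemma Datum.continuous_A (D : Datum) : Continuous D.A :=
  continuous_iff_continuousAt.mpr fun z => (D.hA z).continuousAt
lemma Datum.continuous_B (D : Datum) : Continuous D.B :=
  continuous_iff_continuousAt.mpr fun z => (D.hB z).continuousAt
lemma Datum.continuous_C (D : Datum) : Continuous D.C :=
  continuous_iff_continuousAt.mpr fun z => (D.hC z).continuousAt

lemma continuous_vec {A B C : ℂ → ℂ} (hA : Continuous A) (hB : Continuous B) (hC : Continuous C) :
    Continuous (fun z => vec (A z) (B z) (C z)) := by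
  unfold vec
  have : Continuous (fun z => ![(A z - B z).re, (A z + B z).im, 2 * (C z).re]) := by
    refine continuous_pi ?_
    intro i
    fin_cases i
    · exact Complex.continuous_re.comp (hA.sub hB)
    · exact Complex.continuous_im.comp (hA.add hB)
    · exact continuous_const.mul (Complex.continuous_re.comp hC)
  exact (PiLp.continuous_toLp 2 _).comp this

lemma Datum.continuous_X (D : Datum) : Continuous D.X :=
  continuous_vec D.continuous_A D.continuous_B D.continuous_C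

/-- The size `max |u| |v|` of the spinor. -/
def Datum.m (D : Datum) (z : ℂ) : ℝ := max ‖D.u z‖ ‖D.v z‖

lemma Datum.continuous_m (D : Datum) : Continuous D.m :=
  D.hu.continuous.norm.max D.hv.continuous.norm

lemma norm_sq_sub_le {a b : R3} {η K : ℝ} (h : ‖a - b‖ ≤ η) (hb : ‖b‖ ≤ K) :
    |‖a‖ ^ 2 - ‖b‖ ^ 2| ≤ η * (2 * K + η) := by
  have h1 : |‖a‖ - ‖b‖| ≤ η := (abs_norm_sub_norm_le a b).trans h
  have hη : 0 ≤ η := (norm_nonneg _).trans h
  have h2 : ‖a‖ ≤ ‖b‖ + η := by linarith [(abs_le.mp h1).2]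
  have e : ‖a‖ ^ 2 - ‖b‖ ^ 2 = (‖a‖ - ‖b‖) * (‖a‖ + ‖b‖) := by ring
  rw [e, abs_mul, abs_of_nonneg (a := ‖a‖ + ‖b‖) (by positivity)]
  apply mul_le_mul h1 (by linarith) (by positivity) hη

lemma exists_annulus {g : ℂ → ℝ} (hg : Continuous g) {c : ℝ} (h : ∀ z, ‖z‖ = 1 → g z < c) :
    ∃ δ : ℝ, 0 < δ ∧ δ < 1 ∧ ∀ z, 1 - δ ≤ ‖z‖ → ‖z‖ ≤ 1 → g z < c := by
  by_contra hcon
  push Not at hcon
  have h1 : ∀ n : ℕ, ∃ z : ℂ, 1 - 1 / ((n : ℝ) + 2) ≤ ‖z‖ ∧ ‖z‖ ≤ 1 ∧ c ≤ g z := by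
    intro n
    apply hcon
    · positivity
    · rw [div_lt_one (by positivity)]
      have : (0 : ℝ) ≤ n := Nat.cast_nonneg n
      linarith
  choose z hz1 hz2 hz3 using h1
  obtain ⟨w, hw, φ, hφ, hlim⟩ := (isCompact_closedBall (0 : ℂ) 1).tendsto_subseq
    (x := z) (fun n => by simpa using hz2 n)
  have hw1 : ‖w‖ = 1 := by
    have h2 : Tendsto (fun n => ‖z (φ n)‖) atTop (𝓝 ‖w‖) := hlim.norm
    have h3 : Tendsto (fun n => ‖z (φ n)‖) atTop (𝓝 1) := by
      have h4 : Tendsto (fun n : ℕ => 1 - 1 / ((φ n : ℝ) + 2)) atTop (𝓝 (1 - 0)) := by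
        apply Tendsto.sub tendsto_const_nhds
        have h5 : Tendsto (fun n : ℕ => 1 / ((n : ℝ) + 2)) atTop (𝓝 0) := by
          apply Tendsto.const_div_atTop
          exact tendsto_atTop_add_const_right _ _ tendsto_natCast_atTop_atTop
        exact h5.comp hφ.tendsto_atTop
      rw [sub_zero] at h4
      exact tendsto_of_tendsto_of_tendsto_of_le_of_le h4 tendsto_const_nhds
        (fun n => hz1 (φ n)) (fun n => hz2 (φ n))
    exact tendsto_nhds_unique h2 h3
  have h2 : c ≤ g w := by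
    have h3 : Tendsto (fun n => g (z (φ n))) atTop (𝓝 (g w)) := (hg.tendsto w).comp hlim
    exact ge_of_tendsto' h3 (fun n => hz3 (φ n))
  exact absurd (h w hw1) (not_lt.mpr h2)

end Pool.Agent.MinSurf
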